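import Mathlib

set_option autoImplicit false

namespace Pool.Agent.H542Z.AddChain

def loop (D : ℕ) (f : ℕ → Bool) : ℕ → ℕ → Bool
  | 0, _ => true
  | k + 1, W =>
    match Nat.beq W 0 with
    | true => false
    | false => f (Nat.gcd W D) || loop D f k (W ^^^ Nat.gcd W D)

theorem loop_ok (d : ℕ) (f : ℕ → Bool) (v : ℕ) (h3 : f (2 ^ v) = true) :
    ∀ k W : ℕ, W.testBit v = true → loop (2 ^ d) f k W = true
  | 0, _, _ => rfl
  | k + 1, W, h => by
    unfold loop
    split
    · rename_i hc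
      rw [Nat.beq_eq] at hc
      rw [hc] at h
      simp at h
    · obtain ⟨j, -, hj⟩ := (Nat.dvd_prime_pow Nat.prime_two).1 (Nat.gcd_dvd_right W (2 ^ d))
      rw [hj]
      by_cases e : j = v
      · rw [e, h3]; rfl
      · rw [loop_ok d f v h3 k _ (by
          rw [Nat.testBit_xor, h, Nat.testBit_two_pow_of_ne e]; rfl)]
        simp

def clr (W Q : ℕ) : ℕ := W / Q * Q

theorem testBit_clr (W j v : ℕ) (h : j ≤ v) : (clr W (2 ^ j)).testBit v = W.testBit v := by
  unfold clr
  rw [Nat.testBit_mul_two_pow, Nat.testBit_div_two_pow, Nat.sub_add_cancel h]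
  simp [h]

def search (d D : ℕ) : ℕ → ℕ → ℕ → ℕ → Bool
  | 0, _, _, _ => false
  | n + 1, P, M, S =>
    Nat.beq ((S / D) % 2) 1 || loop D
      (fun Q => search d D n Q (M ||| Q) (S ||| ((M ||| Q) * Q))) 100
        (clr (clr (S % D) (2 * P)) (2 ^ ((d - 1) / 2 ^ n + 1)))

theorem search_ok (d : ℕ) (T : Finset ℕ) (hd : d ∈ T) (hpos : ∀ x ∈ T, 0 < x)
    (hT : ∀ x ∈ T, x = 1 ∨ ∃ a ∈ T, ∃ b ∈ T, x = a + b) :
    ∀ (n m M S : ℕ), (∀ x ∈ T, x ≤ m → M.testBit x = true) →
      (∀ a ∈ T, ∀ b ∈ T, a ≤ m → b ≤ m → S.testBit (a + b) = true) → 1 ≤ m → m < d →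
      (T.filter (fun x => m < x)).card ≤ n → d ≤ m * 2 ^ n ∧ search d (2 ^ d) n (2 ^ m) M S = true := by
  intro n
  induction n with
  | zero =>
    intro m M S _ _ _ hm hc
    have : d ∈ T.filter (fun x => m < x) := Finset.mem_filter.2 ⟨hd, hm⟩
    have := Finset.card_pos.2 ⟨d, this⟩
    omega
  | succ n ih =>
    intro m M S hM hS h1 hm hc
    have hne : (T.filter (fun x => m < x)).Nonempty := ⟨d, Finset.mem_filter.2 ⟨hd, hm⟩⟩
    obtain ⟨v, hv, hmin⟩ := Finset.exists_min_image _ id hne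
    obtain ⟨hvT, hmv⟩ := Finset.mem_filter.1 hv
    have hvd : v ≤ d := hmin d (Finset.mem_filter.2 ⟨hd, hm⟩)
    have hlow : ∀ x ∈ T, x < v → x ≤ m := by
      intro x hx hxv
      by_contra hcon
      have := hmin x (Finset.mem_filter.2 ⟨hx, by omega⟩)
      simp only [id] at this
      omega
    obtain ⟨a, ha, b, hb, hab⟩ := (hT v hvT).resolve_left (by omega)
    have a0 := hpos a ha
    have b0 := hpos b hb
    have a1 := hlow a ha (by omega)
    have b1 := hlow b hb (by omega)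
    have hs : S.testBit v = true := hab ▸ hS a ha b hb a1 b1
    have hp : 1 ≤ 2 ^ n := Nat.one_le_two_pow
    have hfin : d ≤ v * 2 ^ n → d ≤ m * 2 ^ (n + 1) := fun h =>
      calc d ≤ v * 2 ^ n := h
        _ ≤ (m * 2) * 2 ^ n := Nat.mul_le_mul_right _ (by omega)
        _ = m * 2 ^ (n + 1) := by ring
    rcases eq_or_lt_of_le hvd with h | h
    · refine ⟨hfin (by rw [← h]; exact Nat.le_mul_of_pos_right _ hp), ?_⟩
      unfold search
      have : (S / 2 ^ d) % 2 = 1 := by
        rw [h, Nat.testBit_eq_decide_div_mod_eq] at hs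
        simpa using hs
      rw [this]; rfl
    · have hM' : ∀ x ∈ T, x ≤ v → (M ||| 2 ^ v).testBit x = true := by
        intro x hx hxv
        rw [Nat.testBit_or]
        rcases eq_or_lt_of_le hxv with rfl | h'
        · simp
        · rw [hM x hx (hlow x hx h')]; rfl
      have hsh : ∀ x ∈ T, x ≤ v → ((M ||| 2 ^ v) * 2 ^ v).testBit (x + v) = true := by
        intro x hx hxv
        rw [Nat.testBit_mul_two_pow, Nat.add_sub_cancel, hM' x hx hxv]
        simp
      obtain ⟨k1, k2⟩ := ih v (M ||| 2 ^ v) (S ||| ((M ||| 2 ^ v) * 2 ^ v)) hM' (by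
        intro x hx y hy hxv hyv
        rw [Nat.testBit_or]
        rcases eq_or_lt_of_le hyv with rfl | hy'
        · rw [hsh x hx hxv]; simp
        · rcases eq_or_lt_of_le hxv with rfl | hx'
          · rw [add_comm, hsh y hy hyv]; simp
          · rw [hS x hx y hy (hlow x hx hx') (hlow y hy hy')]; rfl) (by omega) h (by
        have : T.filter (fun x => v < x) ⊆ (T.filter (fun x => m < x)).erase v := by
          intro x hx
          obtain ⟨g1, g2⟩ := Finset.mem_filter.1 hx
          exact Finset.mem_erase.2 ⟨by omega, Finset.mem_filter.2 ⟨g1, by omega⟩⟩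
        have h2 := Finset.card_le_card this
        rw [Finset.card_erase_of_mem hv] at h2
        omega)
      refine ⟨hfin k1, ?_⟩
      unfold search
      have hlo : (d - 1) / 2 ^ n + 1 ≤ v := by
        have : (d - 1) / 2 ^ n < v := (Nat.div_lt_iff_lt_mul (by omega)).2 (by omega)
        omega
      rw [loop_ok d _ v k2 100 _ (by
        rw [testBit_clr _ _ _ hlo, ← pow_succ', testBit_clr _ _ _ hmv, Nat.testBit_mod_two_pow, hs]
        simpa using h)]
      simp

theorem search_465 : search 465 (2 ^ 465) 11 (2 ^ 1) 2 4 = false := by decide +kernel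

theorem chain_465 (r : ℕ) (c : ℕ → ℕ) (h0 : c 0 = 1)
    (hc : ∀ k, 1 ≤ k → k ≤ r → ∃ i j, i < k ∧ j < k ∧ c k = c i + c j) (hr : c r = 465) :
    11 < r := by
  by_contra hcon
  have hpos : ∀ k, k ≤ r → 0 < c k := by
    intro k
    induction k using Nat.strong_induction_on with
    | _ k ih =>
      intro hk
      rcases Nat.eq_zero_or_pos k with rfl | hk0
      · omega
      · obtain ⟨i, j, hi, hj, e⟩ := hc k hk0 hk
        have := ih i hi (by omega)
        omega
  have := search_ok 465 ((Finset.range (r + 1)).image c)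
    (Finset.mem_image.2 ⟨r, Finset.mem_range.2 (by omega), hr⟩) (by
      intro x hx
      obtain ⟨k, hk, rfl⟩ := Finset.mem_image.1 hx
      exact hpos k (by have := Finset.mem_range.1 hk; omega)) (by
      intro x hx
      obtain ⟨k, hk, rfl⟩ := Finset.mem_image.1 hx
      have hk' := Finset.mem_range.1 hk
      rcases Nat.eq_zero_or_pos k with rfl | hk0
      · exact Or.inl h0
      · obtain ⟨i, j, hi, hj, e⟩ := hc k hk0 (by omega)
        exact Or.inr ⟨c i, Finset.mem_image.2 ⟨i, Finset.mem_range.2 (by omega), rfl⟩,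
          c j, Finset.mem_image.2 ⟨j, Finset.mem_range.2 (by omega), rfl⟩, e⟩) 11 1 2 4 (by
      intro x hx h1
      obtain ⟨k, hk, rfl⟩ := Finset.mem_image.1 hx
      have := hpos k (by have := Finset.mem_range.1 hk; omega)
      have e : c k = 1 := by omega
      rw [e]; rfl) (by
      intro x hx y hy h1 h2
      obtain ⟨k, hk, rfl⟩ := Finset.mem_image.1 hx
      obtain ⟨l, hl, rfl⟩ := Finset.mem_image.1 hy
      have := hpos k (by have := Finset.mem_range.1 hk; omega)
      have := hpos l (by have := Finset.mem_range.1 hl; omega)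
      have e : c k + c l = 2 := by omega
      rw [e]; rfl) le_rfl (by norm_num) (by
      have : ((Finset.range (r + 1)).image c).filter (fun x => 1 < x) ⊆
          (Finset.Icc 1 r).image c := by
        intro x hx
        obtain ⟨g1, g2⟩ := Finset.mem_filter.1 hx
        obtain ⟨k, hk, rfl⟩ := Finset.mem_image.1 g1
        have hk' := Finset.mem_range.1 hk
        refine Finset.mem_image.2 ⟨k, Finset.mem_Icc.2 ⟨?_, by omega⟩, rfl⟩
        rcases Nat.eq_zero_or_pos k with rfl | hk0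
        · omega
        · exact hk0
      have h2 := (Finset.card_le_card this).trans Finset.card_image_le
      rw [Nat.card_Icc] at h2
      omega)
  rw [search_465] at this
  exact absurd this.2 (by simp)

open Polynomial

noncomputable def rr : ℤ[X] := X ^ 64 * (X ^ 64 + X ^ 16 + X)

noncomputable def vv : ℕ → ℤ[X]
  | 0 => 1
  | 1 => X
  | 2 => X ^ 2
  | 3 => X ^ 4
  | 4 => X ^ 8
  | 5 => X ^ 16
  | 6 => X ^ 32
  | 7 => X ^ 64
  | 8 => X ^ 64 + X ^ 16
  | 9 => X ^ 64 + X ^ 16 + X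
  | 10 => rr
  | 11 => X ^ 64 + X
  | 12 => (X ^ 64 + X) * rr
  | 13 => (X ^ 64 + X - 1) * rr
  | 14 => rr * ((X ^ 64 + X - 1) * rr)
  | 15 => rr - (X ^ 64 + X ^ 16)
  | 16 => (rr - (X ^ 64 + X ^ 16)) * ((X ^ 64 + X) * rr)
  | 17 => X ^ 17 * rr
  | _ => rr * ((X ^ 64 + X - 1) * rr) * (X ^ 17 * rr)

def opp (k : ℕ) : Fin 3 := [2, 2, 2, 2, 2, 2, 0, 0, 2, 0, 2, 1, 2, 1, 2, 1, 2].getD k 0
def aa (k : ℕ) : ℕ := [1, 2, 3, 4, 5, 6, 7, 8, 7, 7, 11, 12, 10, 10, 15, 14, 14].getD k 0
def bb (k : ℕ) : ℕ := [1, 2, 3, 4, 5, 6, 5, 1, 9, 1, 10, 10, 13, 8, 12, 16, 17].getD k 0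

theorem deg_rr : rr.Monic ∧ rr.natDegree = 128 := by
  have h1 : (X ^ 64 + X ^ 16 + X : ℤ[X]).Monic := by monicity!
  have h2 : (X ^ 64 + X ^ 16 + X : ℤ[X]).natDegree = 64 := by compute_degree!
  refine ⟨(monic_X_pow 64).mul h1, ?_⟩
  unfold rr
  rw [(monic_X_pow 64).natDegree_mul h1, h2, natDegree_X_pow]

theorem deg_vv : (vv 18).natDegree = 465 := by
  have h1 : (X ^ 64 + X - 1 : ℤ[X]).Monic := by monicity!
  have h2 : (X ^ 64 + X - 1 : ℤ[X]).natDegree = 64 := by compute_degree!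
  obtain ⟨m, d⟩ := deg_rr
  change (rr * ((X ^ 64 + X - 1) * rr) * (X ^ 17 * rr)).natDegree = 465
  rw [(m.mul (h1.mul m)).natDegree_mul ((monic_X_pow 17).mul m), m.natDegree_mul (h1.mul m),
    h1.natDegree_mul m, (monic_X_pow 17).natDegree_mul m, h2, d, natDegree_X_pow]

theorem key17 : (X ^ 17 * rr : ℤ[X]) =
    rr * ((X ^ 64 + X - 1) * rr) - (rr - (X ^ 64 + X ^ 16)) * ((X ^ 64 + X) * rr) := by
  have h : (rr : ℤ[X]) = (X ^ 64 + X ^ 16) * (X ^ 64 + X) - X ^ 17 := by
    unfold rr; ring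
  generalize rr = r at h ⊢
  linear_combination r * h

theorem st0 : vv 2 = vv 1 * vv 1 :=
  (show (X ^ 2 : ℤ[X]) = (X) * (X) from by ring)

theorem st1 : vv 3 = vv 2 * vv 2 :=
  (show (X ^ 4 : ℤ[X]) = (X ^ 2) * (X ^ 2) from by ring)

theorem st2 : vv 4 = vv 3 * vv 3 :=
  (show (X ^ 8 : ℤ[X]) = (X ^ 4) * (X ^ 4) from by ring)

theorem st3 : vv 5 = vv 4 * vv 4 :=
  (show (X ^ 16 : ℤ[X]) = (X ^ 8) * (X ^ 8) from by ring)

theorem st4 : vv 6 = vv 5 * vv 5 :=
  (show (X ^ 32 : ℤ[X]) = (X ^ 16) * (X ^ 16) from by ring)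

theorem st5 : vv 7 = vv 6 * vv 6 :=
  (show (X ^ 64 : ℤ[X]) = (X ^ 32) * (X ^ 32) from by ring)

theorem st6 : vv 8 = vv 7 + vv 5 :=
  (show (X ^ 64 + X ^ 16 : ℤ[X]) = (X ^ 64) + (X ^ 16) from by ring)

theorem st7 : vv 9 = vv 8 + vv 1 :=
  (show (X ^ 64 + X ^ 16 + X : ℤ[X]) = (X ^ 64 + X ^ 16) + (X) from by ring)

theorem st8 : vv 10 = vv 7 * vv 9 :=
  (show (rr : ℤ[X]) = (X ^ 64) * (X ^ 64 + X ^ 16 + X) from rfl)

theorem st9 : vv 11 = vv 7 + vv 1 :=
  (show (X ^ 64 + X : ℤ[X]) = (X ^ 64) + (X) from by ring)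

theorem st10 : vv 12 = vv 11 * vv 10 :=
  (show ((X ^ 64 + X) * rr : ℤ[X]) = (X ^ 64 + X) * (rr) from by ring)

theorem st11 : vv 13 = vv 12 - vv 10 :=
  (show ((X ^ 64 + X - 1) * rr : ℤ[X]) = ((X ^ 64 + X) * rr) - (rr) from by ring)

theorem st12 : vv 14 = vv 10 * vv 13 :=
  (show (rr * ((X ^ 64 + X - 1) * rr) : ℤ[X]) = (rr) * ((X ^ 64 + X - 1) * rr) from by ring)

theorem st13 : vv 15 = vv 10 - vv 8 :=
  (show (rr - (X ^ 64 + X ^ 16) : ℤ[X]) = (rr) - (X ^ 64 + X ^ 16) from by ring)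

theorem st14 : vv 16 = vv 15 * vv 12 :=
  (show ((rr - (X ^ 64 + X ^ 16)) * ((X ^ 64 + X) * rr) : ℤ[X]) = (rr - (X ^ 64 + X ^ 16)) * ((X ^ 64 + X) * rr) from by ring)

theorem st15 : vv 17 = vv 14 - vv 16 :=
  (show (X ^ 17 * rr : ℤ[X]) = (rr * ((X ^ 64 + X - 1) * rr)) - ((rr - (X ^ 64 + X ^ 16)) * ((X ^ 64 + X) * rr)) from key17)

theorem st16 : vv 18 = vv 14 * vv 17 :=
  (show (rr * ((X ^ 64 + X - 1) * rr) * (X ^ 17 * rr) : ℤ[X]) = (rr * ((X ^ 64 + X - 1) * rr)) * (X ^ 17 * rr) from by ring)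

theorem steps (k : ℕ) (hk : k < 17) : aa k < k + 2 ∧ bb k < k + 2 ∧
    (opp k = 0 → vv (k + 2) = vv (aa k) + vv (bb k)) ∧
    (opp k = 1 → vv (k + 2) = vv (aa k) - vv (bb k)) ∧
    (opp k = 2 → vv (k + 2) = vv (aa k) * vv (bb k)) := by
  interval_cases k
  · exact ⟨by decide, by decide, fun h => absurd h (by decide),
      fun h => absurd h (by decide), fun _ => st0⟩
  · exact ⟨by decide, by decide, fun h => absurd h (by decide),
      fun h => absurd h (by decide), fun _ => st1⟩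
  · exact ⟨by decide, by decide, fun h => absurd h (by decide),
      fun h => absurd h (by decide), fun _ => st2⟩
  · exact ⟨by decide, by decide, fun h => absurd h (by decide),
      fun h => absurd h (by decide), fun _ => st3⟩
  · exact ⟨by decide, by decide, fun h => absurd h (by decide),
      fun h => absurd h (by decide), fun _ => st4⟩
  · exact ⟨by decide, by decide, fun h => absurd h (by decide),
      fun h => absurd h (by decide), fun _ => st5⟩
  · exact ⟨by decide, by decide, fun _ => st6,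
      fun h => absurd h (by decide), fun h => absurd h (by decide)⟩
  · exact ⟨by decide, by decide, fun _ => st7,
      fun h => absurd h (by decide), fun h => absurd h (by decide)⟩
  · exact ⟨by decide, by decide, fun h => absurd h (by decide),
      fun h => absurd h (by decide), fun _ => st8⟩
  · exact ⟨by decide, by decide, fun _ => st9,
      fun h => absurd h (by decide), fun h => absurd h (by decide)⟩
  · exact ⟨by decide, by decide, fun h => absurd h (by decide),
      fun h => absurd h (by decide), fun _ => st10⟩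
  · exact ⟨by decide, by decide, fun h => absurd h (by decide),
      fun _ => st11, fun h => absurd h (by decide)⟩
  · exact ⟨by decide, by decide, fun h => absurd h (by decide),
      fun h => absurd h (by decide), fun _ => st12⟩
  · exact ⟨by decide, by decide, fun h => absurd h (by decide),
      fun _ => st13, fun h => absurd h (by decide)⟩
  · exact ⟨by decide, by decide, fun h => absurd h (by decide),
      fun h => absurd h (by decide), fun _ => st14⟩
  · exact ⟨by decide, by decide, fun h => absurd h (by decide),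
      fun _ => st15, fun h => absurd h (by decide)⟩
  · exact ⟨by decide, by decide, fun h => absurd h (by decide),
      fun h => absurd h (by decide), fun _ => st16⟩

end Pool.Agent.H542Z.AddChain
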