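import Pool.Agent.H542Z.BabaiContr

set_option autoImplicit false

namespace Pool.Agent.H542Z.Babai

open Pool.Agent.Helper805.CHS MulAction

variable {V : Type} {X : SimpleGraph V}

/-- two generators of a Cayley graph minor commute -/
theorem comm_of_cayley {B : Type} [Group B] [Finite B] {k N : ℕ} (hN : 2 * (2 ^ k - 1) < N)
    (hK : ¬ HasK X (k + 2)) (hB : Rough N B) (Q : B → Set V) (hc : ∀ x, Conn X (Q x))
    (hd : ∀ x y, x ≠ y → Disjoint (Q x) (Q y)) {a b : B}
    (ha : ∀ x, Rl X (Q x) (Q (x * a))) (hb : ∀ x, Rl X (Q x) (Q (x * b))) : a * b = b * a := by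
  by_contra hne
  apply hK
  have hN0 : 0 < N := by omega
  set L := Subgroup.zpowers b with hL
  have haL : a ∉ L := by
    rintro ⟨m, hm⟩
    apply hne
    rw [← hm]
    exact ((Commute.refl b).zpow_left m).eq
  have hbL : b ∈ L := Subgroup.mem_zpowers b
  have hQeq : ∀ x y v, v ∈ Q x → v ∈ Q y → x = y := by
    intro x y v hx hy
    by_contra hxy
    exact Set.disjoint_left.1 (hd x y hxy) hx hy
  by_cases hcase : a * b * a⁻¹ ∈ L
  · have hconj : ∀ l ∈ L, a * l * a⁻¹ ∈ L := by
      rintro l ⟨m, rfl⟩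
      have : a * b ^ m * a⁻¹ = (a * b * a⁻¹) ^ m := by rw [conj_zpow]
      simp only
      rw [this]
      exact L.zpow_mem hcase m
    have hpow : ∀ j : ℕ, a ^ j * b * (a ^ j)⁻¹ ∈ L := by
      intro j
      induction j with
      | zero => simpa using hbL
      | succ j ih =>
        have := hconj _ ih
        have e : a ^ (j + 1) * b * (a ^ (j + 1))⁻¹ = a * (a ^ j * b * (a ^ j)⁻¹) * a⁻¹ := by
          rw [pow_succ']; group
        rw [e]; exact this
    have key : ∀ (i d : ℕ), i + d < N → ∀ l ∈ L, ∀ l' ∈ L, l * a ^ i = l' * a ^ (i + d) →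
        l = l' := by
      intro i d hid l hl l' hl' he
      rcases Nat.eq_zero_or_pos d with rfl | hd0
      · simpa using he
      · exfalso
        apply haL
        apply hB.mem L hd0 (by omega)
        have e : a ^ d = l'⁻¹ * l := by
          rw [add_comm, pow_add, ← mul_assoc] at he
          have := mul_right_cancel he
          rw [this]; group
        rw [e]
        exact L.mul_mem (L.inv_mem hl') hl
    refine mader_idx (I := L) hN
      (fun l => {v | ∃ i ∈ {i : ℕ | i < N}, v ∈ Q ((l : B) * a ^ i)}) ?_ ?_ ?_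
    · intro l
      apply conn_union (fun i : ℕ => Q ((l : B) * a ^ i)) {i : ℕ | i < N} 0 hN0
        (fun i _ => hc _)
      intro T i hi hiT hT
      have h0 : ∀ j, j < N → (j ∈ T ↔ 0 ∈ T) := by
        intro j
        induction j with
        | zero => intro _; rfl
        | succ j ih =>
          intro hj
          have hj' : j < N := by omega
          have hr : Rl X (Q ((l : B) * a ^ j)) (Q ((l : B) * a ^ (j + 1))) := by
            rw [pow_succ, ← mul_assoc]; exact ha _
          rw [← ih hj']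
          exact ⟨fun h => hT _ hj _ hj' hr.symm h, fun h => hT _ hj' _ hj hr h⟩
      intro j hj
      exact (h0 j hj).2 ((h0 i hi).1 hiT)
    · intro l l' hll
      rw [Set.disjoint_left]
      rintro v ⟨i, hi, hv⟩ ⟨j, hj, hv'⟩
      have he := hQeq _ _ v hv hv'
      apply hll
      apply Subtype.ext
      rcases le_total i j with hij | hij
      · obtain ⟨d, rfl⟩ := Nat.exists_eq_add_of_le hij
        exact key i d hj _ l.2 _ l'.2 he
      · obtain ⟨d, rfl⟩ := Nat.exists_eq_add_of_le hij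
        exact (key j d hi _ l'.2 _ l.2 he.symm).symm
    · intro l
      have hcen : a ∉ Subgroup.centralizer ({b} : Set B) := by
        intro h
        rw [Subgroup.mem_centralizer_iff] at h
        exact hne (h b rfl).symm
      refine ⟨fun j => ⟨(l : B) * (a ^ (j : ℕ) * b * (a ^ (j : ℕ))⁻¹), L.mul_mem l.2 (hpow j)⟩,
        ?_, fun j => ⟨?_, ?_⟩⟩
      · have := hB.inj _ hcen (fun j => (l : B) * (a ^ j * b * (a ^ j)⁻¹)) (by
          intro i d hid
          rw [Subgroup.mem_centralizer_iff]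
          rintro x rfl
          have h1 := mul_left_cancel hid
          rw [pow_add] at h1
          have h2 : x = (a ^ i)⁻¹ * (a ^ i * a ^ d * x * (a ^ i * a ^ d)⁻¹) * a ^ i := by
            rw [← h1]; group
          have h3 : x = a ^ d * x * (a ^ d)⁻¹ := by
            refine h2.trans ?_
            simp [mul_assoc]
          calc x * a ^ d = (a ^ d * x * (a ^ d)⁻¹) * a ^ d := by rw [← h3]
            _ = a ^ d * x := by simp [mul_assoc])
        intro i j hij
        exact this (congrArg Subtype.val hij)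
      · intro he
        have h1 : (l : B) * (a ^ (j : ℕ) * b * (a ^ (j : ℕ))⁻¹) = l := congrArg Subtype.val he
        have h2 : b = 1 := by simpa using h1
        apply hne
        rw [h2]; simp
      · refine Rl.mono (hb ((l : B) * a ^ (j : ℕ))) ?_ ?_
        · intro v hv
          exact ⟨j, j.2, hv⟩
        · intro v hv
          refine ⟨j, j.2, ?_⟩
          have e : (l : B) * (a ^ (j : ℕ) * b * (a ^ (j : ℕ))⁻¹) * a ^ (j : ℕ) =
              (l : B) * a ^ (j : ℕ) * b := by simp [mul_assoc]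
          simp only
          rw [e]; exact hv
  · refine mader_idx (I := B ⧸ L) hN
      (fun c => {v | ∃ x ∈ {x : B | (x : B ⧸ L) = c}, v ∈ Q x}) ?_ ?_ ?_
    · intro c
      obtain ⟨x0, rfl⟩ := QuotientGroup.mk_surjective c
      apply conn_union Q {x : B | (x : B ⧸ L) = (x0 : B ⧸ L)} x0 rfl (fun i _ => hc _)
      intro T i hi hiT hT j hj
      have hij : i⁻¹ * j ∈ L := QuotientGroup.eq.1 (hi.trans hj.symm)
      obtain ⟨m, hm⟩ := (mem_powers_iff_mem_zpowers).2 hij
      have hJ : ∀ m : ℕ, ((i * b ^ m : B) : B ⧸ L) = (x0 : B ⧸ L) := by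
        intro m
        rw [← hi]
        symm
        rw [QuotientGroup.eq]
        simpa using L.pow_mem hbL m
      have h0 : ∀ m : ℕ, i * b ^ m ∈ T := by
        intro m
        induction m with
        | zero => simpa using hiT
        | succ m ih =>
          refine hT _ (hJ m) _ (hJ (m + 1)) ?_ ih
          rw [pow_succ, ← mul_assoc]; exact hb _
      have e : j = i * b ^ m := by
        simp only at hm
        rw [hm]; group
      rw [e]; exact h0 m
    · intro c c' hcc
      rw [Set.disjoint_left]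
      rintro v ⟨x, hx, hv⟩ ⟨y, hy, hv'⟩
      have he := hQeq _ _ v hv hv'
      subst he
      exact hcc (hx.symm.trans hy)
    · intro c
      obtain ⟨x, rfl⟩ := QuotientGroup.mk_surjective c
      refine ⟨fun j => ((x * b ^ (j : ℕ) * a⁻¹ : B) : B ⧸ L), ?_, fun j => ⟨?_, ?_⟩⟩
      · exact hB.inj L hcase (fun j => ((x * b ^ j * a⁻¹ : B) : B ⧸ L)) (by
          intro i d hid
          rw [QuotientGroup.eq] at hid
          have e : (a * b * a⁻¹) ^ d = (x * b ^ i * a⁻¹)⁻¹ * (x * b ^ (i + d) * a⁻¹) := by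
            rw [conj_pow, pow_add]; group
          rw [e]; exact hid)
      · intro he
        have h1 := QuotientGroup.eq.1 he
        apply haL
        have e : a = ((x * b ^ (j : ℕ) * a⁻¹)⁻¹ * x) * b ^ (j : ℕ) := by group
        rw [e]
        exact L.mul_mem h1 (L.pow_mem hbL j)
      · refine Rl.mono (ha (x * b ^ (j : ℕ) * a⁻¹)).symm ?_ ?_
        · intro v hv
          refine ⟨_, ?_, hv⟩
          change ((x * b ^ (j : ℕ) * a⁻¹ * a : B) : B ⧸ L) = (x : B ⧸ L)
          symm
          rw [QuotientGroup.eq]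
          simpa [mul_assoc] using L.pow_mem hbL j
        · intro v hv
          exact ⟨_, rfl, hv⟩

/-- the quotient by the top stabiliser is abelian -/
theorem quot_comm [Finite V] {G : Type} [Group G] [Finite G] [MulAction G V] {k N : ℕ}
    (hN : 2 * (2 ^ k - 1) < N) (hK : ¬ HasK X (k + 2)) (hG : Rough N G)
    (hadj : ∀ (g : G) u v, X.Adj u v → X.Adj (g • u) (g • v))
    {D : Set V} (hD : ∀ (g : G), ∀ v ∈ D, g • v ∈ D) (hc : Conn X D) {π : V → V} {r : V}
    (hπ : ∀ (g : G), ∀ v ∈ D, π (g • v) = g • π v) (h1 : ∀ v ∈ D, ∃ g : G, π v = g • r)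
    (h2 : ∀ g : G, Conn X {w | w ∈ D ∧ π w = g • r}) (K : Subgroup G) [K.Normal]
    (hKdef : K = stabilizer G r) (a b : G ⧸ K) : a * b = b * a := by
  have heq : ∀ g g' : G, (g : G ⧸ K) = (g' : G ⧸ K) ↔ g • r = g' • r := by
    intro g g'
    rw [QuotientGroup.eq, hKdef, mem_stabilizer_iff, mul_smul, inv_smul_eq_iff]
    exact eq_comm
  let Q : G ⧸ K → Set V := fun c => {w | w ∈ D ∧ ∃ g : G, (g : G ⧸ K) = c ∧ π w = g • r}
  have hQ : ∀ g : G, Q (g : G ⧸ K) = {w | w ∈ D ∧ π w = g • r} := by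
    intro g
    ext w
    constructor
    · rintro ⟨hw, g', e1, e2⟩
      exact ⟨hw, e2.trans ((heq _ _).1 e1)⟩
    · rintro ⟨hw, e⟩
      exact ⟨hw, g, rfl, e⟩
  have hQc : ∀ c, Conn X (Q c) := by
    intro c
    obtain ⟨g, rfl⟩ := QuotientGroup.mk_surjective c
    rw [hQ]; exact h2 g
  have hQd : ∀ c c', c ≠ c' → Disjoint (Q c) (Q c') := by
    intro c c' hcc
    rw [Set.disjoint_left]
    rintro v ⟨-, g, e1, e2⟩ ⟨-, g', e1', e2'⟩
    apply hcc
    rw [← e1, ← e1', heq, ← e2, ← e2']
  have hB : Rough N (G ⧸ K) := hG.surj (QuotientGroup.mk' K) (QuotientGroup.mk'_surjective K)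
  let S : Set (G ⧸ K) := {s | Rl X (Q 1) (Q s)}
  have hS : ∀ s ∈ S, ∀ x, Rl X (Q x) (Q (x * s)) := by
    rintro s ⟨u, ⟨hu, g, e1, e2⟩, v, ⟨hv, g', e1', e2'⟩, huv⟩ x
    obtain ⟨y, rfl⟩ := QuotientGroup.mk_surjective x
    refine ⟨y • u, ⟨hD _ _ hu, y * g, ?_, ?_⟩, y • v, ⟨hD _ _ hv, y * g', ?_, ?_⟩, hadj _ _ _ huv⟩
    · rw [QuotientGroup.mk_mul, e1, mul_one]
    · rw [hπ _ _ hu, e2, mul_smul]
    · rw [QuotientGroup.mk_mul, e1']
    · rw [hπ _ _ hv, e2', mul_smul]
  have hcomm : ∀ s ∈ S, ∀ t ∈ S, s * t = t * s := fun s hs t ht =>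
    comm_of_cayley hN hK hB Q hQc hQd (hS s hs) (hS t ht)
  have htop : ∀ c, c ∈ Subgroup.closure S := by
    intro c
    obtain ⟨g, rfl⟩ := QuotientGroup.mk_surjective c
    obtain ⟨w0, hw0, e0⟩ := (h2 1).1
    obtain ⟨w, hw, e⟩ := (h2 g).1
    have := hc.2 {w | ∃ g : G, (g : G ⧸ K) ∈ Subgroup.closure S ∧ π w = g • r}
      ⟨w0, hw0, 1, (Subgroup.closure S).one_mem, e0⟩ (by
        rintro u hu v hv huv ⟨g, e1, e2⟩
        obtain ⟨g', e'⟩ := h1 v hv
        refine ⟨g', ?_, e'⟩
        have hs : ((g⁻¹ * g' : G) : G ⧸ K) ∈ S := by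
          refine ⟨g⁻¹ • u, ⟨hD _ _ hu, 1, rfl, ?_⟩, g⁻¹ • v, ⟨hD _ _ hv, g⁻¹ * g', rfl, ?_⟩,
            hadj _ _ _ huv⟩
          · rw [hπ _ _ hu, e2, inv_smul_smul, one_smul]
          · rw [hπ _ _ hv, e', mul_smul]
        have := (Subgroup.closure S).mul_mem e1 (Subgroup.subset_closure hs)
        simpa using this) w hw
    obtain ⟨g', e1, e2⟩ := this
    rw [(heq g g').2 (e.symm.trans e2)]
    exact e1
  have hc1 : ∀ s ∈ S, ∀ c, s * c = c * s := by
    intro s hs c
    have : Subgroup.closure S ≤ Subgroup.centralizer {s} := by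
      rw [Subgroup.closure_le]
      intro t ht
      rw [SetLike.mem_coe, Subgroup.mem_centralizer_iff]
      rintro x rfl
      exact hcomm _ hs _ ht
    have h := this (htop c)
    rw [Subgroup.mem_centralizer_iff] at h
    exact h s rfl
  have : Subgroup.closure S ≤ Subgroup.centralizer {b} := by
    rw [Subgroup.closure_le]
    intro t ht
    rw [SetLike.mem_coe, Subgroup.mem_centralizer_iff]
    rintro x rfl
    exact (hc1 _ ht _).symm
  have h := this (htop a)
  rw [Subgroup.mem_centralizer_iff] at h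
  exact (h b rfl).symm

end Pool.Agent.H542Z.Babai
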