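import Pool.Agent.H542Z.BabaiAbel

set_option autoImplicit false

namespace Pool.Agent.H542Z.Babai

open Pool.Agent.Helper805.CHS MulAction

variable {V : Type} {X : SimpleGraph V}

/-- automorphisms supported on `D` -/
def Supp (X : SimpleGraph V) (D : Set V) : Subgroup (X ≃g X) where
  carrier := {σ | ∀ v, v ∉ D → σ • v = v}
  one_mem' := fun _ _ => one_smul _ _
  mul_mem' := by
    intro a b ha hb v hv
    rw [mul_smul, hb v hv, ha v hv]
  inv_mem' := by
    intro a ha v hv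
    rw [inv_smul_eq_iff, ha v hv]

theorem mem_Supp {D : Set V} {σ : X ≃g X} : σ ∈ Supp X D ↔ ∀ v, v ∉ D → σ • v = v := Iff.rfl

theorem adj_smul (g : X ≃g X) {u v : V} (h : X.Adj u v) : X.Adj (g • u) (g • v) :=
  g.map_rel_iff.2 h

theorem Supp.maps {D : Set V} {σ : X ≃g X} (h : σ ∈ Supp X D) {v : V} (hv : v ∈ D) :
    σ • v ∈ D := by
  by_contra hc
  have := smul_left_cancel σ (h _ hc)
  rw [this] at hc
  exact hc hv

theorem exists_aut (σ τ : V → V) (h1 : ∀ v, τ (σ v) = v) (h2 : ∀ v, σ (τ v) = v)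
    (h3 : ∀ u v, X.Adj u v → X.Adj (σ u) (σ v)) (h4 : ∀ u v, X.Adj u v → X.Adj (τ u) (τ v)) :
    ∃ a : X ≃g X, ∀ v, a • v = σ v := by
  refine ⟨⟨⟨σ, τ, h1, h2⟩, ?_⟩, fun v => rfl⟩
  intro u v
  constructor
  · intro h
    have := h4 _ _ h
    simp only [Equiv.coe_fn_mk, h1] at this
    exact this
  · exact h3 u v

/-- restriction of an automorphism to an invariant set with fixed boundary -/
theorem exists_restrict (g : X ≃g X) (C : Set V) (hC : ∀ v, v ∈ C ↔ g • v ∈ C)
    (hb : ∀ u ∈ C, ∀ v, v ∉ C → X.Adj u v → g • v = v) :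
    ∃ a : X ≃g X, (∀ v ∈ C, a • v = g • v) ∧ ∀ v, v ∉ C → a • v = v := by
  classical
  have hadj : ∀ g : X ≃g X, (∀ u ∈ C, ∀ v, v ∉ C → X.Adj u v → g • v = v) →
      ∀ u v, X.Adj u v → X.Adj (if u ∈ C then g • u else u) (if v ∈ C then g • v else v) := by
    intro g hb u v huv
    by_cases hu : u ∈ C <;> by_cases hv : v ∈ C
    · rw [if_pos hu, if_pos hv]; exact adj_smul g huv
    · rw [if_pos hu, if_neg hv, ← hb u hu v hv huv]; exact adj_smul g huv
    · rw [if_neg hu, if_pos hv, ← hb v hv u hu huv.symm]; exact adj_smul g huv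
    · rw [if_neg hu, if_neg hv]; exact huv
  obtain ⟨a, ha⟩ := exists_aut (X := X) (fun v => if v ∈ C then g • v else v)
    (fun v => if v ∈ C then g⁻¹ • v else v) (by
      intro v
      by_cases hv : v ∈ C
      · simp only [if_pos hv, if_pos ((hC v).1 hv), inv_smul_smul]
      · simp only [if_neg hv]) (by
      intro v
      by_cases hv : v ∈ C
      · have : g⁻¹ • v ∈ C := by rw [hC, smul_inv_smul]; exact hv
        simp only [if_pos hv, if_pos this, smul_inv_smul]
      · simp only [if_neg hv]) (hadj g hb) (hadj g⁻¹ (by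
      intro u hu v hv huv
      rw [inv_smul_eq_iff, hb u hu v hv huv]))
  refine ⟨a, fun v hv => ?_, fun v hv => ?_⟩
  · rw [ha, if_pos hv]
  · rw [ha, if_neg hv]

/-- an automorphism supported on `E` maps every component of `E` to itself -/
theorem swap_comp {N : ℕ} (hN : 2 < N) (hR : Rough N (X ≃g X)) {E : Set V} {g : X ≃g X}
    (hg : g ∈ Supp X E) {u : V} (hu : u ∈ E) : g • u ∈ comp X E u := by
  classical
  by_contra hcon
  set C := comp X E u with hC
  have hgi : g⁻¹ ∈ Supp X E := (Supp X E).inv_mem hg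
  have hdis : ∀ v ∈ C, g • v ∉ C := by
    intro v hv hgv
    have h1 : g • v ∈ comp X E (g • u) :=
      comp_map (fun x => g • x) (fun _ _ h => adj_smul g h) (fun _ h => Supp.maps hg h) hv
    exact hcon (comp_trans hgv (comp_symm h1))
  have hCE : C ⊆ E := comp_subset hu
  let σ : V → V := fun v => if v ∈ C then g • v else if g⁻¹ • v ∈ C then g⁻¹ • v else v
  have s1 : ∀ v ∈ C, σ v = g • v := fun v hv => if_pos hv
  have s2 : ∀ v, g⁻¹ • v ∈ C → σ v = g⁻¹ • v := by
    intro v hv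
    have : v ∉ C := by
      have := hdis _ hv
      rwa [smul_inv_smul] at this
    simp only [σ, if_neg this, if_pos hv]
  have s3 : ∀ v, v ∉ C → g⁻¹ • v ∉ C → σ v = v := by
    intro v h1 h2
    simp only [σ, if_neg h1, if_neg h2]
  have s4 : ∀ v, v ∉ E → σ v = v := by
    intro v hv
    apply s3
    · exact fun h => hv (hCE h)
    · rw [hgi v hv]; exact fun h => hv (hCE h)
  have hinv : ∀ v, σ (σ v) = v := by
    intro v
    by_cases h1 : v ∈ C
    · rw [s1 v h1, s2 _ (by rw [inv_smul_smul]; exact h1), inv_smul_smul]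
    · by_cases h2 : g⁻¹ • v ∈ C
      · rw [s2 v h2, s1 _ h2, smul_inv_smul]
      · rw [s3 v h1 h2, s3 v h1 h2]
  have n1 : ∀ x ∈ C, ∀ v, X.Adj x v → X.Adj (σ x) (σ v) := by
    intro x hx v hxv
    have : σ v = g • v := by
      by_cases hv : v ∈ E
      · exact s1 v (comp_step hx (hCE hx) hv hxv)
      · rw [s4 v hv, hg v hv]
    rw [this, s1 x hx]
    exact adj_smul g hxv
  have n2 : ∀ x, g⁻¹ • x ∈ C → ∀ v, X.Adj x v → X.Adj (σ x) (σ v) := by
    intro x hx v hxv
    have : σ v = g⁻¹ • v := by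
      by_cases hv : v ∈ E
      · exact s2 v (comp_step hx (hCE hx) (Supp.maps hgi hv) (adj_smul g⁻¹ hxv))
      · rw [s4 v hv, hgi v hv]
    rw [this, s2 x hx]
    exact adj_smul g⁻¹ hxv
  have hadj : ∀ x v, X.Adj x v → X.Adj (σ x) (σ v) := by
    intro x v hxv
    by_cases a1 : x ∈ C
    · exact n1 x a1 v hxv
    by_cases a2 : g⁻¹ • x ∈ C
    · exact n2 x a2 v hxv
    by_cases b1 : v ∈ C
    · exact (n1 v b1 x hxv.symm).symm
    by_cases b2 : g⁻¹ • v ∈ C
    · exact (n2 v b2 x hxv.symm).symm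
    rw [s3 x a1 a2, s3 v b1 b2]
    exact hxv
  obtain ⟨a, ha⟩ := exists_aut (X := X) σ σ hinv hinv hadj hadj
  have h2 : a ^ 2 = 1 := by
    apply eq_of_smul_eq_smul (α := V)
    intro v
    rw [pow_two, mul_smul, ha, ha, hinv, one_smul]
  obtain ⟨m, hm⟩ := hR a 2 (by norm_num) hN
  rw [h2, one_pow] at hm
  have h3 := ha u
  rw [← hm, one_smul, s1 u (self_mem_comp X E u)] at h3
  apply hcon
  rw [← h3]
  exact self_mem_comp X E u

/-- the disconnected case -/
theorem prod_iso {N : ℕ} (hN : 2 < N) (hR : Rough N (X ≃g X)) {D : Set V} {u : V} (hu : u ∈ D) :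
    Nonempty ((Supp X (comp X D u) × Supp X (D \ comp X D u)) ≃* Supp X D) := by
  set C := comp X D u with hC
  have hCD : C ⊆ D := comp_subset hu
  have hcomm : ∀ a ∈ Supp X C, ∀ b ∈ Supp X (D \ C), a * b = b * a := by
    intro a ha b hb
    apply eq_of_smul_eq_smul (α := V)
    intro v
    rw [mul_smul, mul_smul]
    by_cases h1 : v ∈ C
    · rw [hb v (fun h => h.2 h1), hb _ (fun h => h.2 (Supp.maps ha h1))]
    · by_cases h2 : v ∈ D \ C
      · rw [ha v h1, ha _ (Supp.maps hb h2).2]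
      · rw [hb v h2, ha v h1, hb v h2]
  have hmem : ∀ a ∈ Supp X C, ∀ b ∈ Supp X (D \ C), a * b ∈ Supp X D := by
    intro a ha b hb v hv
    rw [mul_smul, hb v (fun h => hv h.1), ha v (fun h => hv (hCD h))]
  let Φ : (Supp X C × Supp X (D \ C)) →* Supp X D := MonoidHom.mk'
    (fun p => ⟨p.1.1 * p.2.1, hmem _ p.1.2 _ p.2.2⟩) (by
      intro p q
      apply Subtype.ext
      change (p.1.1 * q.1.1) * (p.2.1 * q.2.1) = (p.1.1 * p.2.1) * (q.1.1 * q.2.1)
      rw [mul_assoc, ← mul_assoc q.1.1, hcomm _ q.1.2 _ p.2.2]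
      simp only [mul_assoc])
  refine ⟨MulEquiv.ofBijective Φ ⟨?_, ?_⟩⟩
  · rw [injective_iff_map_eq_one]
    rintro ⟨a, b⟩ hab
    have h1 : a.1 * b.1 = 1 := congrArg Subtype.val hab
    have h2 : a.1 = 1 := by
      apply eq_of_smul_eq_smul (α := V)
      intro v
      rw [one_smul]
      by_cases hv : v ∈ C
      · have : (a.1 * b.1) • v = v := by rw [h1, one_smul]
        rwa [mul_smul, b.2 v (fun h => h.2 hv)] at this
      · exact a.2 v hv
    rw [h2, one_mul] at h1
    exact Prod.ext (Subtype.ext h2) (Subtype.ext h1)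
  · rintro ⟨g, hg⟩
    have hinv : ∀ g ∈ Supp X D, ∀ v ∈ C, g • v ∈ C := fun g hg v hv =>
      comp_trans hv (swap_comp hN hR hg (hCD hv))
    obtain ⟨a, ha1, ha2⟩ := exists_restrict g C (by
      intro v
      refine ⟨hinv g hg v, fun h => ?_⟩
      have := hinv g⁻¹ ((Supp X D).inv_mem hg) _ h
      rwa [inv_smul_smul] at this) (by
      intro x hx v hv hxv
      apply hg
      intro hvD
      exact hv (comp_step hx (hCD hx) hvD hxv))
    have hb : a⁻¹ * g ∈ Supp X (D \ C) := by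
      intro v hv
      rw [mul_smul, inv_smul_eq_iff]
      by_cases h1 : v ∈ C
      · exact (ha1 v h1).symm
      · rw [ha2 v h1]
        exact hg v (fun h => hv ⟨h, h1⟩)
    refine ⟨(⟨a, ha2⟩, ⟨a⁻¹ * g, hb⟩), Subtype.ext ?_⟩
    change a * (a⁻¹ * g) = g
    simp

end Pool.Agent.H542Z.Babai
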