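import Pool.Agent.Helper805.CHS.Density

set_option autoImplicit false

namespace Pool.Agent.H542Z.Babai

open Pool.Agent.Helper805.CHS

variable {V : Type}

/-- connectivity of a vertex set, in the form of an induction principle -/
def Conn (X : SimpleGraph V) (A : Set V) : Prop :=
  A.Nonempty ∧ ∀ S : Set V, (∃ u ∈ A, u ∈ S) →
    (∀ u ∈ A, ∀ v ∈ A, X.Adj u v → u ∈ S → v ∈ S) → ∀ v ∈ A, v ∈ S

theorem Conn.connected {X : SimpleGraph V} {A : Set V} (h : Conn X A) :
    (X.induce A).Connected := by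
  obtain ⟨⟨u, hu⟩, h2⟩ := h
  rw [SimpleGraph.connected_iff_exists_forall_reachable]
  refine ⟨⟨u, hu⟩, ?_⟩
  rintro ⟨v, hv⟩
  have := h2 {w | ∃ hw : w ∈ A, (X.induce A).Reachable ⟨u, hu⟩ ⟨w, hw⟩}
    ⟨u, hu, hu, SimpleGraph.Reachable.refl _⟩ (by
      rintro a ha b hb hab ⟨ha', hr⟩
      refine ⟨hb, hr.trans (SimpleGraph.Adj.reachable ?_)⟩
      simpa using hab) v hv
  obtain ⟨_, h⟩ := this
  exact h

theorem conn_singleton (X : SimpleGraph V) (u : V) : Conn X {u} := by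
  refine ⟨⟨u, rfl⟩, ?_⟩
  rintro S ⟨a, ha, haS⟩ _ v hv
  rw [Set.mem_singleton_iff] at ha hv
  rw [hv, ← ha]; exact haS

/-- a set that is closed under adjacency inside `A` and meets a connected subset `B` of `A`
contains `B` -/
theorem Conn.sub {X : SimpleGraph V} {A B S : Set V} (hB : Conn X B) (hBA : B ⊆ A)
    (hS : ∀ u ∈ A, ∀ v ∈ A, X.Adj u v → u ∈ S → v ∈ S) {x : V} (hx : x ∈ B) (hxS : x ∈ S) :
    ∀ v ∈ B, v ∈ S :=
  hB.2 S ⟨x, hx, hxS⟩ (fun u hu v hv huv h => hS u (hBA hu) v (hBA hv) huv h)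

/-- unions of connected sets along a connected pattern -/
theorem conn_union {X : SimpleGraph V} {I : Type} (U : I → Set V) (J : Set I) (i0 : I)
    (hi0 : i0 ∈ J) (hU : ∀ i ∈ J, Conn X (U i))
    (hJ : ∀ T : Set I, ∀ i ∈ J, i ∈ T →
      (∀ a ∈ J, ∀ b ∈ J, Rl X (U a) (U b) → a ∈ T → b ∈ T) → ∀ j ∈ J, j ∈ T) :
    Conn X {v | ∃ i ∈ J, v ∈ U i} := by
  refine ⟨?_, ?_⟩
  · obtain ⟨u, hu⟩ := (hU i0 hi0).1
    exact ⟨u, i0, hi0, hu⟩
  · rintro S ⟨u, ⟨i, hi, hu⟩, huS⟩ hS v ⟨j, hj, hv⟩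
    have hsub : ∀ a ∈ J, U a ⊆ {v | ∃ i ∈ J, v ∈ U i} := fun a ha w hw => ⟨a, ha, hw⟩
    have key := hJ {a | ∀ w ∈ U a, w ∈ S} i hi ((hU i hi).sub (hsub i hi) hS hu huS) (by
      rintro a ha b hb ⟨x, hx, y, hy, hxy⟩ haT
      have hyS : y ∈ S := hS x (hsub a ha hx) y (hsub b hb hy) hxy (haT x hx)
      exact (hU b hb).sub (hsub b hb) hS hy hyS) j hj
    exact key v hv

/-- the component of `u` inside `E` -/
def comp (X : SimpleGraph V) (E : Set V) (u : V) : Set V :=
  {v | Relation.ReflTransGen (fun a b => a ∈ E ∧ b ∈ E ∧ X.Adj a b) u v}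

theorem self_mem_comp (X : SimpleGraph V) (E : Set V) (u : V) : u ∈ comp X E u :=
  Relation.ReflTransGen.refl

theorem comp_subset {X : SimpleGraph V} {E : Set V} {u : V} (hu : u ∈ E) : comp X E u ⊆ E := by
  intro v hv
  induction hv with
  | refl => exact hu
  | tail _ h _ => exact h.2.1

theorem comp_step {X : SimpleGraph V} {E : Set V} {u a b : V} (ha : a ∈ comp X E u)
    (haE : a ∈ E) (hb : b ∈ E) (hab : X.Adj a b) : b ∈ comp X E u :=
  Relation.ReflTransGen.tail ha ⟨haE, hb, hab⟩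

theorem comp_symm {X : SimpleGraph V} {E : Set V} {u v : V} (h : v ∈ comp X E u) :
    u ∈ comp X E v := by
  induction h with
  | refl => exact self_mem_comp X E u
  | tail _ h ih => exact Relation.ReflTransGen.head ⟨h.2.1, h.1, h.2.2.symm⟩ ih

theorem comp_trans {X : SimpleGraph V} {E : Set V} {u v w : V} (h : v ∈ comp X E u)
    (h' : w ∈ comp X E v) : w ∈ comp X E u :=
  Relation.ReflTransGen.trans h h'

theorem comp_eq {X : SimpleGraph V} {E : Set V} {u v : V} (h : v ∈ comp X E u) :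
    comp X E v = comp X E u :=
  Set.Subset.antisymm (fun _ hw => comp_trans h hw) (fun _ hw => comp_trans (comp_symm h) hw)

theorem conn_comp {X : SimpleGraph V} {E : Set V} (u : V) : Conn X (comp X E u) := by
  refine ⟨⟨u, self_mem_comp X E u⟩, ?_⟩
  rintro S ⟨a, ha, haS⟩ hS v hv
  have h1 : v ∈ comp X E a := comp_trans (comp_symm ha) hv
  clear hv
  induction h1 with
  | refl => exact haS
  | tail h1 h ih =>
    have hb := comp_trans ha h1
    exact hS _ hb _ (comp_step hb h.1 h.2.1 h.2.2) h.2.2 ih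

theorem comp_map {X : SimpleGraph V} {E : Set V} (f : V → V) (hf : ∀ a b, X.Adj a b → X.Adj (f a) (f b))
    (hE : ∀ a ∈ E, f a ∈ E) {u v : V} (h : v ∈ comp X E u) : f v ∈ comp X E (f u) := by
  induction h with
  | refl => exact self_mem_comp X E _
  | tail _ h ih => exact comp_step ih (hE _ h.1) (hE _ h.2.1) (hf _ _ h.2.2)

/-- `X` has a model of the complete graph on `t` vertices -/
def HasK (X : SimpleGraph V) (t : ℕ) : Prop :=
  ∃ f : Fin t → Set V, (∀ i, (X.induce (f i)).Connected) ∧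
    (∀ i j, i ≠ j → Disjoint (f i) (f j)) ∧ (∀ i j, i ≠ j → Rl X (f i) (f j))

/-- Mader's theorem for indexed families of branch sets -/
theorem mader_idx {X : SimpleGraph V} {I : Type} [Finite I] [Nonempty I] {k N : ℕ}
    (hN : 2 * (2 ^ k - 1) < N) (U : I → Set V) (hc : ∀ i, Conn X (U i))
    (hd : ∀ i j, i ≠ j → Disjoint (U i) (U j))
    (hn : ∀ i, ∃ t : Fin N → I, Function.Injective t ∧ ∀ j, t j ≠ i ∧ Rl X (U i) (U (t j))) :
    HasK X (k + 2) := by
  classical
  have := Fintype.ofFinite I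
  have hinj : Function.Injective U := by
    intro i j hij
    by_contra hne
    obtain ⟨x, hx⟩ := (hc i).1
    exact Set.disjoint_left.1 (hd i j hne) hx (hij ▸ hx)
  set P : Finset (Set V) := Finset.univ.image U with hP
  have hF : Fam X P := by
    constructor
    · intro A hA
      obtain ⟨i, -, rfl⟩ := Finset.mem_image.1 hA
      exact (hc i).connected
    · intro A hA B hB hAB
      obtain ⟨i, -, rfl⟩ := Finset.mem_image.1 hA
      obtain ⟨j, -, rfl⟩ := Finset.mem_image.1 hB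
      exact hd i j (fun h => hAB (by rw [h]))
  have h1 : P.card * N ≤ (prs X P).card := by
    apply prs_card_ge
    intro B hB
    obtain ⟨i, -, rfl⟩ := Finset.mem_image.1 hB
    obtain ⟨t, ht, ht2⟩ := hn i
    refine ⟨Finset.univ.image (fun j => U (t j)), ?_, ?_⟩
    · have hinj2 : Function.Injective (fun j => U (t j)) := hinj.comp ht
      rw [Finset.card_image_of_injective _ hinj2]
      simp
    · intro D hD
      obtain ⟨j, -, rfl⟩ := Finset.mem_image.1 hD
      exact ⟨Finset.mem_image.2 ⟨t j, Finset.mem_univ _, rfl⟩,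
        fun h => (ht2 j).1 (hinj h).symm, (ht2 j).2⟩
  have hpos : 0 < P.card := by
    obtain ⟨i⟩ := ‹Nonempty I›
    exact Finset.card_pos.2 ⟨U i, Finset.mem_image.2 ⟨i, Finset.mem_univ _, rfl⟩⟩
  have h2 : 2 * (2 ^ k - 1) * P.card < (prs X P).card := by
    refine lt_of_lt_of_le ?_ h1
    rw [mul_comm P.card N]
    exact Nat.mul_lt_mul_of_pos_right hN hpos
  obtain ⟨f, f1, f2, f3, -, -⟩ := mader X k P hF h2
  exact ⟨f, f1, f2, f3⟩

end Pool.Agent.H542Z.Babai
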