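import Pool.Agent.H542Z.BabaiDefs

set_option autoImplicit false

namespace Pool.Agent.H542Z.Babai

/-- every element is a power of each of its powers with exponent in `(0, N)` -/
def Rough (N : ℕ) (G : Type) [Group G] : Prop :=
  ∀ (a : G) (i : ℕ), 0 < i → i < N → ∃ m : ℕ, (a ^ i) ^ m = a

theorem rough_of_card {N : ℕ} {G : Type} [Group G] [Finite G]
    (h : ∀ p : ℕ, p.Prime → p < N → ¬ p ∣ Nat.card G) : Rough N G := by
  intro a i hi hiN
  apply exists_pow_eq_self_of_coprime
  apply Nat.Coprime.coprime_dvd_right (orderOf_dvd_natCard a)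
  apply Nat.coprime_of_dvd
  intro p hp hpi
  exact h p hp (lt_of_le_of_lt (Nat.le_of_dvd hi hpi) hiN)

theorem Rough.subgroup {N : ℕ} {G : Type} [Group G] (h : Rough N G) (H : Subgroup G) :
    Rough N H := by
  intro a i hi hiN
  obtain ⟨m, hm⟩ := h a.1 i hi hiN
  exact ⟨m, Subtype.ext (by simpa using hm)⟩

theorem Rough.surj {N : ℕ} {G H : Type} [Group G] [Group H] (h : Rough N G) (f : G →* H)
    (hf : Function.Surjective f) : Rough N H := by
  intro a i hi hiN
  obtain ⟨b, rfl⟩ := hf a
  obtain ⟨m, hm⟩ := h b i hi hiN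
  exact ⟨m, by rw [← map_pow, ← map_pow, hm]⟩

theorem Rough.mem {N : ℕ} {G : Type} [Group G] (h : Rough N G) (H : Subgroup G) {a : G} {i : ℕ}
    (hi : 0 < i) (hiN : i < N) (ha : a ^ i ∈ H) : a ∈ H := by
  obtain ⟨m, hm⟩ := h a i hi hiN
  rw [← hm]
  exact H.pow_mem ha m

/-- injectivity criterion: `j ↦ f j` on `Fin N` is injective if equal values put a power in `H` -/
theorem Rough.inj {N : ℕ} {G : Type} [Group G] (h : Rough N G) (H : Subgroup G) {a : G}
    (ha : a ∉ H) {Y : Type} (f : ℕ → Y) (hf : ∀ i d, f i = f (i + d) → a ^ d ∈ H) :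
    Function.Injective (fun j : Fin N => f j) := by
  have key : ∀ i j : Fin N, i < j → f i ≠ f j := by
    intro i j hij hfe
    have hij' : (i : ℕ) < j := hij
    obtain ⟨d, hd⟩ : ∃ d, (j : ℕ) = i + d := ⟨j - i, by omega⟩
    rw [hd] at hfe
    have := j.2
    exact ha (h.mem H (by omega) (by omega) (hf i d hfe))
  intro i j hij
  rcases lt_trichotomy i j with h1 | h1 | h1
  · exact absurd hij (key i j h1)
  · exact h1
  · exact absurd hij.symm (key j i h1)

theorem Rough.inj_smul {N : ℕ} {G : Type} [Group G] (h : Rough N G) {Y : Type} [MulAction G Y]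
    {a : G} {y : Y} (ha : a • y ≠ y) (g : G) :
    Function.Injective (fun j : Fin N => (g * a ^ (j : ℕ)) • y) := by
  apply h.inj (MulAction.stabilizer G y) (a := a) (by simpa using ha) (fun j => (g * a ^ j) • y)
  intro i d hid
  rw [MulAction.mem_stabilizer_iff]
  rw [pow_add, ← mul_assoc, mul_smul (g * a ^ i)] at hid
  exact (smul_left_cancel _ hid).symm

theorem inW_pi (n : ℕ) : ∀ (f : Fin n → Type) [∀ i, Group (f i)], (∀ i, InW (f i)) →
    InW (∀ i, f i) := by
  induction n with
  | zero =>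
    intro f _ _
    have : Subsingleton (∀ i, f i) := inferInstance
    exact InW.cyclic _
  | succ n ih =>
    intro f _ hf
    have h1 := InW.prod _ _ (hf 0) (ih (fun i => f i.succ) (fun i => hf i.succ))
    refine InW.iso _ _ ?_ h1
    exact { Fin.consEquiv f with
      map_mul' := by
        intro x y
        funext i
        refine Fin.cases ?_ (fun j => ?_) i <;> simp [Fin.consEquiv] }

theorem inW_comm (G : Type) [Group G] [Finite G] (h : ∀ a b : G, a * b = b * a) : InW G := by
  let _ : CommGroup G := { ‹Group G› with mul_comm := h }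
  obtain ⟨ι, _, n, hn, ⟨e⟩⟩ := CommGroup.equiv_prod_multiplicative_zmod_of_finite G
  let q := Fintype.equivFin ι
  have h1 := inW_pi (Fintype.card ι) (fun j => Multiplicative (ZMod (n (q.symm j)))) (by
    intro j
    have : NeZero (n (q.symm j)) := ⟨by have := hn (q.symm j); omega⟩
    exact InW.cyclic _)
  refine InW.iso _ _ (MulEquiv.trans ?_ e.symm) h1
  exact { Equiv.piCongrLeft (fun i => Multiplicative (ZMod (n i))) q.symm with
    map_mul' := by
      intro x y
      funext i
      obtain ⟨j, rfl⟩ := q.symm.surjective i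
      simp }

/-- the wreath product decomposition -/
theorem wreath_iso {G V : Type} [Group G] [Finite G] [MulAction G V] [FaithfulSMul G V]
    (K : Subgroup G) [K.Normal] (E : Set V) (β : V → G ⧸ K) (A : Subgroup G)
    (hE : ∀ (g : G) v, v ∈ E → g • v ∈ E) (hK : ∀ k ∈ K, ∀ v, v ∉ E → k • v = v)
    (hβ : ∀ (g : G), ∀ v ∈ E, β (g • v) = (g : G ⧸ K) * β v)
    (hA : ∀ a ∈ A, ∀ v, ¬ (v ∈ E ∧ β v = 1) → a • v = v)
    (hres : ∀ k ∈ K, ∃ a ∈ A, ∀ v ∈ E, β v = 1 → a • v = k • v) :
    Nonempty (G ≃* ((G ⧸ K → A) ⋊[mulAutArrow] (G ⧸ K))) := by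
  classical
  have huniq : ∀ a b : A, (∀ v ∈ E, β v = 1 → (a : G) • v = (b : G) • v) → a = b := by
    intro a b hab
    apply Subtype.ext
    apply eq_of_smul_eq_smul (α := V)
    intro v
    by_cases hv : v ∈ E ∧ β v = 1
    · exact hab v hv.1 hv.2
    · rw [hA a a.2 v hv, hA b b.2 v hv]
  have hAK : ∀ a ∈ A, a ∈ K := by
    intro a ha
    by_cases h1 : ∀ v : V, a • v = v
    · have : a = 1 := eq_of_smul_eq_smul (α := V) (fun v => by rw [h1 v, one_smul])
      rw [this]; exact K.one_mem
    · push Not at h1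
      obtain ⟨v, hv⟩ := h1
      have h2 : v ∈ E ∧ β v = 1 := by
        by_contra hc
        exact hv (hA a ha v hc)
      have h3 : a • v ∈ E ∧ β (a • v) = 1 := by
        by_contra hc
        exact hv (smul_left_cancel a (hA a ha _ hc))
      have h4 := hβ a v h2.1
      rw [h3.2, h2.2, mul_one] at h4
      exact (QuotientGroup.eq_one_iff a).1 h4.symm
  have hres' : ∀ k : G, ∃ a : A, k ∈ K → ∀ v ∈ E, β v = 1 → (a : G) • v = k • v := by
    intro k
    by_cases hk : k ∈ K
    · obtain ⟨a, ha, h⟩ := hres k hk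
      exact ⟨⟨a, ha⟩, fun _ => h⟩
    · exact ⟨1, fun h => absurd h hk⟩
  choose res hr using hres'
  have hmul : ∀ k ∈ K, ∀ l ∈ K, res (k * l) = res k * res l := by
    intro k hk l hl
    apply huniq
    intro v hv hb
    rw [hr _ (K.mul_mem hk hl) v hv hb, Subgroup.coe_mul, mul_smul, mul_smul, hr l hl v hv hb,
      hr k hk _ (hE l v hv)]
    rw [hβ l v hv, hb, mul_one]
    exact (QuotientGroup.eq_one_iff l).2 hl
  let s : G ⧸ K → G := Quotient.out
  have hs : ∀ b, ((s b : G) : G ⧸ K) = b := fun b => Quotient.out_eq b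
  have hmem : ∀ (g : G) (b : G ⧸ K), (s b)⁻¹ * g * s ((g : G ⧸ K)⁻¹ * b) ∈ K := by
    intro g b
    rw [← QuotientGroup.eq_one_iff]
    simp [hs]
  let Ψ : G →* ((G ⧸ K → A) ⋊[mulAutArrow] (G ⧸ K)) := MonoidHom.mk'
    (fun g => ⟨fun b => res ((s b)⁻¹ * g * s ((g : G ⧸ K)⁻¹ * b)), (g : G ⧸ K)⟩) (by
      intro g h
      ext b
      · simp only [SemidirectProduct.mul_left, Pi.mul_apply]
        have e1 : ∀ f : G ⧸ K → A, (mulAutArrow (g : G ⧸ K) : MulAut (G ⧸ K → A)) f b =
            f ((g : G ⧸ K)⁻¹ * b) := fun f => rfl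
        rw [e1, ← hmul _ (hmem g b) _ (hmem h _)]
        congr 2
        simp [mul_assoc]
      · simp)
  have hΨl : ∀ g b, (Ψ g).left b = res ((s b)⁻¹ * g * s ((g : G ⧸ K)⁻¹ * b)) := fun g b => rfl
  have hΨr : ∀ g, (Ψ g).right = (g : G ⧸ K) := fun g => rfl
  refine ⟨MulEquiv.ofBijective Ψ ⟨?_, ?_⟩⟩
  · rw [injective_iff_map_eq_one]
    intro g hg
    have h1 : (g : G ⧸ K) = 1 := by rw [← hΨr, hg]; rfl
    have hgK : g ∈ K := (QuotientGroup.eq_one_iff g).1 h1
    apply eq_of_smul_eq_smul (α := V)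
    intro v
    rw [one_smul]
    by_cases hv : v ∈ E
    · have h2 : (Ψ g).left (β v) = 1 := by rw [hg]; rfl
      rw [hΨl] at h2
      have h3 := hr _ (hmem g (β v)) ((s (β v))⁻¹ • v) (hE _ v hv) (by
        rw [hβ _ v hv]; simp [hs])
      rw [h2, h1] at h3
      simp only [inv_one, one_mul, OneMemClass.coe_one, one_smul, mul_smul, smul_inv_smul] at h3
      exact (smul_left_cancel _ h3).symm
    · exact hK g hgK v hv
  · have hl : ∀ f : G ⧸ K → A, SemidirectProduct.inl f ∈ Ψ.range := by
      intro f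
      have : f ∈ Ψ.range.comap SemidirectProduct.inl := by
        apply Submonoid.pi_mem_of_mulSingle_mem
        intro b
        rw [Subgroup.mem_comap]
        have haK : ((f b : A) : G) ∈ K := hAK _ (f b).2
        have hq : ((s b * (f b : G) * (s b)⁻¹ : G) : G ⧸ K) = 1 := by
          rw [QuotientGroup.eq_one_iff]
          exact ‹K.Normal›.conj_mem _ haK _
        refine ⟨s b * (f b : G) * (s b)⁻¹, ?_⟩
        ext c
        · rw [hΨl, SemidirectProduct.left_inl]
          congr 1
          apply huniq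
          intro v hv hb
          rw [hr _ (hmem _ c) v hv hb, hq, inv_one, one_mul]
          by_cases hcb : c = b
          · subst hcb
            simp [mul_assoc]
          · rw [Pi.mulSingle_eq_of_ne hcb]
            have h5 : ((f b : A) : G) • ((s b)⁻¹ * s c) • v = ((s b)⁻¹ * s c) • v := by
              apply hA _ (f b).2
              rintro ⟨-, h6⟩
              rw [hβ _ v hv, hb] at h6
              simp only [QuotientGroup.mk_mul, QuotientGroup.mk_inv, hs, mul_one] at h6
              exact hcb (inv_mul_eq_one.1 h6).symm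
            have h7 : (s c)⁻¹ * (s b * (f b : G) * (s b)⁻¹) * s c =
                ((s c)⁻¹ * s b) * ((f b : G) * ((s b)⁻¹ * s c)) := by group
            rw [h7, mul_smul, mul_smul ((f b : A) : G), h5, ← mul_smul]
            simp
        · rw [hΨr, hq]; rfl
      exact this
    intro x
    have h1 : (x * (Ψ (s x.right))⁻¹).right = 1 := by
      simp [hΨr, hs]
    have h2 : x * (Ψ (s x.right))⁻¹ ∈ Ψ.range := by
      rw [← SemidirectProduct.inl_left_mul_inr_right (x * (Ψ (s x.right))⁻¹), h1, map_one, mul_one]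
      exact hl _
    have h3 : x ∈ Ψ.range := by
      have := Ψ.range.mul_mem h2 ⟨s x.right, rfl⟩
      simpa using this
    exact h3

end Pool.Agent.H542Z.Babai
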