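import Pool.Agent.H542Z.BabaiConn
import Pool.Agent.H542Z.BabaiGroup

set_option autoImplicit false

namespace Pool.Agent.H542Z.Babai

open Pool.Agent.Helper805.CHS MulAction

variable {V : Type} {X : SimpleGraph V} {G : Type} [Group G] [MulAction G V]

/-- an equivariant contraction of the invariant set `D` -/
structure Good (X : SimpleGraph V) (G : Type) [Group G] [MulAction G V] (D : Set V) (π : V → V) :
    Prop where
  maps : ∀ v ∈ D, π v ∈ D
  equi : ∀ (g : G), ∀ v ∈ D, π (g • v) = g • π v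
  conn : ∀ v ∈ D, Conn X {w | w ∈ D ∧ π w = π v}

theorem good_id (D : Set V) : Good X G D id := by
  refine ⟨fun v hv => hv, fun _ _ _ => rfl, fun v hv => ?_⟩
  have : {w | w ∈ D ∧ id w = id v} = {v} := by
    ext w
    constructor
    · rintro ⟨-, h⟩; exact h
    · rintro rfl; exact ⟨hv, rfl⟩
  rw [this]
  exact conn_singleton X v

/-- adjacent fibres have comparable stabilisers -/
theorem Good.comparable [Finite V] {k N : ℕ} (hN : 2 * (2 ^ k - 1) < N) (hK : ¬ HasK X (k + 2))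
    (hG : Rough N G) (hadj : ∀ (g : G) u v, X.Adj u v → X.Adj (g • u) (g • v))
    {D : Set V} (hD : ∀ (g : G), ∀ v ∈ D, g • v ∈ D) {π : V → V} (h : Good X G D π)
    {u v : V} (hu : u ∈ D) (hv : v ∈ D) (huv : X.Adj u v) :
    stabilizer G (π u) ≤ stabilizer G (π v) ∨ stabilizer G (π v) ≤ stabilizer G (π u) := by
  by_contra hcon
  rw [not_or] at hcon
  obtain ⟨h1, h2⟩ := hcon
  obtain ⟨a, ha1, ha2⟩ := SetLike.not_le_iff_exists.1 h1
  obtain ⟨b, hb1, hb2⟩ := SetLike.not_le_iff_exists.1 h2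
  rw [mem_stabilizer_iff] at ha1 ha2 hb1 hb2
  apply hK
  let I := {x : V // ∃ g : G, x = g • π u ∨ x = g • π v}
  have : Nonempty I := ⟨⟨π u, 1, Or.inl (one_smul _ _).symm⟩⟩
  have key : ∀ (u v : V) (a : G), u ∈ D → v ∈ D → X.Adj u v → a • π u = π u → a • π v ≠ π v →
      ∀ g : G, Function.Injective (fun j : Fin N => (g * a ^ (j : ℕ)) • π v) ∧
        ∀ j : ℕ, (g * a ^ j) • π v ≠ g • π u ∧
          Rl X {w | w ∈ D ∧ π w = g • π u} {w | w ∈ D ∧ π w = (g * a ^ j) • π v} := by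
    intro u v a hu hv huv ha1 ha2 g
    have hpow : ∀ j : ℕ, a ^ j • π u = π u := fun j =>
      (stabilizer G (π u)).pow_mem (x := a) ha1 j
    refine ⟨hG.inj_smul ha2 g, fun j => ⟨?_, ?_⟩⟩
    · intro he
      rw [mul_smul] at he
      have h3 := smul_left_cancel _ he
      rw [← hpow j] at h3
      have h4 := smul_left_cancel _ h3
      rw [h4] at ha2
      exact ha2 ha1
    · refine ⟨(g * a ^ j) • u, ⟨hD _ _ hu, ?_⟩, (g * a ^ j) • v, ⟨hD _ _ hv, ?_⟩, hadj _ _ _ huv⟩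
      · rw [h.equi _ _ hu, mul_smul, hpow]
      · rw [h.equi _ _ hv]
  refine mader_idx (I := I) hN (fun x => {w | w ∈ D ∧ π w = x.1}) ?_ ?_ ?_
  · rintro ⟨x, g, rfl | rfl⟩
    · have := h.conn (g • u) (hD _ _ hu)
      rwa [h.equi _ _ hu] at this
    · have := h.conn (g • v) (hD _ _ hv)
      rwa [h.equi _ _ hv] at this
  · intro i j hij
    rw [Set.disjoint_left]
    rintro w ⟨-, h1⟩ ⟨-, h2⟩
    exact hij (Subtype.ext (h1.symm.trans h2))
  · rintro ⟨x, g, rfl | rfl⟩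
    · obtain ⟨k1, k2⟩ := key u v a hu hv huv ha1 ha2 g
      refine ⟨fun j => ⟨(g * a ^ (j : ℕ)) • π v, _, Or.inr rfl⟩, ?_, fun j => ⟨?_, (k2 j).2⟩⟩
      · intro i j hij
        exact k1 (congrArg Subtype.val hij)
      · intro he
        exact (k2 j).1 (congrArg Subtype.val he)
    · obtain ⟨k1, k2⟩ := key v u b hv hu huv.symm hb1 hb2 g
      refine ⟨fun j => ⟨(g * b ^ (j : ℕ)) • π u, _, Or.inl rfl⟩, ?_, fun j => ⟨?_, (k2 j).2⟩⟩
      · intro i j hij
        exact k1 (congrArg Subtype.val hij)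
      · intro he
        exact (k2 j).1 (congrArg Subtype.val he)

/-- one more contraction -/
theorem Good.shrink [Finite V] (hadj : ∀ (g : G) u v, X.Adj u v → X.Adj (g • u) (g • v))
    {D : Set V} (hD : ∀ (g : G), ∀ v ∈ D, g • v ∈ D) {π : V → V} (h : Good X G D π)
    {u v : V} (hu : u ∈ D) (hv : v ∈ D) (huv : X.Adj u v)
    (hle : stabilizer G (π u) ≤ stabilizer G (π v)) (hno : ∀ g : G, g • π u ≠ π v) :
    ∃ π' : V → V, Good X G D π' ∧ (π' '' D).ncard < (π '' D).ncard := by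
  classical
  have hρ : ∃ ρ : V → V, (∀ g : G, ρ (g • π u) = g • π v) ∧
      ∀ x, (∀ g : G, g • π u ≠ x) → ρ x = x := by
    refine ⟨fun x => if hx : ∃ g : G, g • π u = x then hx.choose • π v else x, ?_, ?_⟩
    · intro g
      have hx : ∃ g' : G, g' • π u = g • π u := ⟨g, rfl⟩
      simp only [dif_pos hx]
      have h1 : g⁻¹ * hx.choose ∈ stabilizer G (π u) := by
        rw [mem_stabilizer_iff, mul_smul, hx.choose_spec, inv_smul_smul]
      have h2 := hle h1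
      rw [mem_stabilizer_iff, mul_smul, inv_smul_eq_iff] at h2
      exact h2
    · intro x hx
      have : ¬ ∃ g : G, g • π u = x := fun ⟨g, hg⟩ => hx g hg
      simp only [dif_neg this]
  obtain ⟨ρ, hρ1, hρ2⟩ := hρ
  have hno' : ∀ g g' : G, g' • π u ≠ g • π v := by
    intro g g' he
    apply hno (g⁻¹ * g')
    rw [mul_smul, he, inv_smul_smul]
  have hcase : ∀ x : V, (∃ g : G, x = g • π u ∧ ρ x = g • π v) ∨
      ((∀ g : G, g • π u ≠ x) ∧ ρ x = x) := by
    intro x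
    by_cases hx : ∃ g : G, g • π u = x
    · obtain ⟨g, rfl⟩ := hx
      exact Or.inl ⟨g, rfl, hρ1 g⟩
    · have : ∀ g : G, g • π u ≠ x := fun g hg => hx ⟨g, hg⟩
      exact Or.inr ⟨this, hρ2 x this⟩
  have hrep : ∀ w ∈ D, ∃ w' ∈ D, π w' = ρ (π w) ∧ ρ (π w') = π w' ∧ π w' ≠ π u := by
    intro w hw
    rcases hcase (π w) with ⟨g, h1, h2⟩ | ⟨h1, h2⟩
    · refine ⟨g • v, hD _ _ hv, by rw [h.equi _ _ hv, h2], ?_, ?_⟩
      · rw [h.equi _ _ hv]
        exact hρ2 _ (fun g' => hno' g g')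
      · rw [h.equi _ _ hv]
        have := hno' g 1
        rw [one_smul] at this
        exact this.symm
    · refine ⟨w, hw, h2.symm, h2, ?_⟩
      have := h1 1
      rw [one_smul] at this
      exact this.symm
  refine ⟨fun w => ρ (π w), ⟨?_, ?_, ?_⟩, ?_⟩
  · intro w hw
    obtain ⟨w', hw', h1, -⟩ := hrep w hw
    rw [← h1]
    exact h.maps _ hw'
  · intro g w hw
    rw [h.equi _ _ hw]
    rcases hcase (π w) with ⟨g', h1, h2⟩ | ⟨h1, h2⟩
    · rw [h2, h1, ← mul_smul, hρ1, mul_smul]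
    · rw [h2]
      apply hρ2
      intro g' he
      apply h1 (g⁻¹ * g')
      rw [mul_smul, he, inv_smul_smul]
  · intro w hw
    obtain ⟨w', hw', e1, e2, -⟩ := hrep w hw
    have hA0 : {x | x ∈ D ∧ π x = π w'} ⊆ {x | x ∈ D ∧ ρ (π x) = ρ (π w)} := by
      rintro x ⟨hx, hx2⟩
      exact ⟨hx, by rw [hx2, e2, e1]⟩
    refine ⟨⟨w, hw, rfl⟩, ?_⟩
    intro S hS0 hS
    have hfib : ∀ x ∈ D, ρ (π x) = ρ (π w) →
        {y | y ∈ D ∧ π y = π x} ⊆ {x | x ∈ D ∧ ρ (π x) = ρ (π w)} := by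
      rintro x hx hx2 y ⟨hy, hy2⟩
      exact ⟨hy, by rw [hy2, hx2]⟩
    have hiff : ∀ x ∈ D, ρ (π x) = ρ (π w) → (x ∈ S ↔ w' ∈ S) := by
      intro x hx hx2
      rcases hcase (π x) with ⟨g, h1, h2⟩ | ⟨h1, h2⟩
      · have a1 : g • u ∈ {y | y ∈ D ∧ π y = π x} := ⟨hD _ _ hu, by rw [h.equi _ _ hu, h1]⟩
        have a2 : g • v ∈ {y | y ∈ D ∧ π y = π w'} :=
          ⟨hD _ _ hv, by rw [h.equi _ _ hv, ← h2, hx2, e1]⟩
        constructor
        · intro hxS
          have b1 := (h.conn x hx).sub (hfib x hx hx2) hS ⟨hx, rfl⟩ hxS _ a1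
          have b2 := hS _ (hfib x hx hx2 a1) _ (hA0 a2) (hadj g _ _ huv) b1
          exact (h.conn w' hw').sub hA0 hS a2 b2 _ ⟨hw', rfl⟩
        · intro hwS
          have b1 := (h.conn w' hw').sub hA0 hS ⟨hw', rfl⟩ hwS _ a2
          have b2 := hS _ (hA0 a2) _ (hfib x hx hx2 a1) (hadj g _ _ huv).symm b1
          exact (h.conn x hx).sub (hfib x hx hx2) hS a1 b2 _ ⟨hx, rfl⟩
      · have a1 : x ∈ {y | y ∈ D ∧ π y = π w'} := ⟨hx, by rw [e1, ← hx2, h2]⟩
        constructor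
        · intro hxS
          exact (h.conn w' hw').sub hA0 hS a1 hxS _ ⟨hw', rfl⟩
        · intro hwS
          exact (h.conn w' hw').sub hA0 hS ⟨hw', rfl⟩ hwS _ a1
    obtain ⟨x0, ⟨hx0, hx1⟩, hx0S⟩ := hS0
    rintro x ⟨hx, hx2⟩
    exact (hiff x hx hx2).2 ((hiff x0 hx0 hx1).1 hx0S)
  · apply Set.ncard_lt_ncard _ (Set.toFinite _)
    constructor
    · rintro _ ⟨w, hw, rfl⟩
      obtain ⟨w', hw', e1, -⟩ := hrep w hw
      exact ⟨w', hw', e1⟩
    · intro hsub
      obtain ⟨w, hw, he⟩ := hsub ⟨u, hu, rfl⟩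
      obtain ⟨w', hw', e1, -, e3⟩ := hrep w hw
      exact e3 (e1.trans he)

theorem card_stab_smul [Finite G] (g : G) (x : V) :
    Nat.card (stabilizer G (g • x)) = Nat.card (stabilizer G x) := by
  rw [stabilizer_smul_eq_stabilizer_map_conj]
  exact Subgroup.card_map_of_injective (MulAut.conj g).injective

/-- the final equivariant contraction: one orbit of fibres, with a normal stabiliser -/
theorem exists_contraction [Finite V] [Finite G] {k N : ℕ} (hN : 2 * (2 ^ k - 1) < N)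
    (hK : ¬ HasK X (k + 2)) (hG : Rough N G)
    (hadj : ∀ (g : G) u v, X.Adj u v → X.Adj (g • u) (g • v))
    {D : Set V} (hD : ∀ (g : G), ∀ v ∈ D, g • v ∈ D) (hc : Conn X D) :
    ∃ (π : V → V) (r : V), r ∈ D ∧ (∀ (g : G), ∀ v ∈ D, π (g • v) = g • π v) ∧
      (∀ v ∈ D, ∃ g : G, π v = g • r) ∧ (∀ g : G, Conn X {w | w ∈ D ∧ π w = g • r}) ∧
      ∀ g : G, stabilizer G (g • r) = stabilizer G r := by
  have hex : ∃ n, ∃ π : V → V, Good X G D π ∧ (π '' D).ncard = n := ⟨_, id, good_id D, rfl⟩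
  classical
  obtain ⟨π, h, hmin⟩ := Nat.find_spec hex
  have horb : ∀ u ∈ D, ∀ v ∈ D, X.Adj u v → stabilizer G (π u) ≤ stabilizer G (π v) →
      ∃ g : G, g • π u = π v := by
    intro u hu v hv huv hle
    by_contra hcon
    obtain ⟨π', h', hlt⟩ := h.shrink hadj hD hu hv huv hle (fun g hg => hcon ⟨g, hg⟩)
    have := Nat.find_min' hex ⟨π', h', rfl⟩
    omega
  have hstep : ∀ u ∈ D, ∀ v ∈ D, X.Adj u v → stabilizer G (π u) ≤ stabilizer G (π v) →
      stabilizer G (π u) = stabilizer G (π v) := by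
    intro u hu v hv huv hle
    obtain ⟨g, hg⟩ := horb u hu v hv huv hle
    apply Subgroup.eq_of_le_of_card_ge hle
    rw [← hg, card_stab_smul]
  obtain ⟨v0, hv0⟩ := hc.1
  have hall := hc.2 {w | (∃ g : G, π w = g • π v0) ∧ stabilizer G (π w) = stabilizer G (π v0)}
    ⟨v0, hv0, ⟨1, (one_smul _ _).symm⟩, rfl⟩ (by
      rintro u hu v hv huv ⟨⟨g, hg⟩, hs⟩
      have he : stabilizer G (π u) = stabilizer G (π v) := by
        rcases h.comparable hN hK hG hadj hD hu hv huv with hle | hle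
        · exact hstep u hu v hv huv hle
        · exact (hstep v hv u hu huv.symm hle).symm
      obtain ⟨g', hg'⟩ := horb u hu v hv huv he.le
      exact ⟨⟨g' * g, by rw [mul_smul, ← hg, hg']⟩, by rw [← he, hs]⟩)
  refine ⟨π, π v0, h.maps _ hv0, h.equi, fun v hv => (hall v hv).1, fun g => ?_, fun g => ?_⟩
  · have := h.conn (g • v0) (hD _ _ hv0)
    rwa [h.equi _ _ hv0] at this
  · have := (hall (g • v0) (hD _ _ hv0)).2
    rwa [h.equi _ _ hv0] at this

end Pool.Agent.H542Z.Babai
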