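import Mathlib

set_option autoImplicit false

namespace Pool.Agent.H542Z.Babai

/-- `Y` is a subcontraction (minor) of `X`: to each vertex `w` of `Y` is attached a branch set
`f w` of vertices of `X` inducing a connected (hence nonempty) subgraph, branch sets of different
vertices are disjoint, and the branch sets of adjacent vertices of `Y` are joined by an edge of `X`.
So `Y` arises from a subgraph of `X` by contracting the edges inside the branch sets. -/
def IsSubcontraction {W V : Type} (Y : SimpleGraph W) (X : SimpleGraph V) : Prop :=
  ∃ f : W → Set V, (∀ w, (X.induce (f w)).Connected) ∧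
    (∀ w w', w ≠ w' → Disjoint (f w) (f w')) ∧
    ∀ w w', Y.Adj w w' → ∃ a ∈ f w, ∃ b ∈ f w', X.Adj a b

/-- The class `𝒲`: the smallest isomorphism-closed class of groups that contains every finite
cyclic group and is closed under direct products `A × B` and under permutational wreath products
`(Ω → A) ⋊ B`, where `B` acts on a finite set `Ω` and permutes the coordinates of `Ω → A`
(`mulAutArrow b f = fun x => f (b⁻¹ • x)`). -/
inductive InW : (G : Type) → [Group G] → Prop
  | cyclic (G : Type) [Group G] [Finite G] [IsCyclic G] : InW G
  | prod (A B : Type) [Group A] [Group B] : InW A → InW B → InW (A × B)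
  | wreath (A B Ω : Type) [Group A] [Group B] [Finite Ω] [MulAction B Ω] :
      InW A → InW B → InW ((Ω → A) ⋊[mulAutArrow] B)
  | iso (A B : Type) [Group A] [Group B] : (A ≃* B) → InW A → InW B

end Pool.Agent.H542Z.Babai
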