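import Pool.Agent.H542Z.BabaiAut

set_option autoImplicit false

namespace Pool.Agent.H542Z.Babai

open Pool.Agent.Helper805.CHS MulAction

variable {V : Type} {X : SimpleGraph V}

/-- a component on which a group acts without fixed vertex has few fixed neighbours -/
theorem fix_boundary [Finite V] {G : Type} [Group G] [Finite G] [MulAction G V] {k N : ℕ}
    (hN : 2 * (2 ^ k - 1) < N) (hK : ¬ HasK X (k + 2)) (hG : Rough N G)
    (hadj : ∀ (g : G) u v, X.Adj u v → X.Adj (g • u) (g • v)) (K : Subgroup G)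
    {C : Set V} (hc : Conn X C) (hKC : ∀ a ∈ K, ∀ v ∈ C, a • v ∈ C)
    (hmove : ∀ v ∈ C, ∃ a ∈ K, a • v ≠ v) {g : G} (hg : ∀ v ∈ C, g • v ∈ C) {x f : V}
    (hx : x ∈ C) (hxf : X.Adj x f) (hf : ∀ i : ℕ, ∀ a ∈ K, a • g ^ i • f = g ^ i • f) :
    g • f = f := by
  by_contra hgf
  apply hK
  obtain ⟨π, r, hr, hπ, h1, h2, -⟩ := exists_contraction (G := K) hN hK (hG.subgroup K)
    (fun a u v h => hadj a.1 u v h) (D := C) (fun a v hv => hKC a.1 a.2 v hv) hc
  obtain ⟨h, hhK, hh⟩ := hmove r hr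
  have hgi : ∀ i : ℕ, g ^ i • x ∈ C := by
    intro i
    induction i with
    | zero => simpa using hx
    | succ i ih => rw [pow_succ', mul_smul]; exact hg _ ih
  have hfC : ∀ i : ℕ, g ^ i • f ∉ C := by
    intro i hi
    obtain ⟨a, ha, ha2⟩ := hmove _ hi
    exact ha2 (hf i a ha)
  have i1 : Function.Injective (fun j : Fin N => g ^ (j : ℕ) • f) := by
    simpa using hG.inj_smul hgf 1
  have i2 : Function.Injective (fun j : Fin N => ((⟨h, hhK⟩ : K) ^ (j : ℕ)) • r) := by
    simpa using (hG.subgroup K).inj_smul (a := ⟨h, hhK⟩) (y := r) hh 1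
  have hN0 : 0 < N := by omega
  have : Nonempty (Fin N) := ⟨⟨0, hN0⟩⟩
  have hrl : ∀ (i : ℕ) (a : K), Rl X {g ^ i • f} {w | w ∈ C ∧ π w = a • r} := by
    intro i a
    obtain ⟨b, hb⟩ := h1 _ (hgi i)
    refine ⟨_, rfl, (a * b⁻¹) • g ^ i • x, ⟨hKC _ (a * b⁻¹).2 _ (hgi i), ?_⟩, ?_⟩
    · rw [hπ _ _ (hgi i), hb, mul_smul, inv_smul_smul]
    · have := hadj (a * b⁻¹ : K).1 _ _ (hadj (g ^ i) _ _ hxf.symm)
      rw [hf i _ (a * b⁻¹).2] at this
      exact this
  refine mader_idx (I := Fin N ⊕ Fin N) hN (Sum.elim (fun i => {g ^ (i : ℕ) • f})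
    (fun j => {w | w ∈ C ∧ π w = ((⟨h, hhK⟩ : K) ^ (j : ℕ)) • r})) ?_ ?_ ?_
  · rintro (i | j)
    · exact conn_singleton X _
    · exact h2 _
  · rintro (i | i) (j | j) hij
    · rw [Set.disjoint_left]
      rintro v rfl hv
      exact hij (congrArg Sum.inl (i1 hv))
    · rw [Set.disjoint_left]
      rintro v rfl hv
      exact hfC _ hv.1
    · rw [Set.disjoint_left]
      rintro v hv rfl
      exact hfC _ hv.1
    · rw [Set.disjoint_left]
      rintro v hv hv'
      exact hij (congrArg Sum.inr (i2 (hv.2.symm.trans hv'.2)))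
  · rintro (i | j)
    · exact ⟨Sum.inr, Sum.inr_injective, fun j => ⟨Sum.inr_ne_inl, hrl _ _⟩⟩
    · exact ⟨Sum.inl, Sum.inl_injective, fun i => ⟨Sum.inl_ne_inr, (hrl _ _).symm⟩⟩

/-- labelling the components by the cosets of `K` -/
theorem exists_label {G : Type} [Group G] [MulAction G V]
    (hadj : ∀ (g : G) u v, X.Adj u v → X.Adj (g • u) (g • v)) (K : Subgroup G) [K.Normal]
    {E : Set V} (hE : ∀ (g : G) v, v ∈ E → g • v ∈ E)
    (hfree : ∀ (g : G), ∀ u ∈ E, g • u ∈ comp X E u → g ∈ K) :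
    ∃ β : V → G ⧸ K, (∀ (g : G), ∀ v ∈ E, β (g • v) = (g : G ⧸ K) * β v) ∧
      ∀ v ∈ E, ∀ w ∈ comp X E v, β w = β v := by
  have hmap : ∀ (g : G) u v, v ∈ comp X E u → g • v ∈ comp X E (g • u) := fun g u v h =>
    comp_map (fun x => g • x) (hadj g) (hE g) h
  let s : Setoid V :=
    { r := fun u v => ∃ g : G, g • u ∈ comp X E v
      iseqv := by
        refine ⟨fun u => ⟨1, by rw [one_smul]; exact self_mem_comp X E u⟩, ?_, ?_⟩
        · rintro u v ⟨g, hg⟩
          refine ⟨g⁻¹, ?_⟩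
          have := hmap g⁻¹ _ _ (comp_symm hg)
          rwa [inv_smul_smul] at this
        · rintro u v w ⟨g, hg⟩ ⟨h, hh⟩
          exact ⟨h * g, by rw [mul_smul]; exact comp_trans hh (hmap h _ _ hg)⟩ }
  let rep : V → V := fun v => (Quotient.mk s v).out
  have hrep : ∀ v, ∃ g : G, g • rep v ∈ comp X E v := fun v => Quotient.mk_out (s := s) v
  have hrep2 : ∀ u v, (∃ g : G, g • u ∈ comp X E v) → rep u = rep v := by
    intro u v h
    have : Quotient.mk s u = Quotient.mk s v := Quotient.sound h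
    simp only [rep, this]
  choose γ hγ using hrep
  have huniq : ∀ v ∈ E, ∀ g : G, g • rep v ∈ comp X E v → ((γ v : G) : G ⧸ K) = g := by
    intro v hv g hg
    rw [QuotientGroup.eq]
    have h1 : rep v ∈ E := by
      have := hE (γ v)⁻¹ _ (comp_subset hv (hγ v))
      rwa [inv_smul_smul] at this
    apply hfree _ _ h1
    have := hmap (γ v)⁻¹ _ _ (comp_trans (comp_symm (hγ v)) hg)
    rwa [inv_smul_smul, ← mul_smul] at this
  refine ⟨fun v => (γ v : G ⧸ K), ?_, ?_⟩
  · intro g v hv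
    rw [← QuotientGroup.mk_mul]
    apply huniq _ (hE g v hv)
    rw [← hrep2 v (g • v) ⟨g, self_mem_comp X E _⟩, mul_smul]
    exact hmap g _ _ (hγ v)
  · intro v hv w hw
    apply huniq _ (comp_subset hv hw)
    rw [hrep2 w v ⟨1, by rw [one_smul]; exact hw⟩, comp_eq hw]
    exact hγ v

instance finAut [Finite V] : Finite (X ≃g X) :=
  Finite.of_injective (fun f : X ≃g X => (f : V → V)) DFunLike.coe_injective

/-- the connected case -/
theorem conn_case [Finite V] {k N : ℕ} (hN : 2 * (2 ^ k - 1) < N) (hN2 : 2 < N)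
    (hK : ¬ HasK X (k + 2)) (hR : Rough N (X ≃g X)) {D : Set V} (hc : Conn X D)
    (ih : ∀ D' : Set V, D' ⊂ D → InW (Supp X D')) : InW (Supp X D) := by
  have hG : Rough N (Supp X D) := hR.subgroup _
  have hadj : ∀ (g : Supp X D) u v, X.Adj u v → X.Adj (g • u) (g • v) :=
    fun g u v h => adj_smul g.1 h
  have hD : ∀ (g : Supp X D), ∀ v ∈ D, g • v ∈ D := fun g v hv => Supp.maps g.2 hv
  obtain ⟨π, r, hr, hπ, h1, h2, h3⟩ := exists_contraction hN hK hG hadj hD hc
  obtain ⟨K, hKdef⟩ : ∃ K, K = stabilizer (Supp X D) r := ⟨_, rfl⟩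
  have hnorm : K.Normal := by
    constructor
    intro a ha g
    rw [hKdef] at ha ⊢
    rw [← h3 g⁻¹, mem_stabilizer_iff] at ha
    rw [mem_stabilizer_iff, mul_smul, mul_smul, ha, smul_inv_smul]
  have hle : ∀ v ∈ D, ∀ g : Supp X D, g • v = v → g ∈ K := by
    intro v hv g hg
    obtain ⟨h, hh⟩ := h1 v hv
    rw [hKdef, ← h3 h, mem_stabilizer_iff, ← hh, ← hπ g v hv, hg]
  let E : Set V := {v | ∃ a ∈ K, a • v ≠ v}
  have hED : E ⊆ D := by
    rintro v ⟨a, -, ha⟩
    by_contra hv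
    exact ha (a.2 v hv)
  have hE : ∀ (g : Supp X D) v, v ∈ E → g • v ∈ E := by
    rintro g v ⟨a, ha, hv⟩
    refine ⟨g * a * g⁻¹, hnorm.conj_mem a ha g, ?_⟩
    rw [mul_smul, mul_smul, inv_smul_smul]
    exact fun h => hv (smul_left_cancel g h)
  have hKfix : ∀ a ∈ K, ∀ v, v ∉ E → a • v = v := by
    intro a ha v hv
    by_contra h
    exact hv ⟨a, ha, h⟩
  have hrE : r ∉ E := by
    rintro ⟨a, ha, h⟩
    rw [hKdef] at ha
    exact h ha
  have hKcomp : ∀ a ∈ K, ∀ u ∈ E, a • u ∈ comp X E u := fun a ha u hu =>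
    swap_comp hN2 hR (g := a.1) (hKfix a ha) hu
  have hfree : ∀ (g : Supp X D), ∀ u ∈ E, g • u ∈ comp X E u → g ∈ K := by
    intro g u hu hgu
    have hCE : comp X E u ⊆ E := comp_subset hu
    have hex : ∃ x ∈ comp X E u, ∃ f ∈ D, f ∉ E ∧ X.Adj x f := by
      by_contra hcon
      push Not at hcon
      apply hrE
      apply hCE
      refine hc.2 (comp X E u) ⟨u, hED hu, self_mem_comp X E u⟩ ?_ r hr
      intro a _ b hb hab ha
      by_cases hbE : b ∈ E
      · exact comp_step ha (hCE ha) hbE hab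
      · exact absurd hab (hcon a ha b hb hbE)
    obtain ⟨x, hx, f, hfD, hfE, hxf⟩ := hex
    apply hle f hfD
    refine fix_boundary hN hK hG hadj K (conn_comp u) ?_ (fun v hv => hCE hv) ?_ hx hxf ?_
    · intro a ha v hv
      exact comp_trans hv (hKcomp a ha v (hCE hv))
    · intro v hv
      exact comp_trans hgu (comp_map (fun x => g • x) (hadj g) (hE g) hv)
    · intro i a ha
      apply hKfix a ha
      intro h
      have := hE (g ^ i)⁻¹ _ h
      rw [inv_smul_smul] at this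
      exact hfE this
  obtain ⟨β, hβ, hβc⟩ := exists_label hadj K hE hfree
  let D' : Set V := {v | v ∈ E ∧ β v = 1}
  have hD'D : D' ⊂ D := ⟨fun v hv => hED hv.1, fun h => hrE (h hr).1⟩
  have hsub : Supp X D' ≤ Supp X D := fun a ha v hv => ha v (fun h => hv (hD'D.1 h))
  obtain ⟨e⟩ := wreath_iso K E β ((Supp X D').subgroupOf (Supp X D)) hE hKfix hβ
    (fun a ha v hv => ha v hv) (by
      intro a ha
      have ha1 : (a : Supp X D ⧸ K) = 1 := (QuotientGroup.eq_one_iff a).2 ha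
      obtain ⟨b, hb1, hb2⟩ := exists_restrict a.1 D' (by
        intro v
        constructor
        · rintro ⟨hv, hb⟩
          exact ⟨hE a v hv, (hβ a v hv).trans (by rw [ha1, hb, one_mul])⟩
        · rintro ⟨hv, hb⟩
          have hvE : v ∈ E := by
            have := hE a⁻¹ (a • v) hv
            rwa [inv_smul_smul] at this
          refine ⟨hvE, ?_⟩
          have := hβ a v hvE
          rw [ha1, one_mul] at this
          exact this.symm.trans hb) (by
        rintro x ⟨hx, hb⟩ v hv hxv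
        apply hKfix a ha
        intro hvE
        exact hv ⟨hvE, (hβc x hx v (comp_step (self_mem_comp X E x) hx hvE hxv)).trans hb⟩)
      exact ⟨⟨b, hsub hb2⟩, hb2, fun v hv hb => hb1 v ⟨hv, hb⟩⟩)
  refine InW.iso _ _ e.symm (InW.wreath _ _ _ ?_ ?_)
  · exact InW.iso _ _ (Subgroup.subgroupOfEquivOfLe hsub).symm (ih D' hD'D)
  · exact inW_comm _ (quot_comm hN hK hG hadj hD hc hπ h1 h2 K hKdef)

theorem inW_supp [Finite V] {k N : ℕ} (hN : 2 * (2 ^ k - 1) < N) (hN2 : 2 < N)
    (hK : ¬ HasK X (k + 2)) (hR : Rough N (X ≃g X)) (D : Set V) : InW (Supp X D) := by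
  induction D using WellFoundedLT.induction with
  | ind D ih =>
    by_cases hc : Conn X D
    · exact conn_case hN hN2 hK hR hc (fun D' h => ih D' h)
    rcases D.eq_empty_or_nonempty with rfl | ⟨u, hu⟩
    · have : Subsingleton (Supp X ∅) := by
        constructor
        intro a b
        apply Subtype.ext
        apply eq_of_smul_eq_smul (α := V)
        intro v
        rw [a.2 v (fun h => h), b.2 v (fun h => h)]
      exact InW.cyclic _
    · obtain ⟨e⟩ := prod_iso hN2 hR hu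
      refine InW.iso _ _ e (InW.prod _ _ (ih _ ?_) (ih _ ?_))
      · refine lt_of_le_of_ne (comp_subset hu) ?_
        intro h
        apply hc
        rw [← h]
        exact conn_comp u
      · refine ⟨Set.sdiff_subset, fun h => (h hu).2 (self_mem_comp X D u)⟩

theorem inW_aut [Finite V] {k : ℕ} (hK : ¬ HasK X (k + 2))
    (hR : Rough (2 * 2 ^ k + 1) (X ≃g X)) : InW (X ≃g X) := by
  have h1 : 1 ≤ 2 ^ k := Nat.one_le_two_pow
  have h := inW_supp (N := 2 * 2 ^ k + 1) (by omega) (by omega) hK hR Set.univ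
  have e : Supp X Set.univ = ⊤ := by
    rw [eq_top_iff]
    intro a _ v hv
    exact absurd (Set.mem_univ v) hv
  rw [e] at h
  exact InW.iso _ _ Subgroup.topEquiv h

theorem subcontraction_of_hasK {W : Type} [Finite W] (Y : SimpleGraph W)
    (h : HasK X (Nat.card W + 2)) : IsSubcontraction Y X := by
  obtain ⟨f, f1, f2, f3⟩ := h
  let e : W → Fin (Nat.card W + 2) := fun w => Fin.castAdd 2 (Finite.equivFin W w)
  have he : Function.Injective e :=
    (Fin.castAdd_injective _ _).comp (Finite.equivFin W).injective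
  refine ⟨fun w => f (e w), fun w => f1 _, fun w w' h => f2 _ _ (fun h' => h (he h')), ?_⟩
  intro w w' h
  exact f3 _ _ (fun h' => h.ne (he h'))

theorem main (C : (V : Type) → [Finite V] → SimpleGraph V → Prop)
    (hC : ∀ (V W : Type) [Finite V] [Finite W] (X : SimpleGraph V) (Y : SimpleGraph W),
      IsSubcontraction Y X → C V X → C W Y)
    (hne : ∃ (W : Type) (_ : Finite W) (Y : SimpleGraph W), ¬ C W Y) :
    ∃ N : ℕ, ∀ (G : Type) [Group G] [Finite G],
      (∃ (V : Type) (_ : Finite V) (X : SimpleGraph V), C V X ∧ Nonempty (G ≃* (X ≃g X))) →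
      (∀ p : ℕ, p.Prime → p < N → ¬ p ∣ Nat.card G) → InW G := by
  obtain ⟨W, _, Y, hY⟩ := hne
  refine ⟨2 * 2 ^ Nat.card W + 1, ?_⟩
  rintro G _ _ ⟨V, _, X, hX, ⟨e⟩⟩ hp
  refine InW.iso _ _ e.symm (inW_aut (k := Nat.card W) ?_ ?_)
  · exact fun h => hY (hC V W X Y (subcontraction_of_hasK Y h) hX)
  · exact (rough_of_card hp).surj e.toMonoidHom e.surjective

end Pool.Agent.H542Z.Babai
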