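import Mathlib

/-!
Position-faithful one-tape Turing machines, linear-time computable functions,
Cayley position-faithful (one-tape) linear-time computable groups, and the
restricted wreath product of `ℤ/2` with the free group of rank two.
-/

set_option autoImplicit false

namespace Pool.Agent.H542Z.PF

/-- A position-faithful one-tape Turing machine with input alphabet `A`, tape alphabet `Γ` and
state set `Q`.  `δ q a = (q', b, m)`: in state `q` reading `a`, go to state `q'`, write `b`, and
move right if `m = true`, left if `m = false`.  The marker is never overwritten, never written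
elsewhere, and the head moves right from it. -/
structure PFTM (A Γ Q : Type) where
  marker : Γ
  blank : Γ
  inp : A → Γ
  inp_inj : Function.Injective inp
  marker_ne_blank : marker ≠ blank
  inp_ne_marker : ∀ a, inp a ≠ marker
  inp_ne_blank : ∀ a, inp a ≠ blank
  start : Q
  accept : Set Q
  δ : Q → Γ → Q × Γ × Bool
  marker_keep : ∀ q, (δ q marker).2 = (marker, true)
  marker_only : ∀ q a, a ≠ marker → (δ q a).2.1 ≠ marker

/-- A configuration: state, head position, and content of the semi-infinite tape. -/
structure Config (Γ Q : Type) where
  state : Q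
  pos : ℕ
  tape : ℕ → Γ

/-- One step of the machine. -/
def PFTM.step {A Γ Q : Type} (M : PFTM A Γ Q) (c : Config Γ Q) : Config Γ Q where
  state := (M.δ c.state (c.tape c.pos)).1
  pos := if (M.δ c.state (c.tape c.pos)).2.2 then c.pos + 1 else c.pos - 1
  tape := Function.update c.tape c.pos (M.δ c.state (c.tape c.pos)).2.1

/-- The tape `marker, x, blank, blank, ...`. -/
def PFTM.tapeOf {A Γ Q : Type} (M : PFTM A Γ Q) (x : List A) (i : ℕ) : Γ :=
  (M.marker :: x.map M.inp).getD i M.blank

/-- The configuration after `t` steps on input `x` (start state, head on the marker). -/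
def PFTM.run {A Γ Q : Type} (M : PFTM A Γ Q) (x : List A) (t : ℕ) : Config Γ Q :=
  M.step^[t] ⟨M.start, 0, M.tapeOf x⟩

/-- On input `x` the machine halts after exactly `t` steps (first time an accepting state is
reached) with the tape beginning `marker, y, blank`. -/
def PFTM.HaltsWith {A Γ Q : Type} (M : PFTM A Γ Q) (x : List A) (t : ℕ) (y : List A) : Prop :=
  (∀ s < t, (M.run x s).state ∉ M.accept) ∧ (M.run x t).state ∈ M.accept ∧
    ∀ i ≤ y.length + 1, (M.run x t).tape i = M.tapeOf y i

/-- `f` is computed in linear time by a position-faithful one-tape Turing machine: within `C n`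
steps on inputs of length `n ≥ 1` (within `C` steps on the empty input). -/
def LinTime {A : Type} (f : List A → List A) : Prop :=
  ∃ (Γ Q : Type) (_ : Finite Γ) (_ : Finite Q) (M : PFTM A Γ Q) (C : ℕ), 0 < C ∧
    ∀ x : List A, ∃ t ≤ C * max x.length 1, M.HaltsWith x t (f x)

/-- `G` is Cayley position-faithful one-tape linear-time computable with respect to `S`. -/
def CayleyLinTime (G : Type) [Group G] (S : Set G) : Prop :=
  ∃ (A : Type) (_ : Finite A) (L : Set (List A)) (ψ : L ≃ G), ∀ s ∈ S,
    ∃ f : List A → List A, LinTime f ∧
      ∀ w : L, ∃ h : f w.1 ∈ L, ψ ⟨f w.1, h⟩ = ψ w * s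

/-- The free group on two generators. -/
abbrev F2 : Type := FreeGroup (Fin 2)

/-- The direct sum of copies of `ℤ/2` indexed by `F2`, written multiplicatively. -/
abbrev Lamps : Type := Multiplicative (F2 →₀ ZMod 2)

/-- `F2` acts on the direct sum by translating indices: `g` moves index `x` to `g * x`. -/
noncomputable def shift : F2 →* MulAut Lamps where
  toFun g := AddEquiv.toMultiplicative (Finsupp.domCongr (Equiv.mulLeft g))
  map_one' := by
    ext f x
    simp
    rfl
  map_mul' g h := by
    ext f x
    simp
    rfl

/-- The restricted wreath product of `ℤ/2` with `F2`. -/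
abbrev Wreath : Type := SemidirectProduct Lamps F2 shift

end Pool.Agent.H542Z.PF
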