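import Mathlib
import Pool.Agent.H542Z.PFDefs

/-! Sweep programs (left-to-right and right-to-left finite-state passes) are computed in linear
time by position-faithful one-tape machines. -/

set_option autoImplicit false

namespace Pool.Agent.H542Z.PF

/-- left-to-right pass; an output `none` cuts the word, `e` may append one letter -/
def lrRun {α β Q : Type} (δ : Q → α → Q × Option β) (e : Q → Option β) : Q → List α → List β
  | q, [] => (e q).toList
  | q, a :: x => match (δ q a).2 with
    | none => []
    | some b => b :: lrRun δ e (δ q a).1 x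

/-- right-to-left letter-to-letter pass -/
def rlRun {α β Q : Type} (δ : α → Q → Q × β) (q0 : Q) : List α → Q × List β
  | [] => (q0, [])
  | a :: x => ((δ a (rlRun δ q0 x).1).1, (δ a (rlRun δ q0 x).1).2 :: (rlRun δ q0 x).2)

/-- functions computed by finitely many passes -/
inductive Reg : (α β : Type) → (List α → List β) → Prop
  | lr {α β Q : Type} [Finite α] [Finite β] [Finite Q] (δ : Q → α → Q × Option β)
      (e : Q → Option β) (q0 : Q) : Reg α β (lrRun δ e q0)
  | rl {α β Q : Type} [Finite α] [Finite β] [Finite Q] (δ : α → Q → Q × β) (q0 : Q) :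
      Reg α β (fun x => (rlRun δ q0 x).2)
  | comp {α β γ : Type} {f : List α → List β} {g : List β → List γ} :
      Reg α β f → Reg β γ g → Reg α γ (fun x => g (f x))

/-- internal machines: `none` is the blank, position `0` is the marker -/
structure IM (Γ Q : Type) where
  start : Q
  acc : Q → Prop
  δ0 : Q → Q
  δ : Q → Option Γ → Q × Option Γ × Bool

structure IC (Γ Q : Type) where
  q : Q
  pos : ℕ
  tape : ℕ → Option Γ

def IM.next {Γ Q : Type} (M : IM Γ Q) (c : IC Γ Q) : IC Γ Q :=
  match c.pos with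
  | 0 => ⟨M.δ0 c.q, 1, c.tape⟩
  | i + 1 => ⟨(M.δ c.q (c.tape i)).1, if (M.δ c.q (c.tape i)).2.2 then i + 2 else i,
      Function.update c.tape i (M.δ c.q (c.tape i)).2.1⟩

inductive Reach {Γ Q : Type} (M : IM Γ Q) : ℕ → IC Γ Q → IC Γ Q → Prop
  | refl (c : IC Γ Q) : Reach M 0 c c
  | step {t : ℕ} {c c' : IC Γ Q} : ¬ M.acc c.q → Reach M t (M.next c) c' → Reach M (t + 1) c c'

theorem Reach.trans {Γ Q : Type} {M : IM Γ Q} {s t : ℕ} {a b c : IC Γ Q}
    (h1 : Reach M s a b) (h2 : Reach M t b c) : Reach M (s + t) a c := by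
  induction h1 with
  | refl c => simpa using h2
  | step hn _ ih =>
    rw [Nat.add_right_comm]
    exact Reach.step hn (ih h2)

theorem Reach.one {Γ Q : Type} {M : IM Γ Q} {a b : IC Γ Q} (h : ¬ M.acc a.q)
    (e : M.next a = b) : Reach M 1 a b :=
  Reach.step h (e ▸ Reach.refl _)

theorem sim {Γ Q Γ' Q' : Type} (M : IM Γ Q) (B : IM Γ' Q') (jq : Q → Q')
    (S : Option Γ' → Option Γ → Prop)
    (hacc : ∀ q, ¬ M.acc q → ¬ B.acc (jq q))
    (h0 : ∀ q, ¬ M.acc q → B.δ0 (jq q) = jq (M.δ0 q))
    (h1 : ∀ q a b, ¬ M.acc q → S a b → (B.δ (jq q) a).1 = jq (M.δ q b).1 ∧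
      S (B.δ (jq q) a).2.1 (M.δ q b).2.1 ∧ (B.δ (jq q) a).2.2 = (M.δ q b).2.2)
    {t : ℕ} {c c' : IC Γ Q} (h : Reach M t c c') :
    ∀ tp : ℕ → Option Γ', (∀ j, S (tp j) (c.tape j)) →
      ∃ tp', Reach B t ⟨jq c.q, c.pos, tp⟩ ⟨jq c'.q, c'.pos, tp'⟩ ∧
        ∀ j, S (tp' j) (c'.tape j) := by
  induction h with
  | refl c => exact fun tp h => ⟨tp, Reach.refl _, h⟩
  | @step t c c' hn _ ih =>
    intro tp htp
    obtain ⟨q, pos, tape⟩ := c
    cases pos with
    | zero =>
      obtain ⟨tp', hr, hs⟩ := ih tp htp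
      refine ⟨tp', Reach.step (hacc _ hn) ?_, hs⟩
      simpa [IM.next, h0 q hn] using hr
    | succ i =>
      obtain ⟨e1, e2, e3⟩ := h1 q (tp i) (tape i) hn (htp i)
      obtain ⟨tp', hr, hs⟩ := ih (Function.update tp i (B.δ (jq q) (tp i)).2.1) (by
        intro j
        by_cases hj : j = i
        · subst hj
          simpa [IM.next] using e2
        · simpa [IM.next, Function.update_of_ne hj] using htp j)
      refine ⟨tp', Reach.step (hacc _ hn) ?_, hs⟩
      simpa [IM.next, e1, e3] using hr

def Good {α β : Type} (f : List α → List β) : Prop :=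
  ∃ (Γ Q : Type) (_ : Finite Γ) (_ : Finite Q) (i : α → Γ) (dec : Γ → Option β) (M : IM Γ Q)
    (C : ℕ), ∀ x : List α, (f x).length ≤ C * (x.length + 1) ∧
      ∀ tp : ℕ → Option Γ, (∀ j, tp j = (x[j]?).map i) →
        ∃ t ≤ C * (x.length + 1), ∃ q tp', Reach M t ⟨M.start, 1, tp⟩ ⟨q, 1, tp'⟩ ∧ M.acc q ∧
          ∀ j, (tp' j).map dec = ((f x)[j]?).map some

theorem lrRun_length {α β Q : Type} (δ : Q → α → Q × Option β) (e : Q → Option β) (x : List α) :
    ∀ q, (lrRun δ e q x).length ≤ x.length + 1 := by
  induction x with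
  | nil => intro q; cases h : e q <;> simp [lrRun, h]
  | cons a x ih =>
    intro q
    cases h : (δ q a).2 with
    | none => simp [lrRun, h]
    | some b => simp only [lrRun, h, List.length_cons]; have := ih (δ q a).1; omega

theorem rlRun_length {α β Q : Type} (δ : α → Q → Q × β) (q0 : Q) (x : List α) :
    (rlRun δ q0 x).2.length = x.length := by
  induction x with
  | nil => rfl
  | cons a x ih => simp [rlRun, ih]

/-- machine for a left-to-right pass -/
def lrM {α β Q : Type} (δ : Q → α → Q × Option β) (e : Q → Option β) (q0 : Q) :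
    IM (α ⊕ β) (Option Q ⊕ Bool) where
  start := Sum.inl (some q0)
  acc s := s = Sum.inr true
  δ0 _ := Sum.inr true
  δ s c := match s, c with
    | Sum.inl s, none => (Sum.inr false, (s.bind e).map Sum.inr, false)
    | Sum.inl (some q), some (Sum.inl a) =>
        (Sum.inl ((δ q a).2.map fun _ => (δ q a).1), (δ q a).2.map Sum.inr, true)
    | Sum.inl _, some _ => (Sum.inl none, none, true)
    | Sum.inr b, c => (Sum.inr b, c, false)

theorem lrM_run {α β Q : Type} (δ : Q → α → Q × Option β) (e : Q → Option β) (q0 : Q)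
    (x : List α) : ∀ (s : Option Q) (k : ℕ) (tp : ℕ → Option (α ⊕ β)),
      (∀ j, tp (k + j) = (x[j]?).map Sum.inl) →
      ∃ tp', Reach (lrM δ e q0) (2 * x.length + 1) ⟨Sum.inl s, k + 1, tp⟩ ⟨Sum.inr false, k, tp'⟩ ∧
        (∀ j < k, tp' j = tp j) ∧
        ∀ j, tp' (k + j) = ((s.elim [] fun q => lrRun δ e q x)[j]?).map Sum.inr := by
  induction x with
  | nil =>
    intro s k tp htp
    have h0 : tp k = none := by simpa using htp 0
    refine ⟨Function.update tp k ((s.bind e).map Sum.inr), Reach.one (by simp [lrM]) ?_, ?_, ?_⟩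
    · simp [IM.next, lrM, h0]
    · intro j hj
      rw [Function.update_of_ne (by omega)]
    · intro j
      rcases j with _ | j
      · cases s with
        | none => simp
        | some q => cases h : e q <;> simp [lrRun, h]
      · rw [Function.update_of_ne (by omega), htp]
        cases s with
        | none => simp
        | some q => cases h : e q <;> simp [lrRun, h]
  | cons a x ih =>
    intro s k tp htp
    have h0 : tp k = some (Sum.inl a) := by simpa using htp 0
    set s' : Option Q := s.bind fun q => (δ q a).2.map fun _ => (δ q a).1 with hs'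
    set w : Option (α ⊕ β) := s.bind fun q => (δ q a).2.map Sum.inr with hw
    obtain ⟨tp', hr, h1, h2⟩ := ih s' (k + 1) (Function.update tp k w) (by
      intro j
      rw [Function.update_of_ne (by omega), show k + 1 + j = k + (j + 1) by omega, htp]
      simp)
    have r1 : Reach (lrM δ e q0) 1 ⟨Sum.inl s, k + 1, tp⟩
        ⟨Sum.inl s', k + 1 + 1, Function.update tp k w⟩ := by
      refine Reach.one (by simp [lrM]) ?_
      cases s <;> simp [IM.next, lrM, h0, hs', hw]
    have r2 : Reach (lrM δ e q0) 1 ⟨Sum.inr false, k + 1, tp'⟩ ⟨Sum.inr false, k, tp'⟩ := by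
      refine Reach.one (by simp [lrM]) ?_
      simp [IM.next, lrM]
    refine ⟨tp', ?_, ?_, ?_⟩
    · have := (r1.trans hr).trans r2
      rwa [show 1 + (2 * x.length + 1) + 1 = 2 * (a :: x).length + 1 by simp; omega] at this
    · intro j hj
      rw [h1 j (by omega), Function.update_of_ne (by omega)]
    · intro j
      rcases j with _ | j
      · rw [Nat.add_zero, h1 k (by omega), Function.update_self, hw]
        cases s with
        | none => simp
        | some q => cases h : (δ q a).2 <;> simp [lrRun, h]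
      · rw [show k + (j + 1) = k + 1 + j by omega, h2, hs']
        cases s with
        | none => simp
        | some q => cases h : (δ q a).2 <;> simp [lrRun, h]

theorem good_lr {α β Q : Type} [Finite α] [Finite β] [Finite Q] (δ : Q → α → Q × Option β)
    (e : Q → Option β) (q0 : Q) : Good (lrRun δ e q0) := by
  refine ⟨α ⊕ β, Option Q ⊕ Bool, inferInstance, inferInstance, Sum.inl,
    Sum.elim (fun _ => none) some, lrM δ e q0, 2, fun x => ⟨?_, ?_⟩⟩
  · have := lrRun_length δ e x q0
    omega
  · intro tp htp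
    obtain ⟨tp', hr, -, h2⟩ := lrM_run δ e q0 x (some q0) 0 tp (by simpa using htp)
    have r2 : Reach (lrM δ e q0) 1 ⟨Sum.inr false, 0, tp'⟩ ⟨Sum.inr true, 1, tp'⟩ := by
      refine Reach.one (by simp [lrM]) ?_
      simp [IM.next, lrM]
    refine ⟨_, by omega, Sum.inr true, tp', hr.trans r2, rfl, fun j => ?_⟩
    have := h2 j
    simp only [Nat.zero_add, Option.elim_some] at this
    rw [this]
    cases (lrRun δ e q0 x)[j]? <;> simp

/-- machine for a right-to-left pass -/
def rlM {α β Q : Type} (δ : α → Q → Q × β) (q0 : Q) : IM (α ⊕ β) (Q ⊕ Bool) where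
  start := Sum.inr false
  acc s := s = Sum.inr true
  δ0 _ := Sum.inr true
  δ s c := match s, c with
    | Sum.inr _, none => (Sum.inl q0, none, false)
    | Sum.inr b, some g => (Sum.inr b, some g, true)
    | Sum.inl q, some (Sum.inl a) => (Sum.inl (δ a q).1, some (Sum.inr (δ a q).2), false)
    | Sum.inl q, c => (Sum.inl q, c, false)

theorem rlM_run {α β Q : Type} (δ : α → Q → Q × β) (q0 : Q)
    (x : List α) : ∀ (k : ℕ) (tp : ℕ → Option (α ⊕ β)),
      (∀ j, tp (k + j) = (x[j]?).map Sum.inl) →
      ∃ tp', Reach (rlM δ q0) (2 * x.length + 1) ⟨Sum.inr false, k + 1, tp⟩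
          ⟨Sum.inl (rlRun δ q0 x).1, k, tp'⟩ ∧
        (∀ j < k, tp' j = tp j) ∧
        ∀ j, tp' (k + j) = ((rlRun δ q0 x).2[j]?).map Sum.inr := by
  induction x with
  | nil =>
    intro k tp htp
    have h0 : tp k = none := by simpa using htp 0
    refine ⟨tp, Reach.one (by simp [rlM]) ?_, fun _ _ => rfl, ?_⟩
    · simp [IM.next, rlM, h0, rlRun]
    · intro j
      simpa [rlRun] using htp j
  | cons a x ih =>
    intro k tp htp
    have h0 : tp k = some (Sum.inl a) := by simpa using htp 0
    obtain ⟨tp', hr, h1, h2⟩ := ih (k + 1) tp (by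
      intro j
      rw [show k + 1 + j = k + (j + 1) by omega, htp]
      simp)
    have r1 : Reach (rlM δ q0) 1 ⟨Sum.inr false, k + 1, tp⟩ ⟨Sum.inr false, k + 1 + 1, tp⟩ := by
      refine Reach.one (by simp [rlM]) ?_
      simp [IM.next, rlM, h0]
    have h3 : tp' k = some (Sum.inl a) := by rw [h1 k (by omega), h0]
    have r2 : Reach (rlM δ q0) 1 ⟨Sum.inl (rlRun δ q0 x).1, k + 1, tp'⟩
        ⟨Sum.inl (rlRun δ q0 (a :: x)).1, k,
          Function.update tp' k (some (Sum.inr (δ a (rlRun δ q0 x).1).2))⟩ := by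
      refine Reach.one (by simp [rlM]) ?_
      simp [IM.next, rlM, h3, rlRun]
    refine ⟨Function.update tp' k (some (Sum.inr (δ a (rlRun δ q0 x).1).2)), ?_, ?_, ?_⟩
    · have := (r1.trans hr).trans r2
      rwa [show 1 + (2 * x.length + 1) + 1 = 2 * (a :: x).length + 1 by simp; omega] at this
    · intro j hj
      rw [Function.update_of_ne (by omega), h1 j (by omega)]
    · intro j
      rcases j with _ | j
      · simp [rlRun]
      · rw [Function.update_of_ne (by omega), show k + (j + 1) = k + 1 + j by omega, h2]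
        simp [rlRun]

theorem good_rl {α β Q : Type} [Finite α] [Finite β] [Finite Q] (δ : α → Q → Q × β) (q0 : Q) :
    Good (fun x => (rlRun δ q0 x).2) := by
  refine ⟨α ⊕ β, Q ⊕ Bool, inferInstance, inferInstance, Sum.inl,
    Sum.elim (fun _ => none) some, rlM δ q0, 2, fun x => ⟨?_, ?_⟩⟩
  · have := rlRun_length δ q0 x
    simp only
    omega
  · intro tp htp
    obtain ⟨tp', hr, -, h2⟩ := rlM_run δ q0 x 0 tp (by simpa using htp)
    have r2 : Reach (rlM δ q0) 1 ⟨Sum.inl (rlRun δ q0 x).1, 0, tp'⟩ ⟨Sum.inr true, 1, tp'⟩ := by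
      refine Reach.one (by simp [rlM]) ?_
      simp [IM.next, rlM]
    refine ⟨_, by omega, Sum.inr true, tp', hr.trans r2, rfl, fun j => ?_⟩
    have := h2 j
    simp only [Nat.zero_add] at this
    rw [this]
    cases (rlRun δ q0 x).2[j]? <;> simp

open Classical in
theorem good_comp {α β γ : Type} {f : List α → List β} {g : List β → List γ}
    (hf : Good f) (hg : Good g) : Good (fun x => g (f x)) := by
  obtain ⟨Γ1, Q1, _, _, i1, d1, M1, C1, h1⟩ := hf
  obtain ⟨Γ2, Q2, _, _, i2, d2, M2, C2, h2⟩ := hg
  let j1 : Q1 → Q1 ⊕ Q2 := fun q => if M1.acc q then Sum.inr M2.start else Sum.inl q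
  let π1 : Option (Γ1 ⊕ Γ2) → Option Γ1 := fun a => a.bind (Sum.elim some fun _ => none)
  let p2 : Γ1 ⊕ Γ2 → Option Γ2 := Sum.elim (fun g => (d1 g).map i2) some
  let B : IM (Γ1 ⊕ Γ2) (Q1 ⊕ Q2) :=
    { start := j1 M1.start
      acc := Sum.elim (fun _ => False) M2.acc
      δ0 := Sum.elim (fun q => j1 (M1.δ0 q)) (fun q => Sum.inr (M2.δ0 q))
      δ := fun s a => match s with
        | Sum.inl q => (j1 (M1.δ q (π1 a)).1, (M1.δ q (π1 a)).2.1.map Sum.inl,
            (M1.δ q (π1 a)).2.2)
        | Sum.inr q => (Sum.inr (M2.δ q (a.bind p2)).1, (M2.δ q (a.bind p2)).2.1.map Sum.inr,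
            (M2.δ q (a.bind p2)).2.2) }
  refine ⟨Γ1 ⊕ Γ2, Q1 ⊕ Q2, inferInstance, inferInstance, fun a => Sum.inl (i1 a),
    fun a => (p2 a).bind d2, B, C1 + C2 * (C1 + 1), fun x => ⟨?_, ?_⟩⟩
  · have a1 := (h1 x).1
    have a2 := (h2 (f x)).1
    have : C2 * ((f x).length + 1) ≤ C2 * ((C1 + 1) * (x.length + 1)) :=
      Nat.mul_le_mul_left _ (by nlinarith)
    simp only
    nlinarith
  · intro tp htp
    obtain ⟨t1, ht1, q1, tp1, r1, a1, e1⟩ := (h1 x).2 _ (fun _ => rfl)
    obtain ⟨t2, ht2, q2, tp2, r2, a2, e2⟩ := (h2 (f x)).2 _ (fun _ => rfl)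
    obtain ⟨tq1, s1, f1⟩ := sim M1 B j1 (fun a b => a = b.map Sum.inl)
      (fun q hq => by simp [B, j1, hq])
      (fun q hq => by simp [B, j1, hq])
      (fun q a b hq hab => by
        have : π1 a = b := by subst hab; cases b <;> simp [π1]
        simp [B, j1, hq, this]) r1 tp (by
          intro j
          rw [htp]
          simp only [Option.map_map]
          rfl)
    obtain ⟨tq2, s2, f2⟩ := sim M2 B Sum.inr (fun a b => a.map p2 = b.map some)
      (fun q hq => by simpa [B] using hq)
      (fun q hq => by simp [B])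
      (fun q a b hq hab => by
        have : a.bind p2 = b := by
          cases a <;> cases b <;> simp_all
        simp only [B, this, true_and, and_true]
        cases (M2.δ q b).2.1 <;> simp [p2]) r2 tq1 (by
          intro j
          have e := e1 j
          simp only at e ⊢
          rw [f1 j]
          simp only
          cases h : tp1 j <;> cases h' : (f x)[j]? <;> simp_all [p2])
    have hj : j1 q1 = Sum.inr M2.start := by simp [j1, a1]
    simp only [hj] at s1
    refine ⟨t1 + t2, ?_, Sum.inr q2, tq2, s1.trans s2, a2, fun j => ?_⟩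
    · have a1 := (h1 x).1
      have : C2 * ((f x).length + 1) ≤ C2 * ((C1 + 1) * (x.length + 1)) :=
        Nat.mul_le_mul_left _ (by nlinarith)
      nlinarith
    · have e := e2 j
      have e' := f2 j
      simp only at e e'
      cases h : tq2 j <;> cases h' : tp2 j <;> cases h'' : (g (f x))[j]? <;> simp_all

theorem Reg.good {α β : Type} {f : List α → List β} (h : Reg α β f) : Good f := by
  induction h with
  | lr δ e q0 => exact good_lr δ e q0
  | rl δ q0 => exact good_rl δ q0
  | comp _ _ h1 h2 => exact good_comp h1 h2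

/-- the position-faithful machine of an internal machine -/
def toPF {A Γ Q : Type} (B : IM (A ⊕ Γ) Q) : PFTM A (Option (Option (A ⊕ Γ))) Q where
  marker := none
  blank := some none
  inp a := some (some (Sum.inl a))
  inp_inj a b h := by simpa using h
  marker_ne_blank := by simp
  inp_ne_marker := by simp
  inp_ne_blank := by simp
  start := B.start
  accept := {q | B.acc q}
  δ q g := match g with
    | none => (B.δ0 q, none, true)
    | some a => ((B.δ q a).1, some (B.δ q a).2.1, (B.δ q a).2.2)
  marker_keep q := rfl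
  marker_only q a h := by
    cases a with
    | none => exact absurd rfl h
    | some a => simp

def cv {Γ Q : Type} (c : IC Γ Q) : Config (Option (Option Γ)) Q :=
  ⟨c.q, c.pos, fun i => match i with
    | 0 => none
    | i + 1 => some (c.tape i)⟩

theorem step_cv {A Γ Q : Type} (B : IM (A ⊕ Γ) Q) (c : IC (A ⊕ Γ) Q) :
    (toPF B).step (cv c) = cv (B.next c) := by
  obtain ⟨q, pos, tape⟩ := c
  cases pos with
  | zero =>
    simp only [PFTM.step, cv, IM.next, toPF, if_true, Config.mk.injEq, true_and]
    funext i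
    cases i <;> simp
  | succ p =>
    simp only [PFTM.step, cv, IM.next, toPF, Config.mk.injEq, true_and]
    refine ⟨by simp, ?_⟩
    funext i
    rcases i with _ | i
    · simp
    · by_cases h : i = p
      · subst h
        simp
      · rw [Function.update_of_ne (by omega)]
        simp [Function.update_of_ne h]

theorem reach_cv {A Γ Q : Type} (B : IM (A ⊕ Γ) Q) {t : ℕ} {c c' : IC (A ⊕ Γ) Q}
    (h : Reach B t c c') : (∀ s < t, ((toPF B).step^[s] (cv c)).state ∉ (toPF B).accept) ∧
      (toPF B).step^[t] (cv c) = cv c' := by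
  induction h with
  | refl c => simp
  | @step t c c' hn _ ih =>
    refine ⟨fun s hs => ?_, ?_⟩
    · rcases s with _ | s
      · simpa [toPF, cv] using hn
      · rw [Function.iterate_succ_apply, step_cv]
        exact ih.1 s (by omega)
    · rw [Function.iterate_succ_apply, step_cv]
      exact ih.2

open Classical in
theorem Good.linTime {A : Type} [Finite A] {f : List A → List A} (hf : Good f) : LinTime f := by
  obtain ⟨Γ, Q, _, _, i, dec, M, C, h⟩ := hf
  let jq : Q → Q ⊕ Option Bool := fun q => if M.acc q then Sum.inr (some false) else Sum.inl q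
  let π : A ⊕ Γ → Γ := Sum.elim i id
  let B : IM (A ⊕ Γ) (Q ⊕ Option Bool) :=
    { start := Sum.inr none
      acc := fun s => s = Sum.inr (some true)
      δ0 := Sum.elim (fun q => jq (M.δ0 q)) (fun _ => jq M.start)
      δ := fun s a => match s with
        | Sum.inl q => (jq (M.δ q (a.map π)).1, (M.δ q (a.map π)).2.1.map Sum.inr,
            (M.δ q (a.map π)).2.2)
        | Sum.inr _ => (Sum.inr (some a.isNone), a.bind fun g => (dec (π g)).map Sum.inl, true) }
  have sweep : ∀ (y : List A) (k : ℕ) (tp : ℕ → Option (A ⊕ Γ)),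
      (∀ j, (tp (k + j)).map (fun g => dec (π g)) = (y[j]?).map some) →
      ∃ p tp', Reach B (y.length + 1) ⟨Sum.inr (some false), k + 1, tp⟩
          ⟨Sum.inr (some true), p, tp'⟩ ∧ (∀ j < k, tp' j = tp j) ∧
        ∀ j ≤ y.length, tp' (k + j) = (y[j]?).map Sum.inl := by
    intro y
    induction y with
    | nil =>
      intro k tp htp
      have h0 : tp k = none := by simpa using htp 0
      refine ⟨k + 2, tp, Reach.one (by simp [B]) ?_, fun _ _ => rfl, ?_⟩
      · simp [IM.next, B, h0]
      · intro j hj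
        have : j = 0 := by simpa using hj
        subst this
        simpa using h0
    | cons a y ih =>
      intro k tp htp
      obtain ⟨g, hg, hd⟩ : ∃ g, tp k = some g ∧ dec (π g) = some a := by simpa using htp 0
      obtain ⟨p, tp', hr, h1, h2⟩ := ih (k + 1) (Function.update tp k (some (Sum.inl a))) (by
        intro j
        rw [Function.update_of_ne (by omega), show k + 1 + j = k + (j + 1) by omega, htp]
        simp)
      have r1 : Reach B 1 ⟨Sum.inr (some false), k + 1, tp⟩
          ⟨Sum.inr (some false), k + 1 + 1, Function.update tp k (some (Sum.inl a))⟩ := by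
        refine Reach.one (by simp [B]) ?_
        simp [IM.next, B, hg, hd]
      refine ⟨p, tp', ?_, ?_, ?_⟩
      · have := r1.trans hr
        rwa [show 1 + (y.length + 1) = (a :: y).length + 1 by simp; omega] at this
      · intro j hj
        rw [h1 j (by omega), Function.update_of_ne (by omega)]
      · intro j hj
        rcases j with _ | j
        · rw [Nat.add_zero, h1 k (by omega)]
          simp
        · rw [show k + (j + 1) = k + 1 + j by omega, h2 j (by simpa using hj)]
          simp
  refine ⟨Option (Option (A ⊕ Γ)), Q ⊕ Option Bool, inferInstance, inferInstance, toPF B,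
    4 * C + 2, by omega, fun x => ?_⟩
  obtain ⟨t, ht, q, tp1, r1, a1, e1⟩ := (h x).2 _ (fun _ => rfl)
  obtain ⟨tq, s1, f1⟩ := sim M B jq (fun a b => a.map π = b)
    (fun q hq => by simp [B, jq, hq])
    (fun q hq => by simp [B, jq, hq])
    (fun q a b hq hab => by
      subst hab
      simp only [B, jq, hq, if_false, true_and, and_true, Option.map_map]
      cases (M.δ q (a.map π)).2.1 <;> simp [π]) r1 (fun j => (x[j]?).map Sum.inl) (by
        intro j
        simp only [Option.map_map]
        rfl)
  have hj : jq q = Sum.inr (some false) := by simp [jq, a1]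
  simp only [hj] at s1
  obtain ⟨p, tp', hr, -, h2⟩ := sweep (f x) 0 tq (by
    intro j
    have e := e1 j
    have e' := f1 j
    simp only at e e'
    rw [Nat.zero_add, ← e, ← e', Option.map_map]
    rfl)
  have r0 : Reach B 1 ⟨Sum.inr none, 0, fun j => (x[j]?).map Sum.inl⟩
      ⟨jq M.start, 1, fun j => (x[j]?).map Sum.inl⟩ := by
    refine Reach.one (by simp [B]) ?_
    simp [IM.next, B]
  obtain ⟨c1, c2⟩ := reach_cv B ((r0.trans s1).trans hr)
  have hinit : cv (⟨Sum.inr none, 0, fun j => (x[j]?).map Sum.inl⟩ : IC (A ⊕ Γ) (Q ⊕ Option Bool)) =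
      ⟨(toPF B).start, 0, (toPF B).tapeOf x⟩ := by
    simp only [cv, Config.mk.injEq, true_and]
    refine ⟨rfl, ?_⟩
    funext j
    rcases j with _ | j
    · simp [PFTM.tapeOf, toPF]
    · simp only [PFTM.tapeOf, toPF, List.getD_eq_getElem?_getD, List.getElem?_cons_succ,
        List.getElem?_map]
      cases x[j]? <;> simp
  rw [hinit] at c1 c2
  refine ⟨_, ?_, c1, ?_, ?_⟩
  · have a2 := (h x).1
    have : x.length + 1 ≤ 2 * max x.length 1 := by omega
    have h3 : C * (x.length + 1) ≤ C * (2 * max x.length 1) := Nat.mul_le_mul_left _ this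
    have h4 : 1 ≤ max x.length 1 := by omega
    nlinarith
  · unfold PFTM.run
    rw [c2]
    simp [toPF, cv, B]
  · intro j hj
    unfold PFTM.run
    rw [c2]
    rcases j with _ | j
    · simp [PFTM.tapeOf, toPF, cv]
    · have := h2 j (by omega)
      simp only [Nat.zero_add] at this
      simp only [PFTM.tapeOf, toPF, cv, List.getD_eq_getElem?_getD, List.getElem?_cons_succ,
        List.getElem?_map, this]
      cases (f x)[j]? <;> simp

theorem Reg.linTime {A : Type} [Finite A] {f : List A → List A} (h : Reg A A f) : LinTime f :=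
  h.good.linTime

end Pool.Agent.H542Z.PF
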