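import Mathlib
import Pool.Agent.H542Z.PFReg

/-! Derived sweep programs, and passes over words indexed by finite ordered sets of keys. -/

set_option autoImplicit false

namespace Pool.Agent.H542Z.PF

open Classical

/-- the words `w s` are transformed into the words `w' s` by one sweep program -/
def Tr {σ α β : Type} (w : σ → List α) (w' : σ → List β) : Prop :=
  ∃ f, Reg α β f ∧ ∀ s, f (w s) = w' s

theorem Tr.trans {σ α β γ : Type} {w : σ → List α} {w' : σ → List β} {w'' : σ → List γ}
    (h1 : Tr w w') (h2 : Tr w' w'') : Tr w w'' := by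
  obtain ⟨f, hf, e1⟩ := h1
  obtain ⟨g, hg, e2⟩ := h2
  exact ⟨_, Reg.comp hf hg, fun s => by simp only [e1, e2]⟩

theorem Tr.congr {σ α β : Type} {w w1 : σ → List α} {w' w1' : σ → List β}
    (h : Tr w w') (e : ∀ s, w s = w1 s) (e' : ∀ s, w' s = w1' s) : Tr w1 w1' := by
  obtain ⟨f, hf, h⟩ := h
  exact ⟨f, hf, fun s => by rw [← e, h, e']⟩

theorem Tr.comap {σ τ α β : Type} {w : σ → List α} {w' : σ → List β}
    (h : Tr w w') (r : τ → σ) : Tr (fun t => w (r t)) (fun t => w' (r t)) := by
  obtain ⟨f, hf, h⟩ := h
  exact ⟨f, hf, fun s => h _⟩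

theorem reg_map {α β : Type} [Finite α] [Finite β] (g : α → β) : Reg α β (fun x => x.map g) := by
  have : (fun x : List α => x.map g) =
      fun x => (rlRun (fun a (_ : Unit) => ((), g a)) () x).2 := by
    funext x
    induction x with
    | nil => rfl
    | cons a x ih => simp [rlRun, ← ih]
  rw [this]
  exact Reg.rl _ _

theorem Tr.map {σ α β : Type} [Finite α] [Finite β] (w : σ → List α) (g : α → β) :
    Tr w (fun s => (w s).map g) := ⟨_, reg_map g, fun _ => rfl⟩

theorem Tr.refl {σ α : Type} [Finite α] (w : σ → List α) : Tr w w :=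
  (Tr.map w id).congr (fun _ => rfl) (fun _ => by simp)

theorem Reg.sumId {α β : Type} {f : List α → List β} (h : Reg α β f) (γ : Type) [Finite γ] :
    ∃ F, Reg (α ⊕ γ) (β ⊕ γ) F ∧ (∀ x, F (x.map Sum.inl) = (f x).map Sum.inl) ∧
      ∀ y : List γ, y ≠ [] → F (y.map Sum.inr) = y.map Sum.inr := by
  induction h with
  | @lr α β Q _ _ _ δ e q0 =>
    let δ' : Option Q → α ⊕ γ → Option Q × Option (β ⊕ γ) := fun s c => match c with
      | Sum.inl a => (s.map fun q => (δ q a).1, s.bind fun q => (δ q a).2.map Sum.inl)
      | Sum.inr g => (none, some (Sum.inr g))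
    let e' : Option Q → Option (β ⊕ γ) := fun s => (s.bind e).map Sum.inl
    refine ⟨_, Reg.lr δ' e' (some q0), ?_, ?_⟩
    · intro x
      induction x generalizing q0 with
      | nil => cases h : e q0 <;> simp [lrRun, e', h]
      | cons a x ih => cases h : (δ q0 a).2 <;> simp [lrRun, δ', h, ← ih]
    · have : ∀ y : List γ, lrRun δ' e' none (y.map Sum.inr) = y.map Sum.inr := by
        intro y
        induction y with
        | nil => simp [lrRun, e']
        | cons a y ih => simp [lrRun, δ', ← ih]
      intro y hy
      cases y with
      | nil => exact absurd rfl hy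
      | cons a y => simp [lrRun, δ', this]
  | @rl α β Q _ _ _ δ q0 =>
    let δ' : α ⊕ γ → Q → Q × (β ⊕ γ) := fun c q => match c with
      | Sum.inl a => ((δ a q).1, Sum.inl (δ a q).2)
      | Sum.inr g => (q, Sum.inr g)
    refine ⟨_, Reg.rl δ' q0, ?_, ?_⟩
    · intro x
      have : rlRun δ' q0 (x.map Sum.inl) =
          ((rlRun δ q0 x).1, (rlRun δ q0 x).2.map Sum.inl) := by
        induction x with
        | nil => rfl
        | cons a x ih => simp [rlRun, δ', ih]
      simp [this]
    · intro y _
      induction y with
      | nil => rfl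
      | cons a y ih =>
        by_cases hy : y = []
        · subst hy
          simp [rlRun, δ']
        · simp [rlRun, δ', ih hy]
  | comp _ _ h1 h2 =>
    obtain ⟨F, hF, a1, a2⟩ := h1
    obtain ⟨G, hG, b1, b2⟩ := h2
    exact ⟨_, Reg.comp hF hG, fun x => by simp only [a1, b1],
      fun y hy => by simp only [a2 y hy, b2 y hy]⟩

theorem Tr.cases {σ α β : Type} [Finite α] [Finite β] {w : σ → List α} {w' : σ → List β}
    (p : σ → Prop) (hw : ∀ s, w s ≠ []) (hw' : ∀ s, w' s ≠ [])
    (ht : Tr w (fun s => (w s).map fun a => (a, p s)))
    (h1 : Tr (fun s : {s // p s} => w s) (fun s => w' s))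
    (h2 : Tr (fun s : {s // ¬ p s} => w s) (fun s => w' s)) : Tr w w' := by
  obtain ⟨t, rt, et⟩ := ht
  obtain ⟨f, rf, ef⟩ := h1
  obtain ⟨g, rg, eg⟩ := h2
  obtain ⟨F, rF, a1, a2⟩ := rf.sumId α
  obtain ⟨G, rG, b1, b2⟩ := rg.sumId β
  refine ⟨_, Reg.comp (Reg.comp (Reg.comp (Reg.comp (Reg.comp rt
    (reg_map fun c : α × Prop => if c.2 then (Sum.inl c.1 : α ⊕ α) else Sum.inr c.1)) rF)
    (reg_map Sum.swap)) rG) (reg_map (Sum.elim id id)), fun s => ?_⟩
  simp only [et, List.map_map]
  by_cases hp : p s
  · have e1 : (w s).map ((fun c : α × Prop => if c.2 then (Sum.inl c.1 : α ⊕ α) else Sum.inr c.1) ∘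
        fun a => (a, p s)) = (w s).map Sum.inl := by
      simp [hp]
    have e2 : ((w' s).map (Sum.inl : β → β ⊕ α)).map Sum.swap = (w' s).map Sum.inr := by simp
    rw [e1, a1, ef ⟨s, hp⟩, e2, b2 _ (hw' s)]
    simp
  · have e1 : (w s).map ((fun c : α × Prop => if c.2 then (Sum.inl c.1 : α ⊕ α) else Sum.inr c.1) ∘
        fun a => (a, p s)) = (w s).map Sum.inr := by
      simp [hp]
    have e2 : ((w s).map (Sum.inr : α → β ⊕ α)).map Sum.swap = (w s).map Sum.inl := by simp
    rw [e1, a2 _ (hw s), e2, b1, eg ⟨s, hp⟩]
    simp

/-- replace the first letter satisfying `p` by two letters -/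
noncomputable def split1 {γ : Type} (p : γ → Prop) (g h : γ → γ) : List γ → List γ
  | [] => []
  | a :: x => if p a then g a :: h a :: x else a :: split1 p g h x

theorem reg_split1 {γ : Type} [Finite γ] (p : γ → Prop) (g h : γ → γ) :
    Reg γ γ (split1 p g h) := by
  let δ : Option γ → γ → Option γ × Option γ := fun s a => match s with
    | none => if p a then (some (h a), some (g a)) else (none, some a)
    | some c => (some a, some c)
  have h1 : ∀ (x : List γ) (c : γ), lrRun δ id (some c) x = c :: x := by
    intro x
    induction x with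
    | nil => intro c; rfl
    | cons a x ih => intro c; simp [lrRun, δ, ih]
  have : split1 p g h = lrRun δ id none := by
    funext x
    induction x with
    | nil => rfl
    | cons a x ih => by_cases hp : p a <;> simp [lrRun, split1, δ, hp, h1, ih]
  rw [this]
  exact Reg.lr _ _ _

/-- delete the first letter satisfying `p` -/
noncomputable def del1 {γ : Type} (p : γ → Prop) : List γ → List γ
  | [] => []
  | a :: x => if p a then x else a :: del1 p x

theorem reg_del1 {γ : Type} [Finite γ] (p : γ → Prop) : Reg γ γ (del1 p) := by
  let δ1 : γ → Option γ → Option γ × (γ × Option γ) := fun a s => (some a, (a, s))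
  let δ2 : Bool → γ × Option γ → Bool × Option γ := fun s c =>
    if s = true ∨ p c.1 then (true, c.2) else (false, some c.1)
  have h0 : ∀ x : List γ, (rlRun δ1 none x).1 = x.head? := by
    intro x
    cases x <;> simp [rlRun, δ1]
  have h1 : ∀ x : List γ, lrRun δ2 (fun _ => none) true (rlRun δ1 none x).2 = x.tail := by
    intro x
    induction x with
    | nil => rfl
    | cons a x ih =>
      cases x with
      | nil => simp [rlRun, lrRun, δ1, δ2]
      | cons b x =>
        rw [rlRun, h0]
        simp only [δ1, List.head?_cons, lrRun, δ2, true_or, if_true, List.tail_cons]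
        simp only [δ1, δ2] at ih
        rw [ih]
        rfl
  have : del1 p = fun x => lrRun δ2 (fun _ => none) false (rlRun δ1 none x).2 := by
    funext x
    induction x with
    | nil => rfl
    | cons a x ih =>
      by_cases hp : p a
      · have h2 := h1 (a :: x)
        rw [rlRun] at h2 ⊢
        simp only [δ1, lrRun, δ2, if_true, hp, or_true, List.tail_cons] at h2 ⊢
        simp only [del1, hp, if_true]
        exact h2.symm
      · rw [rlRun]
        simp only [δ1, lrRun, δ2, hp, or_false, Bool.false_eq_true, if_false, del1]
        rw [ih]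
  rw [this]
  exact Reg.comp (Reg.rl δ1 none) (Reg.lr δ2 _ false)

theorem reg_filter {γ : Type} [Finite γ] (p : γ → Prop) (K : ℕ) :
    ∃ f, Reg γ γ f ∧ ∀ x : List γ, x.length ≤ (x.filter fun a => p a).length + K →
      f x = x.filter fun a => p a := by
  induction K with
  | zero =>
    refine ⟨_, reg_map id, fun x hx => ?_⟩
    rw [List.map_id]
    exact ((List.filter_sublist (l := x)).eq_of_length_le (by simpa using hx)).symm
  | succ K ih =>
    obtain ⟨f, rf, hf⟩ := ih
    have key : ∀ x : List γ,
        ((del1 (fun a => ¬ p a) x).filter fun a => p a) = (x.filter fun a => p a) ∧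
        ((del1 (fun a => ¬ p a) x).length + 1 = x.length ∨
          x.length = (x.filter fun a => p a).length ∧ del1 (fun a => ¬ p a) x = x) := by
      intro x
      induction x with
      | nil => simp [del1]
      | cons a x ih =>
        by_cases hp : p a
        · simp only [del1, hp, not_true, if_false, List.filter_cons, decide_true, if_true, ih.1,
            List.length_cons, true_and]
          rcases ih.2 with h | h
          · left; omega
          · right; exact ⟨by omega, by rw [h.2]⟩
        · simp [del1, hp]
    refine ⟨_, Reg.comp (reg_del1 fun a => ¬ p a) rf, fun x hx => ?_⟩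
    obtain ⟨k1, k2⟩ := key x
    rw [hf _ (by
      rw [k1]
      rcases k2 with h | h
      · omega
      · rw [h.2]; omega), k1]

theorem reg_flatMap {α β : Type} [Finite α] [Finite β] (f : α → β) (r : α → List β) (K : ℕ) :
    ∃ F, Reg α β F ∧ ∀ x : List α, (x.flatMap fun a => f a :: r a).length ≤ x.length + K →
      F x = x.flatMap fun a => f a :: r a := by
  obtain ⟨N, hN⟩ : ∃ N, ∀ a, (r a).length ≤ N := by
    obtain ⟨N, hN⟩ := (Set.finite_range fun a => (r a).length).bddAbove
    exact ⟨N, fun a => hN ⟨a, rfl⟩⟩
  let γ := β × {l : List β // l.length ≤ N}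
  have : Finite {l : List β // l.length ≤ N} := List.finite_length_le β N
  let val : γ → List β := fun c => c.1 :: c.2.1
  have main : ∀ K : ℕ, ∃ F, Reg γ β F ∧ ∀ x : List γ, (x.flatMap val).length ≤ x.length + K →
      F x = x.flatMap val := by
    intro K
    induction K with
    | zero =>
      refine ⟨_, reg_map Prod.fst, fun x hx => ?_⟩
      induction x with
      | nil => rfl
      | cons a x ih =>
        have h1 : x.length ≤ (x.flatMap val).length := by
          clear ih hx
          induction x with
          | nil => simp
          | cons b x ih => simp only [List.flatMap_cons, List.length_append, val,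
              List.length_cons] at ih ⊢; omega
        simp only [List.flatMap_cons, List.length_append, List.length_cons] at hx
        have h2 : (val a).length = a.2.1.length + 1 := by simp [val]
        have h3 : a.2.1 = [] := List.length_eq_zero_iff.mp (by omega)
        rw [List.map_cons, List.flatMap_cons, ← ih (by omega)]
        simp [val, h3]
    | succ K ih =>
      obtain ⟨F, rF, hF⟩ := ih
      let p : γ → Prop := fun c => c.2.1 ≠ []
      let g : γ → γ := fun c => (c.1, ⟨[], by simp⟩)
      let h : γ → γ := fun c => (c.2.1.headD c.1, ⟨c.2.1.tail, by have := c.2.2; simp; omega⟩)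
      have key : ∀ x : List γ, (split1 p g h x).flatMap val = x.flatMap val ∧
          ((split1 p g h x).length = x.length + 1 ∨
            (x.flatMap val).length = x.length ∧ split1 p g h x = x) := by
        intro x
        induction x with
        | nil => simp [split1]
        | cons a x ih =>
          by_cases hp : p a
          · obtain ⟨a1, l, hl⟩ := a
            cases l with
            | nil => simp [p] at hp
            | cons b l => simp [split1, p, g, h, val]
          · have h3 : a.2.1 = [] := by simpa [p] using hp
            simp only [split1, hp, if_false, List.flatMap_cons, ih.1, List.length_cons, true_and,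
              List.length_append]
            rcases ih.2 with h | h
            · left; omega
            · right
              refine ⟨?_, by rw [h.2]⟩
              simp only [val, h3, List.length_cons, List.length_nil]
              simp only [val] at h
              omega
      refine ⟨_, Reg.comp (reg_split1 p g h) rF, fun x hx => ?_⟩
      obtain ⟨k1, k2⟩ := key x
      rw [hF _ (by
        rw [k1]
        rcases k2 with h | h
        · omega
        · rw [h.2]; omega), k1]
  obtain ⟨F, rF, hF⟩ := main K
  refine ⟨_, Reg.comp (reg_map fun a => ((f a, ⟨r a, hN a⟩) : γ)) rF, fun x hx => ?_⟩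
  have : (x.map fun a => ((f a, ⟨r a, hN a⟩) : γ)).flatMap val =
      x.flatMap fun a => f a :: r a := by
    rw [List.flatMap_map]
  rw [hF _ (by rw [this]; simpa using hx), this]

end Pool.Agent.H542Z.PF
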