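import Mathlib
import Pool.Agent.H542Z.PFList

/-! Passes over words indexed by finite ordered sets of keys. -/

set_option autoImplicit false

namespace Pool.Agent.H542Z.PF

open Classical

variable {κ : Type} [LinearOrder κ]

/-- the increasing enumeration of a finite set -/
noncomputable def srt (S : Set κ) : List κ :=
  if h : S.Finite then h.toFinset.sort (· ≤ ·) else []

theorem mem_srt {S : Set κ} (h : S.Finite) (k : κ) : k ∈ srt S ↔ k ∈ S := by
  simp [srt, h]

theorem srt_pairwise (S : Set κ) : (srt S).Pairwise (· < ·) := by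
  unfold srt
  split_ifs with h
  · exact (Finset.sortedLT_sort _).pairwise
  · exact List.Pairwise.nil

theorem eq_of_pairwise {l l' : List κ} (h : l.Pairwise (· < ·)) (h' : l'.Pairwise (· < ·))
    (e : ∀ k, k ∈ l ↔ k ∈ l') : l = l' := by
  have n1 : l.Nodup := h.imp ne_of_lt
  have n2 : l'.Nodup := h'.imp ne_of_lt
  exact List.Perm.eq_of_pairwise (fun a b _ _ h1 h2 => absurd h1 (not_lt.mpr h2.le)) h h'
    ((List.perm_ext_iff_of_nodup n1 n2).mpr e)

theorem srt_eq {S : Set κ} (h : S.Finite) {l : List κ} (hl : l.Pairwise (· < ·))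
    (e : ∀ k, k ∈ l ↔ k ∈ S) : srt S = l :=
  eq_of_pairwise (srt_pairwise S) hl fun k => by rw [mem_srt h, e]

theorem srt_length_le {S S' : Set κ} (h : S.Finite) (h' : S'.Finite) (E : List κ)
    (e : ∀ k ∈ S', k ∈ S ∨ k ∈ E) : (srt S').length ≤ (srt S).length + E.length := by
  rw [← List.length_append]
  refine (List.subperm_of_subset ((srt_pairwise S').imp ne_of_lt) ?_).length_le
  intro k hk
  rw [List.mem_append, mem_srt h]
  exact e k ((mem_srt h' k).mp hk)

/-- the word of letters `F k`, `k` running through `S` in increasing order -/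
noncomputable def W {α : Type} (S : Set κ) (F : κ → α) : List α := (srt S).map F

theorem W_congr {α : Type} {S : Set κ} (h : S.Finite) {F G : κ → α} (e : ∀ k ∈ S, F k = G k) :
    W S F = W S G :=
  List.map_congr_left fun k hk => e k ((mem_srt h k).mp hk)

theorem W_ne_nil {α : Type} {S : Set κ} (h : S.Finite) {k : κ} (hk : k ∈ S) (F : κ → α) :
    W S F ≠ [] := by
  intro e
  have := (mem_srt h k).mpr hk
  rw [List.map_eq_nil_iff.mp e] at this
  simp at this

theorem Tr.pt {σ α β : Type} [Finite α] [Finite β] {S : σ → Set κ} (hS : ∀ s, (S s).Finite)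
    (F : σ → κ → α) (G : σ → κ → β) (g : α → β) (h : ∀ s, ∀ k ∈ S s, g (F s k) = G s k) :
    Tr (fun s => W (S s) (F s)) (fun s => W (S s) (G s)) :=
  (Tr.map _ g).congr (fun _ => rfl) fun s => by
    rw [W, List.map_map]
    exact W_congr (hS s) (h s)

theorem Tr.lr {σ α β Q : Type} [Finite α] [Finite β] [Finite Q] {S : σ → Set κ}
    (hS : ∀ s, (S s).Finite) (F : σ → κ → α) (G : σ → κ → β) (δ : Q → α → Q × β) (q0 : Q)
    (I : σ → κ → Q → Prop)
    (h : ∀ s, ∀ k ∈ S s, ∀ q, ((q = q0 ∧ ∀ c ∈ S s, ¬ c < k) ∨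
      ∃ b ∈ S s, b < k ∧ (∀ c ∈ S s, c < k → c ≤ b) ∧ I s b q) →
        I s k (δ q (F s k)).1 ∧ (δ q (F s k)).2 = G s k) :
    Tr (fun s => W (S s) (F s)) (fun s => W (S s) (G s)) := by
  refine ⟨_, Reg.lr (fun q a => ((δ q a).1, some (δ q a).2)) (fun _ => none) q0, fun s => ?_⟩
  have key : ∀ (l u : List κ) (q : Q), srt (S s) = u ++ l →
      ((u = [] ∧ q = q0) ∨ ∃ u' b, u = u' ++ [b] ∧ I s b q) →
      lrRun (fun q a => ((δ q a).1, some (δ q a).2)) (fun _ => none) q (l.map (F s)) =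
        l.map (G s) := by
    intro l
    induction l with
    | nil => intro u q _ _; rfl
    | cons k l ih =>
      intro u q hu hq
      have hp := srt_pairwise (S s)
      have hm := mem_srt (hS s)
      rw [hu] at hp hm
      have hk : k ∈ S s := (hm k).mp (by simp)
      rw [List.pairwise_append, List.pairwise_cons] at hp
      have hlt : ∀ c ∈ S s, c < k → c ∈ u := by
        intro c hc hck
        have := (hm c).mpr hc
        simp only [List.mem_append, List.mem_cons] at this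
        rcases this with h | h | h
        · exact h
        · exact absurd h hck.ne
        · exact absurd (hp.2.1.1 c h) (not_lt.mpr hck.le)
      obtain ⟨h1, h2⟩ := h s k hk q (by
        rcases hq with ⟨rfl, rfl⟩ | ⟨u', b, rfl, hb⟩
        · exact Or.inl ⟨rfl, fun c hc hck => by simpa using hlt c hc hck⟩
        · refine Or.inr ⟨b, (hm b).mp (by simp), hp.2.2 b (by simp) k (by simp), ?_, hb⟩
          intro c hc hck
          have := hlt c hc hck
          simp only [List.mem_append, List.mem_singleton] at this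
          rcases this with h | h
          · exact ((List.pairwise_append.mp hp.1).2.2 c h b (by simp)).le
          · exact h.le)
      simp only [List.map_cons, lrRun]
      rw [ih (u ++ [k]) _ (by simpa using hu) (Or.inr ⟨u, k, rfl, h1⟩), h2]
  exact key _ [] q0 rfl (Or.inl ⟨rfl, rfl⟩)

theorem Tr.rl {σ α β Q : Type} [Finite α] [Finite β] [Finite Q] {S : σ → Set κ}
    (hS : ∀ s, (S s).Finite) (F : σ → κ → α) (G : σ → κ → β) (δ : α → Q → Q × β) (q0 : Q)
    (I : σ → κ → Q → Prop)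
    (h : ∀ s, ∀ k ∈ S s, ∀ q, ((q = q0 ∧ ∀ c ∈ S s, ¬ k < c) ∨
      ∃ b ∈ S s, k < b ∧ (∀ c ∈ S s, k < c → b ≤ c) ∧ I s b q) →
        I s k (δ (F s k) q).1 ∧ (δ (F s k) q).2 = G s k) :
    Tr (fun s => W (S s) (F s)) (fun s => W (S s) (G s)) := by
  refine ⟨_, Reg.rl δ q0, fun s => ?_⟩
  have key : ∀ (l u : List κ), srt (S s) = u ++ l →
      (rlRun δ q0 (l.map (F s))).2 = l.map (G s) ∧
      ((l = [] ∧ (rlRun δ q0 (l.map (F s))).1 = q0) ∨
        ∃ b l', l = b :: l' ∧ I s b (rlRun δ q0 (l.map (F s))).1) := by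
    intro l
    induction l with
    | nil => intro u _; exact ⟨rfl, Or.inl ⟨rfl, rfl⟩⟩
    | cons k l ih =>
      intro u hu
      obtain ⟨e, hq⟩ := ih (u ++ [k]) (by simpa using hu)
      have hp := srt_pairwise (S s)
      have hm := mem_srt (hS s)
      rw [hu] at hp hm
      have hk : k ∈ S s := (hm k).mp (by simp)
      rw [List.pairwise_append, List.pairwise_cons] at hp
      have hlt : ∀ c ∈ S s, k < c → c ∈ l := by
        intro c hc hck
        have := (hm c).mpr hc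
        simp only [List.mem_append, List.mem_cons] at this
        rcases this with h | h | h
        · exact absurd (hp.2.2 c h k (by simp)) (not_lt.mpr hck.le)
        · exact absurd h hck.ne'
        · exact h
      obtain ⟨h1, h2⟩ := h s k hk (rlRun δ q0 (l.map (F s))).1 (by
        rcases hq with ⟨rfl, hq⟩ | ⟨b, l', rfl, hb⟩
        · exact Or.inl ⟨hq, fun c hc hck => by simpa using hlt c hc hck⟩
        · refine Or.inr ⟨b, (hm b).mp (by simp), hp.2.1.1 b (by simp), ?_, hb⟩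
          intro c hc hck
          have := hlt c hc hck
          simp only [List.mem_cons] at this
          rcases this with h | h
          · exact h.ge
          · exact ((List.pairwise_cons.mp hp.2.1.2).1 c h).le)
      simp only [List.map_cons, rlRun]
      exact ⟨by rw [e, h2], Or.inr ⟨k, l, rfl, h1⟩⟩
  exact (key _ [] rfl).1

/-- `b` is the next key after `k` in `S` with property `P` -/
def IsNx (S : Set κ) (P : κ → Prop) (k b : κ) : Prop :=
  b ∈ S ∧ k < b ∧ P b ∧ ∀ c ∈ S, k < c → P c → b ≤ c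

/-- `b` is the last key before `k` in `S` with property `P` -/
def IsPv (S : Set κ) (P : κ → Prop) (k b : κ) : Prop :=
  b ∈ S ∧ b < k ∧ P b ∧ ∀ c ∈ S, c < k → P c → c ≤ b

theorem IsNx.unique {S : Set κ} {P : κ → Prop} {k b c : κ} (h : IsNx S P k b)
    (h' : IsNx S P k c) : b = c :=
  le_antisymm (h.2.2.2 c h'.1 h'.2.1 h'.2.2.1) (h'.2.2.2 b h.1 h.2.1 h.2.2.1)

theorem IsPv.unique {S : Set κ} {P : κ → Prop} {k b c : κ} (h : IsPv S P k b)
    (h' : IsPv S P k c) : b = c :=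
  le_antisymm (h'.2.2.2 b h.1 h.2.1 h.2.2.1) (h.2.2.2 c h'.1 h'.2.1 h'.2.2.1)

theorem IsNx.congr {S : Set κ} {P P' : κ → Prop} {k b : κ} (e : ∀ c ∈ S, P c ↔ P' c) :
    IsNx S P k b ↔ IsNx S P' k b :=
  ⟨fun h => ⟨h.1, h.2.1, (e b h.1).mp h.2.2.1, fun c hc h1 h2 => h.2.2.2 c hc h1 ((e c hc).mpr h2)⟩,
   fun h => ⟨h.1, h.2.1, (e b h.1).mpr h.2.2.1, fun c hc h1 h2 => h.2.2.2 c hc h1 ((e c hc).mp h2)⟩⟩

theorem IsPv.congr {S : Set κ} {P P' : κ → Prop} {k b : κ} (e : ∀ c ∈ S, P c ↔ P' c) :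
    IsPv S P k b ↔ IsPv S P' k b :=
  ⟨fun h => ⟨h.1, h.2.1, (e b h.1).mp h.2.2.1, fun c hc h1 h2 => h.2.2.2 c hc h1 ((e c hc).mpr h2)⟩,
   fun h => ⟨h.1, h.2.1, (e b h.1).mpr h.2.2.1, fun c hc h1 h2 => h.2.2.2 c hc h1 ((e c hc).mp h2)⟩⟩

theorem exists_isNx {S : Set κ} (h : S.Finite) {P : κ → Prop} {k c : κ} (hc : c ∈ S)
    (h1 : k < c) (h2 : P c) : ∃ b, IsNx S P k b ∧ b ≤ c := by
  obtain ⟨b, hb, hm⟩ := Set.exists_min_image {c | c ∈ S ∧ k < c ∧ P c} id
    (h.subset fun _ h => h.1) ⟨c, hc, h1, h2⟩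
  exact ⟨b, ⟨hb.1, hb.2.1, hb.2.2, fun d hd d1 d2 => hm d ⟨hd, d1, d2⟩⟩, hm c ⟨hc, h1, h2⟩⟩

theorem exists_isPv {S : Set κ} (h : S.Finite) {P : κ → Prop} {k c : κ} (hc : c ∈ S)
    (h1 : c < k) (h2 : P c) : ∃ b, IsPv S P k b ∧ c ≤ b := by
  obtain ⟨b, hb, hm⟩ := Set.exists_max_image {c | c ∈ S ∧ c < k ∧ P c} id
    (h.subset fun _ h => h.1) ⟨c, hc, h1, h2⟩
  exact ⟨b, ⟨hb.1, hb.2.1, hb.2.2, fun d hd d1 d2 => hm d ⟨hd, d1, d2⟩⟩, hm c ⟨hc, h1, h2⟩⟩

/-- annotate each letter with a relation to the next letter satisfying `p` -/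
theorem Tr.next {σ α β : Type} [Finite α] [Finite β] {S : σ → Set κ}
    (hS : ∀ s, (S s).Finite) (F : σ → κ → α) (p : α → Prop) (r : α → α → Prop)
    (g : α → Prop → β) (G : σ → κ → β)
    (h : ∀ s, ∀ k ∈ S s, g (F s k)
      (∃ b, IsNx (S s) (fun c => p (F s c)) k b ∧ r (F s k) (F s b)) = G s k) :
    Tr (fun s => W (S s) (F s)) (fun s => W (S s) (G s)) := by
  refine Tr.rl hS F G
    (fun a (o : Option α) => (if p a then some a else o, g a (∃ y, o = some y ∧ r a y))) none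
    (fun s k o => (o = none ∧ ∀ c ∈ S s, k ≤ c → ¬ p (F s c)) ∨
      ∃ b ∈ S s, k ≤ b ∧ p (F s b) ∧ o = some (F s b) ∧ ∀ c ∈ S s, k ≤ c → p (F s c) → b ≤ c) ?_
  intro s k hk o ho
  have key : (o = none ∧ ∀ c ∈ S s, k < c → ¬ p (F s c)) ∨
      ∃ b, IsNx (S s) (fun c => p (F s c)) k b ∧ o = some (F s b) := by
    rcases ho with ⟨rfl, h0⟩ | ⟨b, hb, h1, h2, h3 | ⟨d, hd, d1, d2, d3, d4⟩⟩
    · exact Or.inl ⟨rfl, fun c hc hkc => absurd hkc (h0 c hc)⟩
    · exact Or.inl ⟨h3.1, fun c hc hkc => h3.2 c hc (h2 c hc hkc)⟩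
    · exact Or.inr ⟨d, ⟨hd, h1.trans_le d1, d2, fun c hc hkc hp => d4 c hc (h2 c hc hkc) hp⟩, d3⟩
  constructor
  · by_cases hp : p (F s k)
    · exact Or.inr ⟨k, hk, le_rfl, hp, by simp [hp], fun c _ h _ => h⟩
    · simp only [hp, if_false]
      rcases key with ⟨h1, h2⟩ | ⟨b, hb, h1⟩
      · refine Or.inl ⟨h1, fun c hc hkc => ?_⟩
        rcases hkc.eq_or_lt with rfl | hkc
        · exact hp
        · exact h2 c hc hkc
      · refine Or.inr ⟨b, hb.1, hb.2.1.le, hb.2.2.1, h1, fun c hc hkc hpc => ?_⟩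
        rcases hkc.eq_or_lt with rfl | hkc
        · exact absurd hpc hp
        · exact hb.2.2.2 c hc hkc hpc
  · rw [← h s k hk]
    simp only
    congr 1
    rcases key with ⟨h1, h2⟩ | ⟨b, hb, h1⟩
    · subst h1
      simp only [reduceCtorEq, false_and, exists_false, eq_iff_iff, false_iff]
      rintro ⟨b, hb, -⟩
      exact h2 b hb.1 hb.2.1 hb.2.2.1
    · subst h1
      simp only [Option.some.injEq, exists_eq_left', eq_iff_iff]
      exact ⟨fun h => ⟨b, hb, h⟩, fun ⟨c, hc, h⟩ => by rwa [hb.unique hc]⟩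

/-- annotate each letter with a relation to the last previous letter satisfying `p` -/
theorem Tr.prev {σ α β : Type} [Finite α] [Finite β] {S : σ → Set κ}
    (hS : ∀ s, (S s).Finite) (F : σ → κ → α) (p : α → Prop) (r : α → α → Prop)
    (g : α → Prop → β) (G : σ → κ → β)
    (h : ∀ s, ∀ k ∈ S s, g (F s k)
      (∃ b, IsPv (S s) (fun c => p (F s c)) k b ∧ r (F s k) (F s b)) = G s k) :
    Tr (fun s => W (S s) (F s)) (fun s => W (S s) (G s)) := by
  refine Tr.lr hS F G
    (fun (o : Option α) a => (if p a then some a else o, g a (∃ y, o = some y ∧ r a y))) none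
    (fun s k o => (o = none ∧ ∀ c ∈ S s, c ≤ k → ¬ p (F s c)) ∨
      ∃ b ∈ S s, b ≤ k ∧ p (F s b) ∧ o = some (F s b) ∧ ∀ c ∈ S s, c ≤ k → p (F s c) → c ≤ b) ?_
  intro s k hk o ho
  have key : (o = none ∧ ∀ c ∈ S s, c < k → ¬ p (F s c)) ∨
      ∃ b, IsPv (S s) (fun c => p (F s c)) k b ∧ o = some (F s b) := by
    rcases ho with ⟨rfl, h0⟩ | ⟨b, hb, h1, h2, h3 | ⟨d, hd, d1, d2, d3, d4⟩⟩
    · exact Or.inl ⟨rfl, fun c hc hkc => absurd hkc (h0 c hc)⟩
    · exact Or.inl ⟨h3.1, fun c hc hkc => h3.2 c hc (h2 c hc hkc)⟩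
    · exact Or.inr ⟨d, ⟨hd, d1.trans_lt h1, d2, fun c hc hkc hp => d4 c hc (h2 c hc hkc) hp⟩, d3⟩
  constructor
  · by_cases hp : p (F s k)
    · exact Or.inr ⟨k, hk, le_rfl, hp, by simp [hp], fun c _ h _ => h⟩
    · simp only [hp, if_false]
      rcases key with ⟨h1, h2⟩ | ⟨b, hb, h1⟩
      · refine Or.inl ⟨h1, fun c hc hkc => ?_⟩
        rcases hkc.eq_or_lt with rfl | hkc
        · exact hp
        · exact h2 c hc hkc
      · refine Or.inr ⟨b, hb.1, hb.2.1.le, hb.2.2.1, h1, fun c hc hkc hpc => ?_⟩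
        rcases hkc.eq_or_lt with rfl | hkc
        · exact absurd hpc hp
        · exact hb.2.2.2 c hc hkc hpc
  · rw [← h s k hk]
    simp only
    congr 1
    rcases key with ⟨h1, h2⟩ | ⟨b, hb, h1⟩
    · subst h1
      simp only [reduceCtorEq, false_and, exists_false, eq_iff_iff, false_iff]
      rintro ⟨b, hb, -⟩
      exact h2 b hb.1 hb.2.1 hb.2.2.1
    · subst h1
      simp only [Option.some.injEq, exists_eq_left', eq_iff_iff]
      exact ⟨fun h => ⟨b, hb, h⟩, fun ⟨c, hc, h⟩ => by rwa [hb.unique hc]⟩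

/-- append an annotation -/
theorem Tr.nextP {σ α : Type} [Finite α] {S : σ → Set κ}
    (hS : ∀ s, (S s).Finite) (F : σ → κ → α) (p : α → Prop) (r : α → α → Prop)
    (G : σ → κ → Prop)
    (h : ∀ s, ∀ k ∈ S s,
      (∃ b, IsNx (S s) (fun c => p (F s c)) k b ∧ r (F s k) (F s b)) ↔ G s k) :
    Tr (fun s => W (S s) (F s)) (fun s => W (S s) fun k => (F s k, G s k)) :=
  Tr.next hS F p r (fun a x => (a, x)) _ fun s k hk => by rw [propext (h s k hk)]

theorem Tr.prevP {σ α : Type} [Finite α] {S : σ → Set κ}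
    (hS : ∀ s, (S s).Finite) (F : σ → κ → α) (p : α → Prop) (r : α → α → Prop)
    (G : σ → κ → Prop)
    (h : ∀ s, ∀ k ∈ S s,
      (∃ b, IsPv (S s) (fun c => p (F s c)) k b ∧ r (F s k) (F s b)) ↔ G s k) :
    Tr (fun s => W (S s) (F s)) (fun s => W (S s) fun k => (F s k, G s k)) :=
  Tr.prev hS F p r (fun a x => (a, x)) _ fun s k hk => by rw [propext (h s k hk)]

/-- delete boundedly many letters -/
theorem Tr.filter {σ α : Type} [Finite α] {S S' : σ → Set κ} (hS : ∀ s, (S s).Finite)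
    (F : σ → κ → α) (p : α → Prop) (K : ℕ)
    (h : ∀ s k, k ∈ S' s ↔ k ∈ S s ∧ p (F s k))
    (hK : ∀ s, ∃ E : List κ, E.length ≤ K ∧ ∀ k ∈ S s, k ∈ S' s ∨ k ∈ E) :
    Tr (fun s => W (S s) (F s)) (fun s => W (S' s) (F s)) := by
  obtain ⟨f, rf, hf⟩ := reg_filter p K
  refine ⟨f, rf, fun s => ?_⟩
  have hS' : (S' s).Finite := (hS s).subset fun k hk => ((h s k).mp hk).1
  have e : ((W (S s) (F s)).filter fun a => p a) = W (S' s) (F s) := by
    rw [W, W, List.filter_map, srt_eq hS' ((srt_pairwise (S s)).filter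
      ((fun a => decide (p a)) ∘ F s))]
    intro k
    simp [mem_srt (hS s), h]
  obtain ⟨E, hE, h2⟩ := hK s
  have := srt_length_le hS' (hS s) E h2
  simp only
  rw [hf _ (by rw [e]; simp only [W, List.length_map]; omega), e]

/-- insert boundedly many letters -/
theorem Tr.expand {σ α β : Type} [Finite α] [Finite β] {S S' : σ → Set κ}
    (hS : ∀ s, (S s).Finite) (hS' : ∀ s, (S' s).Finite)
    (F : σ → κ → α) (G : σ → κ → β) (f : α → β) (r : α → List β) (N : σ → κ → List κ) (K : ℕ)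
    (h : ∀ s k, k ∈ S' s ↔ k ∈ S s ∨ ∃ a ∈ S s, k ∈ N s a)
    (hN : ∀ s, ∀ a ∈ S s, (N s a).Pairwise (· < ·) ∧
      ∀ n ∈ N s a, a < n ∧ ∀ b ∈ S s, a < b → n < b)
    (hG : ∀ s, ∀ a ∈ S s, f (F s a) = G s a ∧ r (F s a) = (N s a).map (G s))
    (hK : ∀ s, ∃ E : List κ, E.length ≤ K ∧ ∀ k ∈ S' s, k ∈ S s ∨ k ∈ E) :
    Tr (fun s => W (S s) (F s)) (fun s => W (S' s) (G s)) := by
  obtain ⟨F', rf, hf⟩ := reg_flatMap f r K
  refine ⟨F', rf, fun s => ?_⟩
  have hm := mem_srt (hS s)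
  have e1 : srt (S' s) = (srt (S s)).flatMap fun a => a :: N s a := by
    refine srt_eq (hS' s) ?_ ?_
    · rw [List.pairwise_flatMap]
      refine ⟨fun a ha => ?_, ?_⟩
      · have := hN s a ((hm a).mp ha)
        exact List.pairwise_cons.mpr ⟨fun n hn => (this.2 n hn).1, this.1⟩
      · refine List.Pairwise.imp_of_mem ?_ (srt_pairwise (S s))
        intro a b ha hb hab x hx y hy
        have h1 := hN s a ((hm a).mp ha)
        have h2 := hN s b ((hm b).mp hb)
        have h3 : x < b := by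
          rcases List.mem_cons.mp hx with rfl | hx
          · exact hab
          · exact (h1.2 x hx).2 b ((hm b).mp hb) hab
        rcases List.mem_cons.mp hy with rfl | hy
        · exact h3
        · exact h3.trans (h2.2 y hy).1
    · intro k
      simp only [List.mem_flatMap, List.mem_cons, hm, h]
      constructor
      · rintro ⟨a, ha, rfl | hk⟩
        · exact Or.inl ha
        · exact Or.inr ⟨a, ha, hk⟩
      · rintro (hk | ⟨a, ha, hk⟩)
        · exact ⟨k, hk, Or.inl rfl⟩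
        · exact ⟨a, ha, Or.inr hk⟩
  have e : ((W (S s) (F s)).flatMap fun a => f a :: r a) = W (S' s) (G s) := by
    rw [W, W, e1, List.flatMap_map, List.map_flatMap]
    refine List.flatMap_congr fun a ha => ?_
    have := hG s a ((hm a).mp ha)
    simp [this.1, this.2]
  obtain ⟨E, hE, h2⟩ := hK s
  have := srt_length_le (hS s) (hS' s) E h2
  simp only
  rw [hf _ (by rw [e]; simp only [W, List.length_map]; omega), e]

end Pool.Agent.H542Z.PF
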