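import Mathlib
import Pool.Agent.H542Z.PFSet

/-! Euler tours of finite trees with dyadic level markers. -/

set_option autoImplicit false

namespace Pool.Agent.H542Z.PF

open Classical

abbrev Pth : Type := List (Fin 4)

def code (x : Pth) (cl : Bool) : List ℕ :=
  x.map (fun a => a.val + 1) ++ [if cl then 5 else 0]

theorem code_nil (c : Bool) : code [] c = [if c then 5 else 0] := rfl

theorem code_cons (a : Fin 4) (x : Pth) (c : Bool) :
    code (a :: x) c = (a.val + 1) :: code x c := rfl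

theorem code_inj : ∀ (x y : Pth) (c d : Bool), code x c = code y d → x = y ∧ c = d := by
  intro x
  induction x with
  | nil =>
    intro y c d h
    cases y with
    | nil => cases c <;> cases d <;> simp_all [code_nil]
    | cons b y =>
      rw [code_nil, code_cons] at h
      have := b.2
      cases c <;> simp at h
      omega
  | cons a x ih =>
    intro y c d h
    cases y with
    | nil =>
      rw [code_nil, code_cons] at h
      have := a.2
      cases d <;> simp at h
      omega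
    | cons b y =>
      rw [code_cons, code_cons, List.cons.injEq] at h
      obtain ⟨h1, h2⟩ := ih y c d h.2
      exact ⟨by rw [h1, Fin.ext (by omega : a.val = b.val)], h2⟩

theorem code_lt_self (x : Pth) : code x false < code x true := by
  induction x with
  | nil => decide
  | cons a x ih => simpa [code_cons] using ih

theorem code_lt_of_pre : ∀ (x y : Pth) (c : Bool), x <+: y → x ≠ y →
    code x false < code y c ∧ code y c < code x true := by
  intro x
  induction x with
  | nil =>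
    intro y c _ h
    cases y with
    | nil => exact absurd rfl h
    | cons b y =>
      have := b.2
      simp only [code_nil, code_cons, List.cons_lt_cons_iff]
      simp
      omega
  | cons a x ih =>
    intro y c h1 h2
    cases y with
    | nil => simp at h1
    | cons b y =>
      obtain ⟨rfl, h3⟩ := List.cons_prefix_cons.mp h1
      have := ih y c h3 (fun e => h2 (by rw [e]))
      simpa [code_cons] using this

theorem pre_of_code_lt : ∀ (x y : Pth) (c : Bool), code x false < code y c →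
    code y c < code x true → x <+: y ∧ x ≠ y := by
  intro x
  induction x with
  | nil =>
    intro y c h1 h2
    refine ⟨List.nil_prefix, ?_⟩
    rintro rfl
    cases c <;> simp_all
  | cons a x ih =>
    intro y c h1 h2
    cases y with
    | nil =>
      have := a.2
      simp only [code_nil, code_cons, List.cons_lt_cons_iff] at h1 h2
      cases c <;> simp at h1 h2
      omega
    | cons b y =>
      simp only [code_cons, List.cons_lt_cons_iff] at h1 h2
      have e : a = b := Fin.ext (by omega)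
      subst e
      have := ih y c (by simpa using h1) (by simpa using h2)
      exact ⟨List.cons_prefix_cons.mpr ⟨rfl, this.1⟩, fun e => this.2 (by simpa using e)⟩

theorem code_append (v x : Pth) (c : Bool) :
    code (v ++ x) c = v.map (fun a => a.val + 1) ++ code x c := by simp [code]

theorem code_append_lt (v x y : Pth) (c d : Bool) (h : code x c < code y d) :
    code (v ++ x) c < code (v ++ y) d := by
  induction v with
  | nil => simpa using h
  | cons a v ih => simpa [code_cons] using ih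

@[ext] structure Key where
  x : Pth
  cl : Bool
  e : ℕ

def Key.toL (k : Key) : Lex (List ℕ × ℕ) := toLex (code k.x k.cl, k.e)

theorem Key.toL_inj : Function.Injective Key.toL := by
  intro a b h
  simp only [Key.toL, toLex_inj, Prod.mk.injEq] at h
  obtain ⟨h1, h2⟩ := code_inj _ _ _ _ h.1
  exact Key.ext h1 h2 h.2

noncomputable instance : LinearOrder Key := LinearOrder.lift' Key.toL Key.toL_inj

theorem Key.lt_iff (a b : Key) : a < b ↔ code a.x a.cl < code b.x b.cl ∨
    (a.x = b.x ∧ a.cl = b.cl ∧ a.e < b.e) := by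
  change a.toL < b.toL ↔ _
  simp only [Key.toL, Prod.Lex.toLex_lt_toLex]
  constructor
  · rintro (h | h)
    · exact Or.inl h
    · exact Or.inr ⟨(code_inj _ _ _ _ h.1).1, (code_inj _ _ _ _ h.1).2, h.2⟩
  · rintro (h | h)
    · exact Or.inl h
    · exact Or.inr ⟨by rw [h.1, h.2.1], h.2.2⟩

theorem lt_lev (x : Pth) (c : Bool) {e e' : ℕ} (h : e < e') : (⟨x, c, e⟩ : Key) < ⟨x, c, e'⟩ :=
  (Key.lt_iff _ _).mpr (Or.inr ⟨rfl, rfl, h⟩)

theorem lt_oc (x : Pth) (e e' : ℕ) : (⟨x, false, e⟩ : Key) < ⟨x, true, e'⟩ :=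
  (Key.lt_iff _ _).mpr (Or.inl (code_lt_self x))

theorem open_lt {x : Pth} {k : Key} (h : x <+: k.x) (h' : x ≠ k.x) (e : ℕ) :
    (⟨x, false, e⟩ : Key) < k :=
  (Key.lt_iff _ _).mpr (Or.inl (code_lt_of_pre x k.x k.cl h h').1)

theorem lt_close {x : Pth} {k : Key} (h : x <+: k.x) (h' : x ≠ k.x) (e : ℕ) :
    k < (⟨x, true, e⟩ : Key) :=
  (Key.lt_iff _ _).mpr (Or.inl (code_lt_of_pre x k.x k.cl h h').2)

theorem succ_le {x : Pth} {c : Bool} {e : ℕ} {k : Key} (h : (⟨x, c, e⟩ : Key) < k) :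
    (⟨x, c, e + 1⟩ : Key) ≤ k := by
  rw [← not_lt]
  intro h'
  rw [Key.lt_iff] at h h'
  simp only at h h'
  rcases h with h | h <;> rcases h' with h' | h'
  · exact lt_asymm h h'
  · rw [h'.1, h'.2.1] at h; exact lt_irrefl _ h
  · rw [h.1, h.2.1] at h'; exact lt_irrefl _ h'
  · omega

theorem between {x : Pth} {e e' : ℕ} {k : Key} (h1 : (⟨x, false, e⟩ : Key) < k)
    (h2 : k < ⟨x, true, e'⟩) : (x <+: k.x ∧ x ≠ k.x) ∨
      (k.x = x ∧ ((k.cl = false ∧ e < k.e) ∨ (k.cl = true ∧ k.e < e'))) := by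
  rw [Key.lt_iff] at h1 h2
  simp only at h1 h2
  rcases h1 with h1 | h1 <;> rcases h2 with h2 | h2
  · exact Or.inl (pre_of_code_lt _ _ _ h1 h2)
  · exact Or.inr ⟨h2.1, Or.inr ⟨h2.2.1, h2.2.2⟩⟩
  · exact Or.inr ⟨h1.1.symm, Or.inl ⟨h1.2.1.symm, h1.2.2⟩⟩
  · rw [← h1.2.1] at h2; simp at h2

theorem between_pre {x : Pth} {e e' : ℕ} {k : Key} (h1 : (⟨x, false, e⟩ : Key) < k)
    (h2 : k < ⟨x, true, e'⟩) : x <+: k.x := by
  rcases between h1 h2 with h | h
  · exact h.1
  · rw [h.1]

theorem len_lt_of_pre {x y : Pth} (h : x <+: y) (h' : x ≠ y) : x.length < y.length :=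
  lt_of_le_of_ne h.length_le fun e => h' (h.eq_of_length e)

/-- finite, closed under initial segments, and every internal node has all four children -/
structure TreeOK (T : Set Pth) : Prop where
  fin : T.Finite
  root : [] ∈ T
  pre : ∀ x y, x <+: y → y ∈ T → x ∈ T
  full : ∀ x a b, x ++ [a] ∈ T → x ++ [b] ∈ T

def lev (T : Set Pth) (x : Pth) : ℕ → Prop
  | 0 => x ∈ T
  | c + 1 => 2 ^ (c + 1) ∣ x.length ∧ ∃ y ∈ T, x <+: y ∧ x.length + 3 * 2 ^ c ≤ y.length

def keys (T : Set Pth) : Set Key := {k | lev T k.x k.e}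

theorem mem_keys {T : Set Pth} {k : Key} : k ∈ keys T ↔ lev T k.x k.e := Iff.rfl

theorem lev_pred {T : Set Pth} (hT : TreeOK T) {x : Pth} {e : ℕ} (h : lev T x (e + 1)) :
    lev T x e := by
  obtain ⟨h1, y, hy, h2, h3⟩ := h
  cases e with
  | zero => exact hT.pre x y h2 hy
  | succ c =>
    refine ⟨(pow_dvd_pow 2 (by omega)).trans h1, y, hy, h2, ?_⟩
    rw [pow_succ] at h3
    omega

theorem lev_le {T : Set Pth} (hT : TreeOK T) {x : Pth} {e e' : ℕ} (h : lev T x e) (he : e' ≤ e) :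
    lev T x e' := by
  induction he with
  | refl => exact h
  | step _ ih => exact ih (lev_pred hT h)

theorem lev_mem {T : Set Pth} (hT : TreeOK T) {x : Pth} {e : ℕ} (h : lev T x e) : x ∈ T :=
  lev_le hT h (Nat.zero_le _)

theorem lev_dvd {T : Set Pth} {x : Pth} {e : ℕ} (h : lev T x e) : 2 ^ e ∣ x.length := by
  cases e with
  | zero => simp
  | succ c => exact h.1

theorem lev_root {T : Set Pth} (hT : TreeOK T) {x : Pth} {e : ℕ} (h : lev T x e) :
    lev T [] e := by
  cases e with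
  | zero => exact hT.root
  | succ c =>
    obtain ⟨_, y, hy, h2, h3⟩ := h
    exact ⟨by simp, y, hy, List.nil_prefix, by simp; omega⟩

theorem keys_finite {T : Set Pth} (hT : TreeOK T) : (keys T).Finite := by
  obtain ⟨N, hN⟩ := (hT.fin.image List.length).bddAbove
  refine ((hT.fin.prod ((Set.finite_univ (α := Bool)).prod (Set.finite_le_nat N))).image
    fun p => (⟨p.1, p.2.1, p.2.2⟩ : Key)).subset ?_
  intro k hk
  refine ⟨(k.x, k.cl, k.e), ⟨lev_mem hT hk, trivial, ?_⟩, rfl⟩
  rw [mem_keys] at hk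
  show k.e ≤ N
  cases h : k.e with
  | zero => omega
  | succ c =>
    rw [h] at hk
    obtain ⟨_, y, hy, _, h3⟩ := hk
    have := hN ⟨y, hy, rfl⟩
    have := Nat.lt_two_pow_self (n := c)
    omega

theorem band {T : Set Pth} (hT : TreeOK T) {k b : Key} (hk : k ∈ keys T)
    (hb : IsNx (keys T) (fun c => c.e = k.e + 1) k b) :
    b.x.length ≤ k.x.length + 2 * 2 ^ k.e ∧ k.x.length < b.x.length + 5 * 2 ^ k.e := by
  have hpos : 0 < 2 ^ k.e := by positivity
  by_cases hP : lev T k.x (k.e + 1)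
  · have : b = ⟨k.x, k.cl, k.e + 1⟩ :=
      hb.unique ⟨hP, lt_lev _ _ (by omega), rfl, fun c _ h _ => succ_le h⟩
    rw [this]
    simp only
    omega
  obtain ⟨hb1, hb2, hb3, hb4⟩ := hb
  have hbl : lev T b.x (k.e + 1) := by rw [← hb3]; exact hb1
  have hroot : lev T [] (k.e + 1) := lev_root hT hbl
  have hy : k.x ∈ T := lev_mem hT hk
  set n := Nat.findGreatest (fun n => lev T (k.x.take n) (k.e + 1)) k.x.length with hn
  have hn1 : lev T (k.x.take n) (k.e + 1) :=
    Nat.findGreatest_spec (P := fun n => lev T (k.x.take n) (k.e + 1)) (Nat.zero_le _)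
      (by simpa using hroot)
  have hn2 : n ≤ k.x.length := Nat.findGreatest_le _
  have hn3 : ∀ w, w <+: k.x → lev T w (k.e + 1) → w.length ≤ n := by
    intro w hw hl
    refine Nat.le_findGreatest hw.length_le ?_
    rwa [← List.prefix_iff_eq_take.mp hw]
  have hal : (k.x.take n).length = n := by simp [hn2]
  have ha : k.x.take n <+: k.x := List.take_prefix _ _
  have hne : k.x.take n ≠ k.x := fun e => hP (by rwa [e] at hn1)
  have hnl : n < k.x.length := by have := len_lt_of_pre ha hne; omega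
  have hd : 2 ^ (k.e + 1) ∣ n := by have := hn1.1; rwa [hal] at this
  have h5 : k.x.length < n + 5 * 2 ^ k.e := by
    by_contra hc
    have hl : (k.x.take (n + 2 ^ (k.e + 1))).length = n + 2 ^ (k.e + 1) := by
      rw [List.length_take, pow_succ]; omega
    have := hn3 (k.x.take (n + 2 ^ (k.e + 1))) (List.take_prefix _ _)
      ⟨by rw [hl]; exact dvd_add hd dvd_rfl, k.x, hy, List.take_prefix _ _, by
        rw [hl, pow_succ]; omega⟩
    rw [hl, pow_succ] at this
    omega
  have hle : b ≤ ⟨k.x.take n, true, k.e + 1⟩ := hb4 _ hn1 (lt_close ha hne _) rfl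
  have hpre : k.x.take n <+: b.x :=
    between_pre ((open_lt ha hne 0).trans hb2) (hle.trans_lt (lt_lev _ _ (Nat.lt_succ_self _)))
  have hge : n ≤ b.x.length := by have := hpre.length_le; omega
  have hup : b.x.length ≤ n + 2 * 2 ^ k.e := by
    by_contra hc
    obtain ⟨i, hi⟩ := hd
    obtain ⟨j, hj⟩ := hbl.1
    have hE : 2 ^ (k.e + 1) = 2 * 2 ^ k.e := by rw [pow_succ]; omega
    have hij : i + 1 < j := by
      have : 2 ^ (k.e + 1) * (i + 1) < 2 ^ (k.e + 1) * j := by
        rw [mul_add, ← hi, ← hj]; omega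
      exact lt_of_mul_lt_mul_left this (Nat.zero_le _)
    have h2 : n + 2 * 2 ^ (k.e + 1) ≤ b.x.length := by
      have : 2 ^ (k.e + 1) * (i + 2) ≤ 2 ^ (k.e + 1) * j := Nat.mul_le_mul_left _ hij
      rw [mul_add, ← hi, ← hj] at this
      omega
    set w := b.x.take (b.x.length - 2 ^ (k.e + 1)) with hw
    have hwl : w.length = b.x.length - 2 ^ (k.e + 1) := by rw [hw, List.length_take]; omega
    have hwp : w <+: b.x := List.take_prefix _ _
    have hwn : w ≠ b.x := fun e => by rw [e] at hwl; omega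
    have hwP : lev T w (k.e + 1) := by
      obtain ⟨h1, y, hy1, hy2, hy3⟩ := hbl
      exact ⟨by rw [hwl]; exact Nat.dvd_sub h1 dvd_rfl, y, hy1, hwp.trans hy2, by omega⟩
    have h3 : (⟨w, false, k.e + 1⟩ : Key) < k := by
      rcases lt_trichotomy (⟨w, false, k.e + 1⟩ : Key) k with h | h | h
      · exact h
      · have := congrArg Key.e h
        simp at this
      · exact absurd (hb4 _ hwP h rfl) (not_le.mpr (open_lt hwp hwn _))
    have := hn3 w (between_pre h3 (hb2.trans (lt_close hwp hwn 0))) hwP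
    omega
  omega

theorem no_next {T : Set Pth} (hT : TreeOK T) {k : Key} {e : ℕ} (hke : k.e < e + 1)
    (h : ¬ ∃ b, IsNx (keys T) (fun c => c.e = e + 1) k b) : ∀ y ∈ T, y.length < 3 * 2 ^ e := by
  intro y hy
  by_contra hc
  have h1 : lev T [] (e + 1) := ⟨by simp, y, hy, List.nil_prefix, by simp; omega⟩
  have h2 : k < ⟨[], true, e + 1⟩ := by
    by_cases hx : [] = k.x
    · obtain ⟨x, c, e'⟩ := k
      simp only at hx hke
      subst hx
      cases c
      · exact lt_oc _ _ _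
      · exact lt_lev _ _ hke
    · exact lt_close List.nil_prefix hx _
  obtain ⟨b, hb, -⟩ := exists_isNx (keys_finite hT) (P := fun c => c.e = e + 1)
    (c := ⟨[], true, e + 1⟩) h1 h2 rfl
  exact h ⟨b, hb⟩

/-! arithmetic -/

def rd (e D : ℕ) : ℕ := (2 * D + 2 ^ e) / 2 ^ (e + 1)

def Qv (e h D : ℕ) : ℤ := ((h / 2 ^ e : ℕ) : ℤ) - (rd e D : ℤ)

theorem rd_bounds (e D : ℕ) :
    2 * (2 ^ e * rd e D) ≤ 2 * D + 2 ^ e ∧ 2 * D + 2 ^ e < 2 * (2 ^ e * rd e D) + 2 * 2 ^ e := by
  have h1 := Nat.div_add_mod (2 * D + 2 ^ e) (2 ^ (e + 1))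
  have h2 := Nat.mod_lt (2 * D + 2 ^ e) (show 2 ^ (e + 1) > 0 by positivity)
  have h3 : 2 ^ (e + 1) * ((2 * D + 2 ^ e) / 2 ^ (e + 1)) = 2 * (2 ^ e * rd e D) := by
    unfold rd; rw [pow_succ]; ring
  have h4 : 2 ^ (e + 1) = 2 * 2 ^ e := by rw [pow_succ]; ring
  omega

theorem rd_eq {e D r : ℕ} (h1 : 2 * (2 ^ e * r) ≤ 2 * D + 2 ^ e)
    (h2 : 2 * D + 2 ^ e < 2 * (2 ^ e * r) + 2 * 2 ^ e) : rd e D = r := by
  obtain ⟨h3, h4⟩ := rd_bounds e D
  have hp : 0 < 2 ^ e := by positivity
  apply le_antisymm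
  · have : 2 ^ e * rd e D < 2 ^ e * (r + 1) := by rw [mul_add]; omega
    have := lt_of_mul_lt_mul_left this (Nat.zero_le _)
    omega
  · have : 2 ^ e * r < 2 ^ e * (rd e D + 1) := by rw [mul_add]; omega
    have := lt_of_mul_lt_mul_left this (Nat.zero_le _)
    omega

theorem rd_zero (D : ℕ) : rd 0 D = D := rd_eq (by simp) (by simp)

theorem Qv_zero (h D : ℕ) : Qv 0 h D = (h : ℤ) - D := by simp [Qv, rd_zero]

theorem rd_mul (e m : ℕ) : rd e (2 ^ e * m) = m := by
  have hp : 0 < 2 ^ e := by positivity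
  exact rd_eq (by omega) (by omega)

theorem rd_near (e D : ℕ) : rd e D ≤ 2 * rd (e + 1) D + 1 ∧ 2 * rd (e + 1) D ≤ rd e D + 1 := by
  obtain ⟨h1, h2⟩ := rd_bounds e D
  obtain ⟨h3, h4⟩ := rd_bounds (e + 1) D
  have hp : 0 < 2 ^ e := by positivity
  have e1 : 2 ^ (e + 1) * rd (e + 1) D = 2 * (2 ^ e * rd (e + 1) D) := by rw [pow_succ]; ring
  have e2 : 2 ^ (e + 1) = 2 * 2 ^ e := by rw [pow_succ]; ring
  rw [e1, e2] at h3 h4
  constructor
  · have : 2 ^ e * rd e D < 2 ^ e * (2 * rd (e + 1) D + 2) := by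
      rw [mul_add, Nat.mul_left_comm]; omega
    have := lt_of_mul_lt_mul_left this (Nat.zero_le _)
    omega
  · have : 2 ^ e * (2 * rd (e + 1) D) < 2 ^ e * (rd e D + 2) := by
      rw [mul_add, Nat.mul_left_comm]; omega
    have := lt_of_mul_lt_mul_left this (Nat.zero_le _)
    omega

theorem Qv_band {e h h' D : ℕ} (d1 : 2 ^ e ∣ h) (d2 : 2 ^ (e + 1) ∣ h')
    (b1 : h' ≤ h + 2 * 2 ^ e) (b2 : h < h' + 5 * 2 ^ e) :
    -3 ≤ Qv e h D - 2 * Qv (e + 1) h' D ∧ Qv e h D - 2 * Qv (e + 1) h' D ≤ 5 := by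
  obtain ⟨i, rfl⟩ := d1
  obtain ⟨j, rfl⟩ := d2
  have hp : 0 < 2 ^ e := by positivity
  have e1 : 2 ^ (e + 1) * j = 2 ^ e * (2 * j) := by rw [pow_succ]; ring
  have c1 : 2 * j ≤ i + 2 := by
    have : 2 ^ e * (2 * j) ≤ 2 ^ e * (i + 2) := by rw [mul_add]; omega
    exact le_of_mul_le_mul_left this hp
  have c2 : i < 2 * j + 5 := by
    have : 2 ^ e * i < 2 ^ e * (2 * j + 5) := by rw [mul_add]; omega
    exact lt_of_mul_lt_mul_left this (Nat.zero_le _)
  have := rd_near e D
  unfold Qv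
  rw [Nat.mul_div_cancel_left _ hp, Nat.mul_div_cancel_left _ (by positivity)]
  omega

theorem Qv_small {e h D : ℕ} (b1 : h < 3 * 2 ^ e) (b2 : D ≤ 3 * 2 ^ e) : |Qv e h D| ≤ 4 := by
  have hp : 0 < 2 ^ e := by positivity
  have c1 : h / 2 ^ e < 3 := (Nat.div_lt_iff_lt_mul hp).mpr b1
  have c2 : rd e D < 4 := by
    have : 2 ^ e * rd e D < 2 ^ e * 4 := by have := (rd_bounds e D).1; omega
    exact lt_of_mul_lt_mul_left this (Nat.zero_le _)
  unfold Qv
  rw [abs_le]
  generalize h / 2 ^ e = m at c1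
  omega

/-- `ν` is the dyadic valuation of `n` -/
def IsVal (n ν : ℕ) : Prop := ∃ t, n = 2 ^ ν * (2 * t + 1)

theorem exists_val (n : ℕ) : ∃ ν, IsVal (n + 1) ν := by
  obtain ⟨k, m, hm, e⟩ := Nat.exists_eq_two_pow_mul_odd (n := n + 1) (by omega)
  obtain ⟨t, rfl⟩ := hm
  exact ⟨k, t, e⟩

theorem IsVal.dvd_iff {n ν : ℕ} (h : IsVal n ν) (e : ℕ) : 2 ^ e ∣ n ↔ e ≤ ν := by
  obtain ⟨t, rfl⟩ := h
  constructor
  · intro hd
    by_contra hc
    have h1 : 2 ^ ν * 2 ∣ 2 ^ ν * (2 * t + 1) := by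
      rw [← pow_succ]
      exact (pow_dvd_pow 2 (by omega)).trans hd
    have := Nat.dvd_of_mul_dvd_mul_left (by positivity) h1
    omega
  · intro he
    exact (pow_dvd_pow 2 he).trans (Dvd.intro _ rfl)

theorem IsVal.bit_hi {n ν : ℕ} (h : IsVal n ν) {e : ℕ} (he : e ≤ ν) :
    (n / 2 ^ e) % 2 = 1 ↔ e = ν := by
  obtain ⟨t, rfl⟩ := h
  obtain ⟨d, rfl⟩ := Nat.exists_eq_add_of_le he
  rw [pow_add, mul_assoc, Nat.mul_div_cancel_left _ (by positivity)]
  cases d with
  | zero => simp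
  | succ d =>
    rw [pow_succ, mul_comm _ 2, mul_assoc]
    omega

theorem IsVal.div_succ {n ν : ℕ} (h : IsVal (n + 1) ν) (e : ℕ) :
    (n + 1) / 2 ^ e = n / 2 ^ e + if e ≤ ν then 1 else 0 := by
  rw [Nat.succ_div]
  simp only [h.dvd_iff]

theorem IsVal.rd_succ {n ν : ℕ} (h : IsVal (n + 1) ν) (e : ℕ) :
    rd e (n + 1) = rd e n + if e = 0 ∨ e = ν + 1 then 1 else 0 := by
  cases e with
  | zero => simp [rd_zero]
  | succ c =>
    have e1 : ∀ D, rd (c + 1) D = (D + 2 ^ c) / 2 ^ (c + 1) := by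
      intro D
      unfold rd
      rw [pow_succ 2 (c + 1), mul_comm (2 ^ (c + 1)) 2,
        show 2 * D + 2 ^ (c + 1) = 2 * (D + 2 ^ c) by rw [pow_succ]; ring,
        Nat.mul_div_mul_left _ _ (by norm_num)]
    rw [e1, e1, show n + 1 + 2 ^ c = n + 2 ^ c + 1 by ring, Nat.succ_div]
    have : 2 ^ (c + 1) ∣ n + 2 ^ c + 1 ↔ c = ν := by
      constructor
      · intro hd
        have h1 : 2 ^ c ∣ n + 1 := by
          have := (pow_dvd_pow 2 (Nat.le_succ c)).trans hd
          rw [show n + 2 ^ c + 1 = n + 1 + 2 ^ c by ring] at this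
          exact (Nat.dvd_add_left dvd_rfl).mp this
        have h2 : ¬ 2 ^ (c + 1) ∣ n + 1 := by
          intro h3
          rw [show n + 2 ^ c + 1 = n + 1 + 2 ^ c by ring] at hd
          have := Nat.le_of_dvd (by positivity) ((Nat.dvd_add_right h3).mp hd)
          rw [pow_succ] at this
          have : 0 < 2 ^ c := by positivity
          omega
        rw [h.dvd_iff] at h1 h2
        omega
      · rintro rfl
        obtain ⟨t, ht⟩ := h
        exact ⟨t + 1, by rw [show n + 2 ^ c + 1 = n + 1 + 2 ^ c by ring, ht, pow_succ]; ring⟩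
    simp [this]

end Pool.Agent.H542Z.PF
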