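import Mathlib
import Pool.Agent.H542Z.PFTree

/-! The letters, the counter update and the moves of the focus. -/

set_option autoImplicit false

namespace Pool.Agent.H542Z.PF

open Classical

noncomputable def sel {α : Type} (c : Prop) (a b : α) : α := if c then a else b

theorem sel_pos {α : Type} {c : Prop} (h : c) {a b : α} : sel c a b = a := if_pos h

theorem sel_neg {α : Type} {c : Prop} (h : ¬ c) {a b : α} : sel c a b = b := if_neg h

@[ext] structure Ltr where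
  hd : Prop
  cl : Bool
  lab : Option (Fin 4)
  lamp : Prop
  foc : Prop
  bit : Prop
  aw : Prop
  res : ZMod 16

instance : Finite Ltr :=
  Finite.of_injective (fun l : Ltr => (l.hd, l.cl, l.lab, l.lamp, l.foc, l.bit, l.aw, l.res)) (by
    intro a b h
    simp only [Prod.mk.injEq] at h
    obtain ⟨h1, h2, h3, h4, h5, h6, h7, h8⟩ := h
    exact Ltr.ext h1 h2 h3 h4 h5 h6 h7 h8)

def ltr (Λ : Set Pth) (v : Pth) (D : ℕ) (k : Key) : Ltr where
  hd := k.e = 0
  cl := k.cl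
  lab := k.x.getLast?
  lamp := k.e = 0 ∧ k.cl = false ∧ k.x ∈ Λ
  foc := k = ⟨v, false, 0⟩
  bit := (D / 2 ^ k.e) % 2 = 1
  aw := |Qv k.e k.x.length D| ≤ 4
  res := (Qv k.e k.x.length D : ZMod 16)

noncomputable def enc (T Λ : Set Pth) (v : Pth) (D : ℕ) : List Ltr := W (keys T) (ltr Λ v D)

def Ltr.isAt (l : Ltr) (r : ℤ) : Prop := l.aw ∧ l.res = (r : ZMod 16)

theorem cast_eq {a b : ℤ} (h : (a : ZMod 16) = b) : (16 : ℤ) ∣ b - a :=
  (ZMod.intCast_eq_intCast_iff_dvd_sub a b 16).mp h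

theorem isAt_iff (Λ : Set Pth) (v : Pth) (D : ℕ) (k : Key) {r : ℤ} (h1 : -4 ≤ r) (h2 : r ≤ 4) :
    (ltr Λ v D k).isAt r ↔ Qv k.e k.x.length D = r := by
  simp only [Ltr.isAt, ltr, abs_le]
  constructor
  · rintro ⟨h3, h4⟩
    have := cast_eq h4
    omega
  · intro h
    rw [h]
    exact ⟨⟨h1, h2⟩, rfl⟩

theorem hdAt_iff (Λ : Set Pth) (v : Pth) (D : ℕ) (k : Key) {r : ℤ} (h1 : -4 ≤ r) (h2 : r ≤ 4) :
    ((ltr Λ v D k).hd ∧ (ltr Λ v D k).isAt r) ↔ (k.e = 0 ∧ (k.x.length : ℤ) - D = r) := by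
  rw [isAt_iff Λ v D k h1 h2]
  refine and_congr_right fun h : k.e = 0 => ?_
  rw [h, Qv_zero]

@[ext] structure Tag where
  le : Prop
  lt : Prop
  pv : Prop
  a1 : Prop
  a2 : Prop
  hd : Prop
  l1 : Prop

instance : Finite Tag :=
  Finite.of_injective (fun l : Tag => (l.le, l.lt, l.pv, l.a1, l.a2, l.hd, l.l1)) (by
    intro a b h
    simp only [Prod.mk.injEq] at h
    obtain ⟨h1, h2, h3, h4, h5, h6, h7⟩ := h
    exact Tag.ext h1 h2 h3 h4 h5 h6 h7)

def tag (ν : ℕ) (k : Key) : Tag :=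
  ⟨k.e ≤ ν, k.e < ν, k.e = ν, k.e = ν + 1, k.e = ν + 2, k.e = 0, k.e = 1⟩

def tagStep (pol : Prop) (q : Tag) (l : Ltr) : Tag :=
  ⟨l.hd ∨ q.lt, (l.hd ∨ q.lt) ∧ ¬ (l.bit ↔ pol), (l.hd ∨ q.lt) ∧ (l.bit ↔ pol),
    ¬ l.hd ∧ q.pv, ¬ l.hd ∧ q.a1, l.hd, ¬ l.hd ∧ q.hd⟩

section
variable {σ : Type} {T : σ → Set Pth} (Λ : σ → Set Pth) (v : σ → Pth)

theorem tagPass (hT : ∀ s, TreeOK (T s)) (D ν : σ → ℕ) (pol : Prop)
    (hb : ∀ s e, e ≤ ν s → (((D s / 2 ^ e) % 2 = 1 ↔ pol) ↔ e = ν s)) :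
    Tr (fun s => enc (T s) (Λ s) (v s) (D s))
      (fun s => W (keys (T s)) fun k => (ltr (Λ s) (v s) (D s) k, tag (ν s) k)) := by
  refine Tr.lr (fun s => keys_finite (hT s)) _ _
    (fun q l => (tagStep pol q l, (l, tagStep pol q l))) (tag 0 ⟨[], false, 0⟩)
    (fun s k q => q = tag (ν s) k) ?_
  intro s k hk q hq
  have : tagStep pol q (ltr (Λ s) (v s) (D s) k) = tag (ν s) k := by
    obtain ⟨x, c, e⟩ := k
    cases e with
    | zero =>
      have := hb s 0 (Nat.zero_le _)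
      ext <;> simp only [tagStep, tag, ltr, true_or, true_and, not_true, false_and, this,
        true_iff, false_iff] <;> omega
    | succ e =>
      have h1 : (⟨x, c, e⟩ : Key) ∈ keys (T s) := lev_pred (hT s) hk
      have h2 : (⟨x, c, e⟩ : Key) < ⟨x, c, e + 1⟩ := lt_lev _ _ (by omega)
      have hq' : q = tag (ν s) ⟨x, c, e⟩ := by
        rcases hq with ⟨_, h⟩ | ⟨b, hb1, hb2, hb3, hb4⟩
        · exact absurd h2 (h _ h1)
        · rcases (hb3 _ h1 h2).eq_or_lt with h | h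
          · rw [hb4, h]
          · exact absurd (succ_le h) (not_le.mpr hb2)
      subst hq'
      by_cases he : e + 1 ≤ ν s
      · have := hb s (e + 1) he
        ext <;> simp only [tagStep, tag, ltr, this] <;> omega
      · ext <;> simp only [tagStep, tag, ltr] <;> omega
  exact ⟨this, by rw [this]⟩

end

def Fz (r : ZMod 16) (a : Prop) (r' : ZMod 16) : Prop :=
  a ∧ ∃ q q' : ℤ, |q| ≤ 4 ∧ |q'| ≤ 4 ∧ -3 ≤ q - 2 * q' ∧ q - 2 * q' ≤ 5 ∧
    (q : ZMod 16) = r ∧ (q' : ZMod 16) = r'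

theorem Fz_iff {Q Q' : ℤ} (h1 : -3 ≤ Q - 2 * Q') (h2 : Q - 2 * Q' ≤ 5) :
    Fz Q (|Q'| ≤ 4) Q' ↔ |Q| ≤ 4 := by
  simp only [Fz, abs_le]
  constructor
  · rintro ⟨h3, q, q', h4, h5, h6, h7, h8, h9⟩
    have := cast_eq h8
    have := cast_eq h9
    omega
  · intro h
    exact ⟨by omega, Q, Q', h, by omega, h1, h2, rfl, rfl⟩

theorem aw_iff {T : Set Pth} (hT : TreeOK T) {k : Key} (hk : k ∈ keys T) {D : ℕ}
    (hD : ∃ y ∈ T, D ≤ y.length + 1) :
    (¬ ∃ b, IsNx (keys T) (fun c => c.e = k.e + 1) k b ∧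
      ¬ Fz (Qv k.e k.x.length D) (|Qv b.e b.x.length D| ≤ 4) (Qv b.e b.x.length D)) ↔
      |Qv k.e k.x.length D| ≤ 4 := by
  by_cases h : ∃ b, IsNx (keys T) (fun c => c.e = k.e + 1) k b
  · obtain ⟨b, hb⟩ := h
    have h1 := band hT hk hb
    have h2 : b.e = k.e + 1 := hb.2.2.1
    have h3 := Qv_band (D := D) (lev_dvd hk) (h2 ▸ lev_dvd hb.1) h1.1 h1.2
    rw [← h2] at h3
    rw [← Fz_iff h3.1 h3.2]
    constructor
    · intro h4
      by_contra h5
      exact h4 ⟨b, hb, h5⟩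
    · rintro h4 ⟨c, hc, h5⟩
      rw [← hb.unique hc] at h5
      exact h5 h4
  · have h1 := no_next hT (Nat.lt_succ_self _) h
    obtain ⟨y, hy, hy'⟩ := hD
    have := h1 y hy
    refine ⟨fun _ => Qv_small (h1 _ (lev_mem hT hk)) (by omega), ?_⟩
    rintro - ⟨b, hb, -⟩
    exact h ⟨b, hb⟩

section
variable {σ : Type} {T : σ → Set Pth} (Λ : σ → Set Pth) (v : σ → Pth)

theorem counter_aux (hT : ∀ s, TreeOK (T s)) (D D' ν : σ → ℕ) (pol : Prop) (η : ℤ)
    (hb : ∀ s e, e ≤ ν s → (((D s / 2 ^ e) % 2 = 1 ↔ pol) ↔ e = ν s))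
    (hb' : ∀ s e, (D' s / 2 ^ e) % 2 = 1 ↔
      sel (e ≤ ν s) (¬ (D s / 2 ^ e) % 2 = 1) ((D s / 2 ^ e) % 2 = 1))
    (hQ : ∀ s e h, Qv e h (D' s) = Qv e h (D s) + sel (e = 0 ∨ e = ν s + 1) η 0)
    (hD : ∀ s, ∃ y ∈ T s, D' s ≤ y.length + 1) :
    Tr (fun s => enc (T s) (Λ s) (v s) (D s)) (fun s => enc (T s) (Λ s) (v s) (D' s)) := by
  have fin := fun s => keys_finite (hT s)
  refine (tagPass Λ v hT D ν pol hb).trans ?_
  refine (Tr.pt fin _ (fun s k => (({ ltr (Λ s) (v s) (D' s) k with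
      aw := |Qv k.e k.x.length (D s)| ≤ 4 } : Ltr), tag (ν s) k))
    (fun a => ({ a.1 with
      bit := sel a.2.le (¬ a.1.bit) a.1.bit
      res := a.1.res + ((sel (a.2.hd ∨ a.2.a1) η 0 : ℤ) : ZMod 16) }, a.2)) ?_).trans ?_
  · intro s k _
    refine Prod.ext (Ltr.ext rfl rfl rfl rfl rfl ?_ rfl ?_) rfl
    · simp only [ltr, tag, eq_iff_iff]
      rw [hb']
    · simp only [ltr, tag]
      rw [hQ, Int.cast_add]
  refine (Tr.next fin _ (fun a => a.2.a2) (fun a b => ¬ Fz a.1.res b.1.aw b.1.res)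
    (fun a x => (({ a.1 with aw := sel a.2.a1 (¬ x) a.1.aw } : Ltr), a.2))
    (fun s k => (({ ltr (Λ s) (v s) (D' s) k with
      aw := sel (k.e = 0) (|Qv k.e k.x.length (D s)| ≤ 4)
        (|Qv k.e k.x.length (D' s)| ≤ 4) } : Ltr), tag (ν s) k)) ?_).trans ?_
  · intro s k hk
    refine Prod.ext (Ltr.ext rfl rfl rfl rfl rfl rfl ?_ rfl) rfl
    simp only [ltr, tag, eq_iff_iff]
    by_cases h1 : k.e = ν s + 1
    · rw [sel_pos h1, sel_neg (by omega), ← aw_iff (hT s) hk (hD s)]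
      refine not_congr (exists_congr fun b => ?_)
      rw [h1]
      refine and_congr_right fun hb => ?_
      have h2 : b.e = ν s + 2 := hb.2.2.1
      rw [hQ s b.e, sel_neg (by omega), add_zero]
    · rw [sel_neg h1]
      by_cases h2 : k.e = 0
      · rw [sel_pos h2]
      · rw [sel_neg h2, hQ, sel_neg (by omega), add_zero]
  refine Tr.next fin _ (fun a => a.2.l1) (fun a b => ¬ Fz a.1.res b.1.aw b.1.res)
    (fun a x => ({ a.1 with aw := sel a.1.hd (¬ x) a.1.aw } : Ltr)) _ ?_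
  intro s k hk
  refine Ltr.ext rfl rfl rfl rfl rfl rfl ?_ rfl
  simp only [ltr, tag, eq_iff_iff]
  by_cases h1 : k.e = 0
  · rw [sel_pos h1, ← aw_iff (hT s) hk (hD s)]
    refine not_congr (exists_congr fun b => ?_)
    rw [h1]
    refine and_congr_right fun hb => ?_
    have h2 : b.e = 1 := hb.2.2.1
    rw [sel_neg (by omega)]
  · rw [sel_neg h1, sel_neg h1]

theorem counter_up (hT : ∀ s, TreeOK (T s)) (D : σ → ℕ) (hD : ∀ s, ∃ y ∈ T s, D s ≤ y.length) :
    Tr (fun s => enc (T s) (Λ s) (v s) (D s)) (fun s => enc (T s) (Λ s) (v s) (D s + 1)) := by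
  choose ν hν using fun s => exists_val (D s)
  refine counter_aux Λ v hT D (fun s => D s + 1) ν False (-1) ?_ ?_ ?_ ?_
  · intro s e he
    rw [← (hν s).bit_hi he, (hν s).div_succ, if_pos he, iff_false]
    omega
  · intro s e
    rw [(hν s).div_succ]
    split_ifs with h
    · rw [sel_pos h]; omega
    · rw [sel_neg h]; omega
  · intro s e h
    unfold Qv
    rw [(hν s).rd_succ]
    split_ifs with h
    · rw [sel_pos h]; omega
    · rw [sel_neg h]; omega
  · intro s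
    obtain ⟨y, hy, h⟩ := hD s
    exact ⟨y, hy, by omega⟩

theorem counter_down (hT : ∀ s, TreeOK (T s)) (D : σ → ℕ)
    (hD : ∀ s, ∃ y ∈ T s, D s ≤ y.length) :
    Tr (fun s => enc (T s) (Λ s) (v s) (D s + 1)) (fun s => enc (T s) (Λ s) (v s) (D s)) := by
  choose ν hν using fun s => exists_val (D s)
  refine counter_aux Λ v hT (fun s => D s + 1) D ν True 1 ?_ ?_ ?_ ?_
  · intro s e he
    rw [← (hν s).bit_hi he, iff_true]
  · intro s e
    rw [(hν s).div_succ]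
    split_ifs with h
    · rw [sel_pos h]; omega
    · rw [sel_neg h]; omega
  · intro s e h
    unfold Qv
    rw [(hν s).rd_succ]
    split_ifs with h
    · rw [sel_pos h]; omega
    · rw [sel_neg h]; omega
  · intro s
    obtain ⟨y, hy, h⟩ := hD s
    exact ⟨y, hy, by omega⟩

end

theorem child_iff {T : Set Pth} {v : Pth} (hv : v ∈ T) {k : Key}
    (hl : k.x.length = v.length + 1) :
    IsPv (keys T) (fun c => c.e = 0 ∧ c.x.length = v.length) k ⟨v, false, 0⟩ ↔ v <+: k.x := by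
  constructor
  · rintro ⟨-, h1, -, h2⟩
    refine between_pre h1 (e' := 0) ?_
    rcases lt_trichotomy k ⟨v, true, 0⟩ with h | h | h
    · exact h
    · rw [h] at hl
      simp at hl
    · exact absurd (h2 ⟨v, true, 0⟩ hv h ⟨rfl, rfl⟩) (not_le.mpr (lt_oc _ _ _))
  · intro h
    have hne : v ≠ k.x := fun e => by rw [← e] at hl; omega
    refine ⟨hv, open_lt h hne _, ⟨rfl, rfl⟩, fun c _ h1 h2 => ?_⟩
    by_contra h3
    rcases between (not_le.mp h3) (h1.trans (lt_close h hne 0)) with h4 | h4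
    · have := len_lt_of_pre h4.1 h4.2
      omega
    · omega

theorem pv_foc_iff (T Λ : Set Pth) (v : Pth) (k : Key) :
    (∃ b, IsPv (keys T) (fun c => (ltr Λ v (v.length + 1) c).hd ∧
      (ltr Λ v (v.length + 1) c).isAt (-1)) k b ∧ (ltr Λ v (v.length + 1) b).foc) ↔
    IsPv (keys T) (fun c => c.e = 0 ∧ c.x.length = v.length) k ⟨v, false, 0⟩ := by
  have e : ∀ b, IsPv (keys T) (fun c => (ltr Λ v (v.length + 1) c).hd ∧
      (ltr Λ v (v.length + 1) c).isAt (-1)) k b ↔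
      IsPv (keys T) (fun c => c.e = 0 ∧ c.x.length = v.length) k b := fun b =>
    IsPv.congr fun c _ => by
      rw [hdAt_iff _ _ _ _ (by omega) (by omega)]
      omega
  simp only [e]
  exact ⟨fun ⟨b, h1, h2⟩ => by rwa [show b = _ from h2] at h1, fun h => ⟨_, h, rfl⟩⟩

theorem eq_child {v x : Pth} (h : v <+: x) (hl : x.length = v.length + 1) :
    ∃ a, x = v ++ [a] := by
  obtain ⟨t, rfl⟩ := h
  have : t.length = 1 := by simpa using hl
  obtain ⟨a, rfl⟩ := List.length_eq_one_iff.mp this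
  exact ⟨a, rfl⟩

section
variable {σ : Type} {T : σ → Set Pth} (Λ : σ → Set Pth) (v : σ → Pth)

theorem moveDown (hT : ∀ s, TreeOK (T s)) (hv : ∀ s, v s ∈ T s) (n : Fin 4) :
    Tr (fun s => enc (T s) (Λ s) (v s) ((v s).length + 1))
      (fun s => enc (T s) (Λ s) (v s ++ [n]) ((v s).length + 1)) := by
  refine Tr.prev (fun s => keys_finite (hT s)) _ (fun l => l.hd ∧ l.isAt (-1))
    (fun _ b => b.foc)
    (fun a x => ({ a with foc := (a.hd ∧ a.isAt 0) ∧ a.cl = false ∧ a.lab = some n ∧ x } : Ltr))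
    _ ?_
  intro s k _
  refine Ltr.ext rfl rfl rfl rfl ?_ rfl rfl rfl
  simp only [eq_iff_iff]
  rw [pv_foc_iff, hdAt_iff _ _ _ _ (by omega) (by omega)]
  simp only [ltr]
  constructor
  · rintro ⟨⟨h1, h2⟩, h3, h4, h5⟩
    have hl : k.x.length = (v s).length + 1 := by omega
    obtain ⟨a, ha⟩ := eq_child ((child_iff (hv s) hl).mp h5) hl
    rw [ha] at h4
    simp only [List.getLast?_concat, Option.some.injEq] at h4
    exact Key.ext (by rw [ha, h4]) h3 h1
  · rintro rfl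
    exact ⟨⟨rfl, by simp⟩, rfl, by simp, (child_iff (hv s) (by simp)).mpr (by simp)⟩

theorem moveUp (hT : ∀ s, TreeOK (T s)) (u : σ → Fin 4) (hv : ∀ s, v s ++ [u s] ∈ T s) :
    Tr (fun s => enc (T s) (Λ s) (v s ++ [u s]) ((v s).length + 1))
      (fun s => enc (T s) (Λ s) (v s) ((v s).length + 1)) := by
  refine Tr.next (fun s => keys_finite (hT s)) _ (fun l => l.foc ∨ (l.hd ∧ l.isAt (-1)))
    (fun _ b => b.foc)
    (fun a x => ({ a with foc := (a.hd ∧ a.isAt (-1)) ∧ a.cl = false ∧ x } : Ltr)) _ ?_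
  intro s k hk
  refine Ltr.ext rfl rfl rfl rfl ?_ rfl rfl rfl
  simp only [eq_iff_iff, hdAt_iff _ _ _ _ (show (-4 : ℤ) ≤ -1 by omega) (show (-1 : ℤ) ≤ 4 by omega)]
  simp only [ltr]
  have hne : v s ≠ v s ++ [u s] := by simp
  constructor
  · rintro ⟨⟨h1, h2⟩, h3, b, ⟨-, h4, -, h5⟩, rfl⟩
    obtain ⟨x, c, e⟩ := k
    simp only at h1 h2 h3
    subst h1 h3
    have h6 := h5 ⟨x, true, 0⟩ hk (lt_oc _ _ _) (Or.inr ⟨rfl, h2⟩)
    have h7 : x <+: v s ++ [u s] := between_pre h4 (h6.trans_lt (lt_lev _ _ Nat.zero_lt_one))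
    have h8 : x <+: v s := List.prefix_of_prefix_length_le h7 (by simp) (by omega)
    rw [h8.eq_of_length (by omega)]
  · rintro rfl
    refine ⟨⟨rfl, by simp⟩, rfl, _, ⟨hv s, open_lt (by simp) hne _, Or.inl rfl, ?_⟩, rfl⟩
    rintro c _ h1 (rfl | h2)
    · exact le_rfl
    · by_contra h3
      rcases between h1 ((not_le.mp h3).trans (lt_close (by simp) hne 0)) with h4 | h4
      · have := len_lt_of_pre h4.1 h4.2
        omega
      · omega

end

/-- broadcast a property of the unique marked letter -/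
theorem Tr.bcast {κ σ α : Type} [LinearOrder κ] [Finite α] {S : σ → Set κ}
    (hS : ∀ s, (S s).Finite) (F : σ → κ → α) (p q : α → Prop) (f : σ → κ) (hf : ∀ s, f s ∈ S s)
    (hp : ∀ s, ∀ k ∈ S s, p (F s k) ↔ k = f s) (G : σ → Prop) (hG : ∀ s, q (F s (f s)) ↔ G s) :
    Tr (fun s => W (S s) (F s)) (fun s => W (S s) fun k => (F s k, G s)) := by
  refine (Tr.prevP hS F p (fun _ b => q b) (fun s k => f s < k ∧ G s) ?_).trans ?_
  · intro s k _
    constructor
    · rintro ⟨b, hb, h⟩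
      have := (hp s b hb.1).mp hb.2.2.1
      subst this
      exact ⟨hb.2.1, (hG s).mp h⟩
    · rintro ⟨h1, h2⟩
      exact ⟨f s, ⟨hf s, h1, (hp s _ (hf s)).mpr rfl,
        fun c hc _ h => ((hp s c hc).mp h).le⟩, (hG s).mpr h2⟩
  refine Tr.next hS _ (fun a => p a.1) (fun _ b => q b.1)
    (fun a x => (a.1, a.2 ∨ x ∨ (p a.1 ∧ q a.1))) _ ?_
  intro s k hk
  refine Prod.ext rfl ?_
  simp only [eq_iff_iff]
  constructor
  · rintro (h | ⟨b, hb, h⟩ | h)
    · exact h.2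
    · have := (hp s b hb.1).mp hb.2.2.1
      subst this
      exact (hG s).mp h
    · have := (hp s k hk).mp h.1
      subst this
      exact (hG s).mp h.2
  · intro h
    rcases lt_trichotomy k (f s) with h1 | h1 | h1
    · exact Or.inr (Or.inl ⟨f s, ⟨hf s, h1, (hp s _ (hf s)).mpr rfl,
        fun c hc _ h => ((hp s c hc).mp h).ge⟩, (hG s).mpr h⟩)
    · subst h1
      exact Or.inr (Or.inr ⟨(hp s _ hk).mpr rfl, (hG s).mpr h⟩)
    · exact Or.inl ⟨h1, h⟩

end Pool.Agent.H542Z.PF
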