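import Mathlib
import Pool.Agent.H542Z.PFCount

/-! Adding and removing the four children of the focus. -/

set_option autoImplicit false

namespace Pool.Agent.H542Z.PF

open Classical

theorem Tr.nextQ {κ σ α : Type} [LinearOrder κ] [Finite α] {S : σ → Set κ}
    (hS : ∀ s, (S s).Finite) (F : σ → κ → α) (p : α → Prop) (r : α → α → Prop)
    (c : α → Prop → Prop) (G : σ → κ → Prop)
    (h : ∀ s, ∀ k ∈ S s, c (F s k)
      (∃ b, IsNx (S s) (fun c => p (F s c)) k b ∧ r (F s k) (F s b)) ↔ G s k) :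
    Tr (fun s => W (S s) (F s)) (fun s => W (S s) fun k => (F s k, G s k)) :=
  Tr.next hS F p r (fun a x => (a, c a x)) _ fun s k hk => by rw [propext (h s k hk)]

theorem Tr.prevQ {κ σ α : Type} [LinearOrder κ] [Finite α] {S : σ → Set κ}
    (hS : ∀ s, (S s).Finite) (F : σ → κ → α) (p : α → Prop) (r : α → α → Prop)
    (c : α → Prop → Prop) (G : σ → κ → Prop)
    (h : ∀ s, ∀ k ∈ S s, c (F s k)
      (∃ b, IsPv (S s) (fun c => p (F s c)) k b ∧ r (F s k) (F s b)) ↔ G s k) :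
    Tr (fun s => W (S s) (F s)) (fun s => W (S s) fun k => (F s k, G s k)) :=
  Tr.prev hS F p r (fun a x => (a, c a x)) _ fun s k hk => by rw [propext (h s k hk)]

def grow (T : Set Pth) (v : Pth) : Set Pth := {x | x ∈ T ∨ ∃ a, x = v ++ [a]}

theorem pre_concat {x v : Pth} {a : Fin 4} (h : x <+: v ++ [a]) (hl : x.length ≤ v.length) :
    x <+: v := List.prefix_of_prefix_length_le h (by simp) hl

theorem grow_ok {T : Set Pth} (hT : TreeOK T) {v : Pth} (hv : v ∈ T) : TreeOK (grow T v) where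
  fin := (hT.fin.union (Set.finite_range fun a : Fin 4 => v ++ [a])).subset (by
    rintro x (h | ⟨a, rfl⟩)
    · exact Or.inl h
    · exact Or.inr ⟨a, rfl⟩)
  root := Or.inl hT.root
  pre := by
    rintro x y h (hy | ⟨a, rfl⟩)
    · exact Or.inl (hT.pre x y h hy)
    · by_cases hl : x.length ≤ v.length
      · exact Or.inl (hT.pre x v (pre_concat h hl) hv)
      · exact Or.inr ⟨a, h.eq_of_length (by have := h.length_le; simp at this ⊢; omega)⟩
  full := by
    rintro x a b (h | ⟨c, h⟩)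
    · exact Or.inl (hT.full x a b h)
    · exact Or.inr ⟨b, by rw [(List.append_inj' h rfl).1]⟩

def AncK (v : Pth) (ν : ℕ) (k : Key) : Prop :=
  k.e = ν ∧ k.x.length + 3 * 2 ^ ν = v.length + 1 ∧ k.x <+: v

theorem lev_grow_of {T : Set Pth} {v x : Pth} {e : ℕ} (h : lev T x e) : lev (grow T v) x e := by
  cases e with
  | zero => exact Or.inl h
  | succ c =>
    obtain ⟨h1, y, hy, h2⟩ := h
    exact ⟨h1, y, Or.inl hy, h2⟩

theorem val_of_anc {n ν h c : ℕ} (hν : IsVal n ν) (h1 : h + 3 * 2 ^ c = n) (h2 : 2 ^ (c + 1) ∣ h) :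
    c = ν := by
  obtain ⟨j, rfl⟩ := h2
  have h3 : IsVal n c := ⟨j + 1, by rw [← h1, pow_succ]; ring⟩
  exact le_antisymm ((hν.dvd_iff c).mp ((h3.dvd_iff c).mpr le_rfl))
    ((h3.dvd_iff ν).mp ((hν.dvd_iff ν).mpr le_rfl))

theorem dvd_of_anc {n ν h : ℕ} (hν : IsVal n ν) (h1 : h + 3 * 2 ^ ν = n) : 2 ^ (ν + 1) ∣ h := by
  obtain ⟨t, rfl⟩ := hν
  have hp : 0 < 2 ^ ν := by positivity
  have ht : 1 ≤ t := by
    by_contra hc
    have : t = 0 := by omega
    subst this
    omega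
  obtain ⟨u, rfl⟩ := Nat.exists_eq_add_of_le ht
  refine ⟨u, ?_⟩
  have : 2 ^ ν * (2 * (1 + u) + 1) = 2 ^ (ν + 1) * u + 3 * 2 ^ ν := by rw [pow_succ]; ring
  omega

theorem lev_anc {T : Set Pth} (hT : TreeOK T) {v x : Pth} (hv : v ∈ T) {ν : ℕ}
    (hν : IsVal (v.length + 1) ν) (h1 : x.length + 3 * 2 ^ ν = v.length + 1) (h2 : x <+: v) :
    lev T x ν := by
  have h3 := dvd_of_anc hν h1
  cases ν with
  | zero => exact hT.pre x v h2 hv
  | succ c =>
    refine ⟨(pow_dvd_pow 2 (by omega)).trans h3, v, hv, h2, ?_⟩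
    have hp : 0 < 2 ^ c := by positivity
    rw [pow_succ] at h1
    omega

theorem lev_grow_anc {T : Set Pth} {v : Pth} {ν : ℕ} (hν : IsVal (v.length + 1) ν) {k : Key}
    (h : AncK v ν k) : lev (grow T v) k.x (ν + 1) :=
  ⟨dvd_of_anc hν h.2.1, v ++ [0], Or.inr ⟨0, rfl⟩, h.2.2.trans (by simp), by simp [h.2.1]⟩

theorem keys_grow {T : Set Pth} {v : Pth} (hv : v ∈ T) {ν : ℕ}
    (hν : IsVal (v.length + 1) ν) {k : Key} (h : k ∈ keys (grow T v)) :
    k ∈ keys T ∨ (k.e = 0 ∧ ∃ a, k.x = v ++ [a]) ∨ (k.e = ν + 1 ∧ AncK v ν ⟨k.x, k.cl, ν⟩) := by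
  obtain ⟨x, c, e⟩ := k
  cases e with
  | zero =>
    rcases h with h | h
    · exact Or.inl h
    · exact Or.inr (Or.inl ⟨rfl, h⟩)
  | succ e =>
    obtain ⟨h1, y, hy | ⟨a, rfl⟩, h2, h3⟩ := h
    · exact Or.inl ⟨h1, y, hy, h2, h3⟩
    · have hp : 0 < 2 ^ e := by positivity
      simp only [List.length_append, List.length_singleton] at h1 h2 h3
      have h4 : x <+: v := pre_concat h2 (by omega)
      by_cases h5 : x.length + 3 * 2 ^ e ≤ v.length
      · exact Or.inl ⟨h1, v, hv, h4, h5⟩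
      · have h6 : e = ν := val_of_anc hν (by omega) h1
        subst h6
        exact Or.inr (Or.inr ⟨rfl, rfl, by simp only; omega, h4⟩)

theorem Qv_anc {n ν h : ℕ} (hν : IsVal n ν) (hd : 2 ^ ν ∣ h) :
    Qv ν h n = -3 ↔ h + 3 * 2 ^ ν = n := by
  obtain ⟨t, rfl⟩ := hν
  obtain ⟨j, rfl⟩ := hd
  have hp : 0 < 2 ^ ν := by positivity
  unfold Qv
  rw [rd_mul, Nat.mul_div_cancel_left _ hp, mul_comm 3, ← mul_add, Nat.mul_right_inj hp.ne']
  omega

theorem Qv_new {n ν h : ℕ} (hν : IsVal n ν) (h1 : h + 3 * 2 ^ ν = n) : Qv (ν + 1) h n = -2 := by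
  obtain ⟨j, rfl⟩ := dvd_of_anc hν h1
  have hp : 0 < 2 ^ ν := by positivity
  have e1 : 2 ^ (ν + 1) * (j + 2) = 2 ^ (ν + 1) * j + 4 * 2 ^ ν := by rw [pow_succ]; ring
  have e2 : 2 ^ (ν + 1) = 2 * 2 ^ ν := by rw [pow_succ]; ring
  have : rd (ν + 1) n = j + 2 := rd_eq (by omega) (by omega)
  unfold Qv
  rw [this, Nat.mul_div_cancel_left _ (by positivity)]
  omega

section
variable {σ : Type} {T : σ → Set Pth} (Λ : σ → Set Pth) (v : σ → Pth)

theorem ancPass (hT : ∀ s, TreeOK (T s)) (hv : ∀ s, v s ∈ T s) (ν : σ → ℕ)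
    (hν : ∀ s, IsVal ((v s).length + 1) (ν s)) :
    Tr (fun s => enc (T s) (Λ s) (v s) ((v s).length + 1))
      (fun s => W (keys (T s)) fun k =>
        ((ltr (Λ s) (v s) ((v s).length + 1) k, tag (ν s) k), AncK (v s) (ν s) k)) := by
  have fin := fun s => keys_finite (hT s)
  refine (tagPass Λ v hT (fun s => (v s).length + 1) ν True ?_).trans ?_
  · intro s e he
    rw [← (hν s).bit_hi he, iff_true]
  have hM : ∀ s, ∀ k ∈ keys (T s), ((tag (ν s) k).pv ∧
      (ltr (Λ s) (v s) ((v s).length + 1) k).isAt (-3)) ↔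
      (k.e = ν s ∧ k.x.length + 3 * 2 ^ ν s = (v s).length + 1) := by
    intro s k hk
    rw [isAt_iff _ _ _ _ (by omega) (by omega)]
    refine and_congr_right fun h : k.e = ν s => ?_
    rw [h, Qv_anc (hν s) (h ▸ lev_dvd hk)]
  have hP : ∀ s, ∀ c ∈ keys (T s), ((ltr (Λ s) (v s) ((v s).length + 1) c).foc ∨
      ((tag (ν s) c).pv ∧ (ltr (Λ s) (v s) ((v s).length + 1) c).isAt (-3))) ↔
      (c = ⟨v s, false, 0⟩ ∨ (c.e = ν s ∧ c.x.length + 3 * 2 ^ ν s = (v s).length + 1)) := by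
    intro s c hc
    rw [hM s c hc]
    rfl
  refine (Tr.next fin _ (fun a => a.1.foc ∨ (a.2.pv ∧ a.1.isAt (-3))) (fun _ b => b.1.foc)
    (fun a x => (a, (a.2.pv ∧ a.1.isAt (-3)) ∧ a.1.cl = false ∧ x))
    (fun s k => ((ltr (Λ s) (v s) ((v s).length + 1) k, tag (ν s) k),
      AncK (v s) (ν s) k ∧ k.cl = false)) ?_).trans ?_
  · intro s k hk
    refine Prod.ext rfl ?_
    simp only [eq_iff_iff, IsNx.congr (hP s)]
    rw [hM s k hk]
    have hp : 0 < 2 ^ ν s := by positivity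
    obtain ⟨x, c, e⟩ := k
    simp only [ltr, AncK]
    constructor
    · rintro ⟨⟨rfl, h2⟩, rfl, b, ⟨-, h4, -, h5⟩, rfl⟩
      have h6 := h5 ⟨x, true, ν s⟩ hk (lt_oc _ _ _) (Or.inr ⟨rfl, h2⟩)
      exact ⟨⟨rfl, h2, between_pre h4 (h6.trans_lt (lt_lev _ _ (Nat.lt_succ_self _)))⟩, rfl⟩
    · rintro ⟨⟨rfl, h2, h3⟩, rfl⟩
      have hne : x ≠ v s := fun e => by rw [e] at h2; omega
      refine ⟨⟨rfl, h2⟩, rfl, _, ⟨hv s, open_lt h3 hne _, Or.inl rfl, ?_⟩, rfl⟩
      rintro c _ h4 (rfl | h5)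
      · exact le_rfl
      · by_contra h6
        rcases between h4 ((not_le.mp h6).trans (lt_close h3 hne 0)) with h7 | h7
        · have := len_lt_of_pre h7.1 h7.2
          omega
        · omega
  refine Tr.prev fin _ (fun a => a.1.1.foc ∨ (a.1.2.pv ∧ a.1.1.isAt (-3))) (fun _ b => b.1.1.foc)
    (fun a x => (a.1, a.2 ∨ ((a.1.2.pv ∧ a.1.1.isAt (-3)) ∧ a.1.1.cl = true ∧ x))) _ ?_
  intro s k hk
  refine Prod.ext rfl ?_
  simp only [eq_iff_iff, IsPv.congr (hP s)]
  rw [hM s k hk]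
  have hp : 0 < 2 ^ ν s := by positivity
  obtain ⟨x, c, e⟩ := k
  simp only [ltr, AncK]
  constructor
  · rintro (h | ⟨⟨rfl, h2⟩, rfl, b, ⟨-, h4, -, h5⟩, rfl⟩)
    · exact h.1
    · have h6 := h5 ⟨x, false, ν s⟩ hk (lt_oc _ _ _) (Or.inr ⟨rfl, h2⟩)
      have h7 : (⟨x, false, ν s⟩ : Key) ≠ ⟨v s, false, 0⟩ := fun e => by
        have : x = v s := congrArg Key.x e
        rw [this] at h2
        omega
      exact ⟨rfl, h2, between_pre (lt_of_le_of_ne h6 h7) h4⟩
  · rintro ⟨rfl, h2, h3⟩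
    cases c with
    | false => exact Or.inl ⟨⟨rfl, h2, h3⟩, rfl⟩
    | true =>
      have hne : x ≠ v s := fun e => by rw [e] at h2; omega
      refine Or.inr ⟨⟨rfl, h2⟩, rfl, _, ⟨hv s, lt_close h3 hne _, Or.inl rfl, ?_⟩, rfl⟩
      rintro c _ h4 (rfl | h5)
      · exact le_rfl
      · by_contra h6
        rcases between ((open_lt h3 hne (ν s)).trans (not_le.mp h6)) h4 with h7 | h7
        · have := len_lt_of_pre h7.1 h7.2
          omega
        · omega

end

theorem child_of_pre {T : Set Pth} (hT : TreeOK T) {v y : Pth} (h : v <+: y) (hne : v ≠ y)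
    (hy : y ∈ T) (a : Fin 4) : v ++ [a] ∈ T := by
  obtain ⟨t, rfl⟩ := h
  cases t with
  | nil => simp at hne
  | cons b t => exact hT.full v b a (hT.pre _ _ ⟨t, by simp⟩ hy)

theorem leaf_next {T : Set Pth} (hT : TreeOK T) {v : Pth} (hl : v ++ [0] ∉ T) {b : Key}
    (hb : b ∈ keys T) (h : (⟨v, false, 0⟩ : Key) < b) : (⟨v, true, 0⟩ : Key) ≤ b := by
  by_contra hc
  rcases between h (not_le.mp hc) with h1 | ⟨h1, h2 | h2⟩
  · exact hl (child_of_pre hT h1.1 h1.2 (lev_mem hT hb) 0)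
  · obtain ⟨-, y, hy, h3, h4⟩ : lev T b.x (0 + 1) := lev_le hT hb h2.2
    rw [h1] at h3 h4
    exact hl (child_of_pre hT h3 (fun e => by rw [e] at h4; simp at h4) hy 0)
  · omega

def eightK (v : Pth) : List Key :=
  (List.finRange 4).flatMap fun a => [⟨v ++ [a], false, 0⟩, ⟨v ++ [a], true, 0⟩]

def eightL (b : Prop) : List Ltr :=
  (List.finRange 4).flatMap fun a => [⟨True, false, some a, False, False, b, True, 0⟩,
    ⟨True, true, some a, False, False, b, True, 0⟩]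

theorem mem_eightK {v : Pth} {k : Key} : k ∈ eightK v ↔ k.e = 0 ∧ ∃ a, k.x = v ++ [a] := by
  obtain ⟨x, c, e⟩ := k
  simp only [eightK, List.mem_flatMap, List.mem_finRange, true_and, List.mem_cons, Key.mk.injEq,
    List.not_mem_nil, or_false]
  constructor
  · rintro ⟨a, h | h⟩ <;> exact ⟨h.2.2, a, h.1⟩
  · rintro ⟨rfl, a, rfl⟩
    cases c <;> simp

theorem eightK_pairwise (v : Pth) : (eightK v).Pairwise (· < ·) := by
  unfold eightK
  rw [List.pairwise_flatMap]
  refine ⟨fun a _ => by simpa using lt_oc _ _ _, ?_⟩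
  refine List.Pairwise.imp ?_ (List.pairwise_lt_finRange 4)
  intro a b hab x hx y hy
  have key : ∀ c d, (⟨v ++ [a], c, 0⟩ : Key) < ⟨v ++ [b], d, 0⟩ := fun c d =>
    (Key.lt_iff _ _).mpr (Or.inl (code_append_lt v [a] [b] c d (by
      rw [code_cons, code_cons, List.cons_lt_cons_iff]
      left
      have : a.val < b.val := hab
      omega)))
  simp only [List.mem_cons, List.not_mem_nil, or_false] at hx hy
  rcases hx with rfl | rfl <;> rcases hy with rfl | rfl <;> exact key _ _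

theorem notTop_iff {T : Set Pth} (hT : TreeOK T) {k : Key} :
    (∃ b, IsNx (keys T) (fun _ => True) k b ∧ ¬ b.e = 0) ↔ lev T k.x (k.e + 1) := by
  constructor
  · rintro ⟨⟨y, c, e⟩, ⟨h1, h2, -, h3⟩, h4⟩
    obtain ⟨e, rfl⟩ := Nat.exists_eq_succ_of_ne_zero h4
    have h5 : (⟨y, c, e⟩ : Key) ≤ k := by
      by_contra hc
      exact absurd (h3 ⟨y, c, e⟩ (lev_pred hT h1) (not_le.mp hc) trivial)
        (not_le.mpr (lt_lev _ _ (Nat.lt_succ_self _)))
    rcases h5.eq_or_lt with h | h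
    · rw [← h]
      exact h1
    · exact absurd (succ_le h) (not_le.mpr h2)
  · intro h
    exact ⟨⟨k.x, k.cl, k.e + 1⟩, ⟨h, lt_lev _ _ (Nat.lt_succ_self _), trivial,
      fun c _ h _ => succ_le h⟩, by simp⟩

theorem extra_list {T : Set Pth} {v : Pth} (hv : v ∈ T) {ν : ℕ} (hν : IsVal (v.length + 1) ν) :
    ∃ E : List Key, E.length ≤ 10 ∧ ∀ k ∈ keys (grow T v), k ∈ keys T ∨ k ∈ E := by
  refine ⟨eightK v ++ [⟨v.take (v.length + 1 - 3 * 2 ^ ν), false, ν + 1⟩,
    ⟨v.take (v.length + 1 - 3 * 2 ^ ν), true, ν + 1⟩], by simp [eightK], fun k hk => ?_⟩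
  rcases keys_grow hv hν hk with h | h | ⟨h1, -, h2, h3⟩
  · exact Or.inl h
  · exact Or.inr (List.mem_append_left _ (mem_eightK.mpr h))
  · refine Or.inr (List.mem_append_right _ ?_)
    obtain ⟨x, c, e⟩ := k
    simp only at h1 h2 h3
    have : x = v.take (v.length + 1 - 3 * 2 ^ ν) := by
      rw [show v.length + 1 - 3 * 2 ^ ν = x.length by omega]
      exact List.prefix_iff_eq_take.mp h3
    rw [← this, h1]
    cases c <;> simp

section
variable {σ : Type} {T : σ → Set Pth} (Λ : σ → Set Pth) (v : σ → Pth)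

theorem expandPass (hT : ∀ s, TreeOK (T s)) (hv : ∀ s, v s ∈ T s) (hΛ : ∀ s, Λ s ⊆ T s) :
    Tr (fun s => enc (T s) (Λ s) (v s) ((v s).length + 1))
      (fun s => enc (grow (T s) (v s)) (Λ s) (v s) ((v s).length + 1)) := by
  choose ν hν using fun s => exists_val (v s).length
  have fin := fun s => keys_finite (hT s)
  refine (ancPass Λ v hT hv ν hν).trans ?_
  refine (Tr.nextP fin _ (fun _ => True) (fun _ b => ¬ b.1.1.hd)
    (fun s k => lev (T s) k.x (k.e + 1)) (fun s k _ => notTop_iff (hT s))).trans ?_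
  refine (Tr.nextP fin _ (fun a => a.1.1.2.a1) (fun _ b => ¬ b.1.1.1.bit)
    (fun s k => (∃ b, IsNx (keys (T s)) (fun c => c.e = ν s + 1) k b) ∧
      ¬ (((v s).length + 1) / 2 ^ (ν s + 1)) % 2 = 1) ?_).trans ?_
  · intro s k _
    simp only [ltr, tag]
    constructor
    · rintro ⟨b, h1, h2⟩
      exact ⟨⟨b, h1⟩, by rwa [h1.2.2.1] at h2⟩
    · rintro ⟨⟨b, h1⟩, h2⟩
      exact ⟨b, h1, by rwa [h1.2.2.1]⟩
  refine (Tr.nextQ fin _ (fun a => a.1.1.1.1.hd) (fun _ b => b.1.1.1.1.isAt (-1))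
    (fun a x => a.1.1.1.1.foc ∧ x)
    (fun s k => k = ⟨v s, false, 0⟩ ∧ v s ++ [0] ∉ T s) ?_).trans ?_
  · intro s k _
    refine and_congr_right fun h : k = ⟨v s, false, 0⟩ => ?_
    subst h
    simp only [isAt_iff _ _ _ _ (show (-4 : ℤ) ≤ -1 by omega) (show (-1 : ℤ) ≤ 4 by omega)]
    simp only [ltr]
    constructor
    · rintro ⟨b, ⟨-, h2, h3, h4⟩, h5⟩ h6
      have hne : v s ≠ v s ++ [0] := by simp
      have h7 := h4 ⟨v s ++ [0], false, 0⟩ h6 (open_lt (by simp) hne _) rfl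
      rw [h3, Qv_zero] at h5
      rcases between h2 (h7.trans_lt (lt_close (by simp) hne 0)) with h8 | h8
      · have := len_lt_of_pre h8.1 h8.2
        omega
      · omega
    · intro h
      exact ⟨⟨v s, true, 0⟩, ⟨hv s, lt_oc _ _ _, rfl, fun c hc h1 _ => leaf_next (hT s) h hc h1⟩,
        by simp [Qv_zero]⟩
  refine Tr.expand fin (fun s => keys_finite (grow_ok (hT s) (hv s))) _ _
    (fun a => a.1.1.1.1.1)
    (fun a => sel a.2 (eightL a.1.1.1.1.1.bit) (sel (a.1.1.1.2 ∧ ¬ a.1.1.2)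
      [⟨False, a.1.1.1.1.1.cl, a.1.1.1.1.1.lab, False, False, ¬ a.1.2, True, ((-2 : ℤ) : ZMod 16)⟩]
      []))
    (fun s k => sel (k = ⟨v s, false, 0⟩ ∧ v s ++ [0] ∉ T s) (eightK (v s))
      (sel (AncK (v s) (ν s) k ∧ ¬ lev (T s) k.x (k.e + 1)) [⟨k.x, k.cl, k.e + 1⟩] []))
    10 ?_ ?_ ?_ (fun s => extra_list (hv s) (hν s))
  · intro s k
    constructor
    · intro hk
      by_cases h0 : k ∈ keys (T s)
      · exact Or.inl h0
      right
      rcases keys_grow (hv s) (hν s) hk with h | h | h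
      · exact absurd h h0
      · refine ⟨⟨v s, false, 0⟩, hv s, ?_⟩
        have h4 : v s ++ [0] ∉ T s := fun h1 => h0 (by
          obtain ⟨h2, a, h3⟩ := h
          rw [mem_keys, h2, h3]
          exact (hT s).full _ _ _ h1)
        rw [sel_pos ⟨rfl, h4⟩]
        exact mem_eightK.mpr h
      · have hp : 0 < 2 ^ ν s := by positivity
        refine ⟨⟨k.x, k.cl, ν s⟩, lev_anc (hT s) (hv s) (hν s) h.2.2.1 h.2.2.2, ?_⟩
        rw [sel_neg, sel_pos ⟨h.2, by rw [← h.1]; exact h0⟩, ← h.1]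
        · simp
        · rintro ⟨h1, -⟩
          have h2 : k.x = v s := congrArg Key.x h1
          have := h.2.2.1
          simp only [h2] at this
          omega
    · rintro (h | ⟨a, ha, h⟩)
      · exact lev_grow_of h
      · by_cases h1 : a = ⟨v s, false, 0⟩ ∧ v s ++ [0] ∉ T s
        · rw [sel_pos h1, mem_eightK] at h
          rw [mem_keys, h.1]
          exact Or.inr h.2
        · rw [sel_neg h1] at h
          by_cases h2 : AncK (v s) (ν s) a ∧ ¬ lev (T s) a.x (a.e + 1)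
          · rw [sel_pos h2, List.mem_singleton] at h
            rw [h, mem_keys, h2.1.1]
            exact lev_grow_anc (k := a) (hν s) h2.1
          · rw [sel_neg h2] at h
            simp at h
  · intro s a ha
    by_cases h1 : a = ⟨v s, false, 0⟩ ∧ v s ++ [0] ∉ T s
    · rw [sel_pos h1]
      refine ⟨eightK_pairwise _, fun n hn => ?_⟩
      obtain ⟨-, c, hc⟩ := mem_eightK.mp hn
      have h2 : v s <+: n.x := by simp [hc]
      have h3 : v s ≠ n.x := by simp [hc]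
      rw [h1.1]
      exact ⟨open_lt h2 h3 _, fun b hb h4 =>
        (lt_close h2 h3 0).trans_le (leaf_next (hT s) h1.2 hb h4)⟩
    · rw [sel_neg h1]
      by_cases h2 : AncK (v s) (ν s) a ∧ ¬ lev (T s) a.x (a.e + 1)
      · rw [sel_pos h2]
        refine ⟨List.pairwise_singleton _ _, fun n hn => ?_⟩
        rw [List.mem_singleton.mp hn]
        refine ⟨lt_lev _ _ (Nat.lt_succ_self _), fun b hb h3 => lt_of_le_of_ne (succ_le h3) ?_⟩
        rintro rfl
        exact h2.2 hb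
      · rw [sel_neg h2]
        simp
  · intro s a ha
    refine ⟨rfl, ?_⟩
    simp only
    by_cases h1 : a = ⟨v s, false, 0⟩ ∧ v s ++ [0] ∉ T s
    · rw [sel_pos h1, sel_pos h1, h1.1, eightK, eightL, List.map_flatMap]
      refine List.flatMap_congr fun c _ => ?_
      have h2 : v s ++ [c] ∉ Λ s := fun h => h1.2 ((hT s).full _ _ _ (hΛ s h))
      simp [ltr, Qv_zero, h2]
    · rw [sel_neg h1, sel_neg h1]
      by_cases h2 : AncK (v s) (ν s) a ∧ ¬ lev (T s) a.x (a.e + 1)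
      · rw [sel_pos h2, sel_pos h2]
        obtain ⟨⟨h3, h4, h5⟩, h6⟩ := h2
        have h7 := Qv_new (hν s) h4
        simp only [List.map_cons, List.map_nil, List.cons.injEq, and_true]
        refine Ltr.ext (by simp [ltr]) rfl rfl (by simp [ltr]) (by simp [ltr]) ?_
          (by simp [ltr, h3, h7]) (by simp [ltr, h3, h7])
        simp only [ltr, h3, eq_iff_iff, not_and, not_not]
        refine ⟨fun h => ?_, fun h _ => h⟩
        by_cases h8 : ∃ b, IsNx (keys (T s)) (fun c => c.e = ν s + 1) a b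
        · exact h h8
        · have h9 := no_next (hT s) (by omega) h8 _ (hv s)
          have hp : 0 < 2 ^ ν s := by positivity
          have : (v s).length + 1 = 2 ^ ν s + 2 ^ (ν s + 1) * 1 := by rw [pow_succ]; omega
          rw [this, Nat.add_mul_div_left _ _ (by positivity), Nat.div_eq_of_lt
            (by rw [pow_succ]; omega)]
      · rw [sel_neg h2, sel_neg h2]
        rfl

theorem shrinkPass (hT : ∀ s, TreeOK (T s)) (hv : ∀ s, v s ∈ T s) (hΛ : ∀ s, Λ s ⊆ T s)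
    (hc : ∀ s, v s ++ [0] ∈ T s → ∃ y ∈ Λ s, v s <+: y ∧ v s ≠ y) :
    Tr (fun s => enc (grow (T s) (v s)) (Λ s) (v s) ((v s).length + 1))
      (fun s => enc (T s) (Λ s) (v s) ((v s).length + 1)) := by
  choose ν hν using fun s => exists_val (v s).length
  have hT1 := fun s => grow_ok (hT s) (hv s)
  have hv1 : ∀ s, v s ∈ grow (T s) (v s) := fun s => Or.inl (hv s)
  have fin := fun s => keys_finite (hT1 s)
  refine (ancPass Λ v hT1 hv1 ν hν).trans ?_
  -- children of the focus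
  refine (Tr.prevQ fin _ (fun a => a.1.1.hd ∧ a.1.1.isAt (-1)) (fun _ b => b.1.1.foc)
    (fun a x => (a.1.1.hd ∧ a.1.1.isAt 0) ∧ x)
    (fun s k => k.e = 0 ∧ ∃ a, k.x = v s ++ [a]) ?_).trans ?_
  · intro s k _
    simp only
    rw [pv_foc_iff, hdAt_iff _ _ _ _ (by omega) (by omega)]
    constructor
    · rintro ⟨⟨h1, h2⟩, h3⟩
      have hl : k.x.length = (v s).length + 1 := by omega
      exact ⟨h1, eq_child ((child_iff (hv1 s) hl).mp h3) hl⟩
    · rintro ⟨h1, a, h2⟩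
      exact ⟨⟨h1, by simp [h2]⟩, (child_iff (hv1 s) (by simp [h2])).mpr (by simp [h2])⟩
  -- is the focus a leaf of the smaller tree
  refine (Tr.nextQ fin _ (fun a => a.1.1.1.hd ∧ (a.1.1.1.lamp ∨ ¬ (a.1.1.1.hd ∧ a.1.1.1.isAt 0)))
    (fun _ b => b.1.1.1.hd ∧ b.1.1.1.isAt (-1)) (fun a x => a.1.1.1.foc ∧ x)
    (fun s k => k = ⟨v s, false, 0⟩ ∧ v s ++ [0] ∉ T s) ?_).trans ?_
  · intro s k _
    refine and_congr_right fun h : k = ⟨v s, false, 0⟩ => ?_
    subst h
    simp only [hdAt_iff _ _ _ _ (show (-4 : ℤ) ≤ -1 by omega) (show (-1 : ℤ) ≤ 4 by omega),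
      hdAt_iff _ _ _ _ (show (-4 : ℤ) ≤ 0 by omega) (show (0 : ℤ) ≤ 4 by omega)]
    simp only [ltr]
    constructor
    · rintro ⟨b, ⟨-, h2, -, h4⟩, h5⟩ h6
      obtain ⟨y, hy, h7, h8⟩ := hc s h6
      have h9 := h4 ⟨y, false, 0⟩ (Or.inl (hΛ s hy)) (open_lt h7 h8 _) ⟨rfl, Or.inl ⟨rfl, rfl, hy⟩⟩
      rcases between h2 (h9.trans_lt (lt_close h7 h8 0)) with h10 | h10
      · have := len_lt_of_pre h10.1 h10.2
        omega
      · omega
    · intro h
      refine ⟨⟨v s, true, 0⟩, ⟨hv1 s, lt_oc _ _ _, ⟨rfl, Or.inr (by simp)⟩, ?_⟩, by simp⟩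
      intro c hc1 h1 h2
      by_contra h3
      rcases between h1 (not_le.mp h3) with h4 | h4
      · rcases lev_mem (hT1 s) hc1 with h5 | ⟨a, h5⟩
        · exact h (child_of_pre (hT s) h4.1 h4.2 h5 0)
        · rcases h2.2 with h6 | h6
          · exact h ((hT s).full _ _ _ (h5 ▸ hΛ s h6.2.2))
          · exact h6 ⟨h2.1, by simp [h5]⟩
      · omega
  have hbad : ∀ s, ∀ c ∈ keys (grow (T s) (v s)), (AncK (v s) (ν s) c ∨
      (((ltr (Λ s) (v s) ((v s).length + 1) c).hd ∧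
        (ltr (Λ s) (v s) ((v s).length + 1) c).isAt 0) ∧
        ¬ (c.e = 0 ∧ ∃ a, c.x = v s ++ [a]))) ↔ (AncK (v s) (ν s) c ∨
      (c.e = 0 ∧ c.x.length = (v s).length + 1 ∧ ∀ a, c.x ≠ v s ++ [a])) := by
    intro s c _
    rw [hdAt_iff _ _ _ _ (by omega) (by omega)]
    refine or_congr_right ⟨fun h => ⟨h.1.1, by omega, fun a e => h.2 ⟨h.1.1, a, e⟩⟩,
      fun h => ⟨⟨h.1, by omega⟩, fun h' => h'.2.elim fun a e => h.2.2 a e⟩⟩
  refine (Tr.prevP fin _ (fun a => a.1.1.2 ∨ ((a.1.1.1.1.hd ∧ a.1.1.1.1.isAt 0) ∧ ¬ a.1.2))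
    (fun _ b => b.1.1.2) (fun s k => ∃ b, IsPv (keys (grow (T s) (v s)))
      (fun c => AncK (v s) (ν s) c ∨
        (c.e = 0 ∧ c.x.length = (v s).length + 1 ∧ ∀ a, c.x ≠ v s ++ [a])) k b ∧
      AncK (v s) (ν s) b) (fun s k _ => by simp only [IsPv.congr (hbad s)])).trans ?_
  refine (Tr.nextP fin _
    (fun a => a.1.1.1.2 ∨ ((a.1.1.1.1.1.hd ∧ a.1.1.1.1.1.isAt 0) ∧ ¬ a.1.1.2))
    (fun _ b => b.1.1.1.2) (fun s k => ∃ b, IsNx (keys (grow (T s) (v s)))
      (fun c => AncK (v s) (ν s) c ∨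
        (c.e = 0 ∧ c.x.length = (v s).length + 1 ∧ ∀ a, c.x ≠ v s ++ [a])) k b ∧
      AncK (v s) (ν s) b) (fun s k _ => by simp only [IsNx.congr (hbad s)])).trans ?_
  refine (Tr.bcast fin _ (fun a => a.1.1.1.1.1.1.foc) (fun a => a.1.1.2)
    (fun s => ⟨v s, false, 0⟩) hv1 (fun _ _ _ => Iff.rfl) (fun s => v s ++ [0] ∉ T s)
    (fun s => by simp)).trans ?_
  refine (Tr.bcast fin _ (fun a => a.1.1.1.1.1.1.1.foc)
    (fun a => a.1.1.1.2 ∧ a.1.1.2 ∧ a.1.2)
    (fun s => ⟨v s, false, 0⟩) hv1 (fun _ _ _ => Iff.rfl)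
    (fun s => v s ++ [0] ∉ T s ∧ ∃ z, AncK (v s) (ν s) ⟨z, false, ν s⟩ ∧ ¬ lev (T s) z (ν s + 1))
    ?_).trans ?_
  · intro s
    simp only [true_and]
    refine and_congr_right fun hl => ?_
    have hp : 0 < 2 ^ ν s := by positivity
    constructor
    · rintro ⟨⟨b, ⟨-, b2, -, b4⟩, b5⟩, ⟨c, ⟨-, c2, -, c4⟩, c5⟩⟩
      refine ⟨b.x, ⟨rfl, b5.2⟩, ?_⟩
      rintro ⟨-, y, hy, h1, h2⟩
      have hne : b.x ≠ v s := fun e => by have := b5.2.1; rw [e] at this; omega
      have hcx : c.x = b.x := (List.prefix_of_prefix_length_le c5.2.2 b5.2.2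
        (by have := b5.2.1; have := c5.2.1; omega)).eq_of_length
        (by have := b5.2.1; have := c5.2.1; omega)
      have hb : b = ⟨b.x, false, ν s⟩ := by
        refine Key.ext rfl ?_ b5.1
        by_contra h3
        have h4 : b = ⟨b.x, true, b.e⟩ := Key.ext rfl (by simpa using h3) rfl
        exact absurd (h4 ▸ b2) (not_lt.mpr (lt_close (k := ⟨v s, false, 0⟩) b5.2.2 hne _).le)
      have hc' : c = ⟨b.x, true, ν s⟩ := by
        refine Key.ext hcx ?_ c5.1
        by_contra h3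
        have h4 : c = ⟨b.x, false, c.e⟩ := Key.ext hcx (by simpa using h3) rfl
        exact absurd (h4 ▸ c2) (not_lt.mpr (open_lt (k := ⟨v s, false, 0⟩) b5.2.2 hne _).le)
      have hl1 : (y.take ((v s).length + 1)).length = (v s).length + 1 := by
        rw [List.length_take]; have := b5.2.1; omega
      have hy1 : y.take ((v s).length + 1) ∈ T s := (hT s).pre _ _ (List.take_prefix _ _) hy
      have hp1 : b.x <+: y.take ((v s).length + 1) :=
        List.prefix_of_prefix_length_le h1 (List.take_prefix _ _)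
          (by have := b5.2.1; omega)
      have hn1 : b.x ≠ y.take ((v s).length + 1) := fun e => by
        have := b5.2.1; rw [e] at this; omega
      have hB : AncK (v s) (ν s) ⟨y.take ((v s).length + 1), false, 0⟩ ∨
          ((0 : ℕ) = 0 ∧ (y.take ((v s).length + 1)).length = (v s).length + 1 ∧
            ∀ a, y.take ((v s).length + 1) ≠ v s ++ [a]) :=
        Or.inr ⟨rfl, hl1, fun a e => hl ((hT s).full _ _ _ (e ▸ hy1))⟩
      rcases lt_trichotomy (⟨y.take ((v s).length + 1), false, 0⟩ : Key) ⟨v s, false, 0⟩ with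
        h3 | h3 | h3
      · have := b4 _ (Or.inl hy1) h3 hB
        rw [hb] at this
        exact absurd this (not_le.mpr (open_lt hp1 hn1 _))
      · have h4 : y.take ((v s).length + 1) = v s := congrArg Key.x h3
        rw [h4] at hl1
        omega
      · have := c4 _ (Or.inl hy1) h3 hB
        rw [hc'] at this
        exact absurd this (not_le.mpr (lt_close hp1 hn1 _))
    · rintro ⟨z, hz, hn⟩
      have hne : z ≠ v s := fun e => by have := hz.2.1; rw [e] at this; simp only at this; omega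
      have hk : lev (grow (T s) (v s)) z (ν s) :=
        lev_grow_of (lev_anc (hT s) (hv s) (hν s) hz.2.1 hz.2.2)
      have hz1 : z.length + 3 * 2 ^ ν s = (v s).length + 1 := hz.2.1
      have hz2 : z <+: v s := hz.2.2
      have hA : ∀ c, AncK (v s) (ν s) c → c.x = z := fun c h =>
        (List.prefix_of_prefix_length_le h.2.2 hz2
          (by have := h.2.1; omega)).eq_of_length (by have := h.2.1; omega)
      have hB : ∀ c ∈ keys (grow (T s) (v s)), c.x.length = (v s).length + 1 →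
          (∀ a, c.x ≠ v s ++ [a]) → ¬ z <+: c.x := by
        intro c hc1 h1 h2 h3
        rcases lev_mem (hT1 s) hc1 with h4 | ⟨a, h4⟩
        · exact hn ⟨dvd_of_anc (hν s) hz.2.1, c.x, h4, h3, by
            have := hz.2.1; simp only at this; omega⟩
        · exact h2 a h4
      have o1 : (⟨z, false, ν s⟩ : Key) < ⟨v s, false, 0⟩ := open_lt hz.2.2 hne _
      have o2 : (⟨v s, false, 0⟩ : Key) < ⟨z, true, ν s⟩ := lt_close hz.2.2 hne _
      refine ⟨⟨⟨z, false, ν s⟩, ⟨hk, o1, Or.inl hz, ?_⟩, hz⟩,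
        ⟨⟨z, true, ν s⟩, ⟨hk, o2, Or.inl hz, ?_⟩, hz⟩⟩
      · intro c hc1 h1 h2
        by_contra h3
        rcases h2 with h2 | h2
        · rcases between (not_le.mp h3) (h1.trans o2) with h4 | h4
          · exact h4.2 (hA c h2).symm
          · have := h2.1
            omega
        · exact hB c hc1 h2.2.1 h2.2.2 (between_pre (not_le.mp h3) (h1.trans o2))
      · intro c hc1 h1 h2
        by_contra h3
        rcases h2 with h2 | h2
        · rcases between (o1.trans h1) (not_le.mp h3) with h4 | h4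
          · exact h4.2 (hA c h2).symm
          · have := h2.1
            omega
        · exact hB c hc1 h2.2.1 h2.2.2 (between_pre (o1.trans h1) (not_le.mp h3))
  refine (Tr.prevP fin _ (fun _ => True) (fun _ b => b.1.1.1.1.1.1.2)
    (fun s k => k.e = ν s + 1 ∧ AncK (v s) (ν s) ⟨k.x, k.cl, ν s⟩) ?_).trans ?_
  · intro s k hk
    constructor
    · rintro ⟨b, ⟨-, h2, -, h4⟩, h5⟩
      have h6 : (⟨b.x, b.cl, b.e + 1⟩ : Key) ≤ k := succ_le h2
      have h7 : (⟨b.x, b.cl, b.e + 1⟩ : Key) ∈ keys (grow (T s) (v s)) := by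
        rw [mem_keys, h5.1]
        exact lev_grow_anc (k := b) (hν s) h5
      rcases h6.eq_or_lt with h | h
      · rw [← h]
        exact ⟨by rw [h5.1], rfl, h5.2⟩
      · exact absurd (h4 _ h7 h trivial) (not_le.mpr (lt_lev b.x b.cl (Nat.lt_succ_self _)))
    · rintro ⟨h1, h2⟩
      obtain ⟨x, c, e⟩ := k
      simp only at h1
      subst h1
      refine ⟨⟨x, c, ν s⟩, ⟨lev_pred (hT1 s) hk, lt_lev _ _ (Nat.lt_succ_self _), trivial, ?_⟩, h2⟩
      intro d _ h3 _
      by_contra h4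
      exact absurd (succ_le (not_le.mp h4)) (not_le.mpr h3)
  refine (Tr.filter (S' := fun s => keys (T s)) fin _
    (fun a => ¬ ((a.1.1.2 ∧ a.1.1.1.1.1.1.2) ∨ (a.1.2 ∧ a.2))) 10 ?_
    (fun s => extra_list (hv s) (hν s))).trans ?_
  · intro s k
    simp only
    have hp : 0 < 2 ^ ν s := by positivity
    constructor
    · intro hk
      refine ⟨lev_grow_of hk, ?_⟩
      rintro (⟨h1, h2, a, h3⟩ | ⟨⟨-, z, hz, h1⟩, h2, h3⟩)
      · exact h1 ((hT s).full _ _ _ (h3 ▸ lev_mem (hT s) hk))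
      · have : z = k.x := (List.prefix_of_prefix_length_le hz.2.2 h3.2.2
          (by have := h3.2.1; have := hz.2.1; simp only at *; omega)).eq_of_length
          (by have := h3.2.1; have := hz.2.1; simp only at *; omega)
        rw [this, ← h2] at h1
        exact h1 hk
    · rintro ⟨hk, h⟩
      by_cases hl : v s ++ [0] ∈ T s
      · have : grow (T s) (v s) = T s := by
          ext x
          exact ⟨fun h => h.elim id fun ⟨a, e⟩ => e ▸ (hT s).full _ _ _ hl, Or.inl⟩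
        rwa [this] at hk
      · rcases keys_grow (hv s) (hν s) hk with h1 | h1 | h1
        · exact h1
        · exact absurd (Or.inl ⟨hl, h1⟩) h
        · by_contra h2
          refine h (Or.inr ⟨⟨hl, k.x, h1.2, ?_⟩, h1⟩)
          rw [← h1.1]
          exact h2
  exact Tr.pt (fun s => keys_finite (hT s)) _ _ (fun a => a.1.1.1.1.1.1.1.1.1) fun _ _ _ => rfl

end

end Pool.Agent.H542Z.PF
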