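import Mathlib
import Pool.Agent.H542Z.PFGrow

/-! The normal form for the lamplighter group over the free group of rank two. -/

set_option autoImplicit false

namespace Pool.Agent.H542Z.PF

open Classical

/-- the smallest full tree containing the lamps and the focus -/
def cT (Λ : Set Pth) (v : Pth) : Set Pth :=
  {x | x = [] ∨ ∃ y, (y ∈ Λ ∨ y = v) ∧ ∃ p a b, x = p ++ [a] ∧ p ++ [b] <+: y}

theorem mem_cT {Λ : Set Pth} {v y : Pth} (h : y ∈ Λ ∨ y = v) : y ∈ cT Λ v := by
  rcases List.eq_nil_or_concat y with h1 | ⟨p, a, h1⟩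
  · exact Or.inl h1
  · rw [List.concat_eq_append] at h1
    exact Or.inr ⟨y, h, p, a, a, h1, by rw [h1]⟩

theorem cT_ok {Λ : Set Pth} (h : Λ.Finite) (v : Pth) : TreeOK (cT Λ v) where
  fin := by
    obtain ⟨N, hN⟩ := ((h.insert v).image List.length).bddAbove
    refine (List.finite_length_le (Fin 4) N).subset ?_
    rintro x (rfl | ⟨y, hy, p, a, b, rfl, h1⟩)
    · simp
    · have h2 := hN ⟨y, hy.symm, rfl⟩
      have h3 := h1.length_le
      simp only [List.length_append, List.length_singleton, Set.mem_ofPred_eq] at h3 ⊢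
      omega
  root := Or.inl rfl
  pre := by
    rintro x z h1 (rfl | ⟨y, hy, p, a, b, rfl, h2⟩)
    · exact Or.inl (List.prefix_nil.mp h1)
    · by_cases hl : x.length ≤ p.length
      · rcases List.eq_nil_or_concat x with h3 | ⟨q, c, h3⟩
        · exact Or.inl h3
        · rw [List.concat_eq_append] at h3
          refine Or.inr ⟨y, hy, q, c, c, h3, ?_⟩
          rw [← h3]
          exact (pre_concat h1 hl).trans ((List.prefix_append p [b]).trans h2)
      · have : x = p ++ [a] := h1.eq_of_length (by have := h1.length_le; simp at this ⊢; omega)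
        exact Or.inr ⟨y, hy, p, a, b, this, h2⟩
  full := by
    rintro x a b (h1 | ⟨y, hy, p, c, d, h1, h2⟩)
    · simp at h1
    · exact Or.inr ⟨y, hy, p, b, d, by rw [(List.append_inj' h1 rfl).1], h2⟩

theorem cT_concat (Λ : Set Pth) (v : Pth) (n : Fin 4) : cT Λ (v ++ [n]) = grow (cT Λ v) v := by
  ext x
  constructor
  · rintro (rfl | ⟨y, hy | rfl, p, a, b, rfl, h1⟩)
    · exact Or.inl (Or.inl rfl)
    · exact Or.inl (Or.inr ⟨y, Or.inl hy, p, a, b, rfl, h1⟩)
    · by_cases hl : (p ++ [b]).length ≤ v.length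
      · exact Or.inl (Or.inr ⟨v, Or.inr rfl, p, a, b, rfl, pre_concat h1 hl⟩)
      · have : p ++ [b] = v ++ [n] :=
          h1.eq_of_length (by have := h1.length_le; simp at this hl ⊢; omega)
        exact Or.inr ⟨a, by rw [(List.append_inj' this rfl).1]⟩
  · rintro ((rfl | ⟨y, hy | rfl, p, a, b, rfl, h1⟩) | ⟨a, rfl⟩)
    · exact Or.inl rfl
    · exact Or.inr ⟨y, Or.inl hy, p, a, b, rfl, h1⟩
    · exact Or.inr ⟨_, Or.inr rfl, p, a, b, rfl, h1.trans (List.prefix_append _ _)⟩
    · exact Or.inr ⟨_, Or.inr rfl, v, a, n, rfl, List.prefix_rfl⟩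

theorem cT_inner {Λ : Set Pth} {v : Pth} (h : v ++ [0] ∈ cT Λ v) :
    ∃ y ∈ Λ, v <+: y ∧ v ≠ y := by
  rcases h with h | ⟨y, hy, p, a, b, h1, h2⟩
  · simp at h
  · rw [← (List.append_inj' h1 rfl).1] at h2
    have h3 := h2.length_le
    simp only [List.length_append, List.length_singleton] at h3
    have h4 : v ≠ y := fun e => by rw [e] at h3; omega
    exact ⟨y, hy.resolve_right h4.symm, (List.prefix_append _ _).trans h2, h4⟩

noncomputable def nf (Λ : Set Pth) (v : Pth) : List Ltr := enc (cT Λ v) Λ v v.length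

section
variable {σ : Type} (Λ : σ → Set Pth) (v : σ → Pth)

theorem stepDown (h : ∀ s, (Λ s).Finite) (n : Fin 4) :
    Tr (fun s => nf (Λ s) (v s)) (fun s => nf (Λ s) (v s ++ [n])) := by
  have hT := fun s => cT_ok (h s) (v s)
  have hv : ∀ s, v s ∈ cT (Λ s) (v s) := fun s => mem_cT (Or.inr rfl)
  refine (((counter_up Λ v hT (fun s => (v s).length) fun s => ⟨_, hv s, le_rfl⟩).trans
    (expandPass Λ v hT hv fun s y hy => mem_cT (Or.inl hy))).trans
    (moveDown Λ v (fun s => grow_ok (hT s) (hv s)) (fun s => Or.inl (hv s)) n)).congr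
    (fun _ => rfl) fun s => ?_
  simp [nf, cT_concat]

theorem stepUp (h : ∀ s, (Λ s).Finite) (u : σ → Fin 4) :
    Tr (fun s => nf (Λ s) (v s ++ [u s])) (fun s => nf (Λ s) (v s)) := by
  have hT := fun s => cT_ok (h s) (v s)
  have hv : ∀ s, v s ∈ cT (Λ s) (v s) := fun s => mem_cT (Or.inr rfl)
  refine (((moveUp Λ v (fun s => grow_ok (hT s) (hv s)) u (fun s => Or.inr ⟨_, rfl⟩)).trans
    (shrinkPass Λ v hT hv (fun s y hy => mem_cT (Or.inl hy)) fun s => cT_inner)).trans
    (counter_down Λ v hT (fun s => (v s).length) fun s => ⟨_, hv s, le_rfl⟩)).congr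
    (fun s => ?_) fun _ => rfl
  simp [nf, cT_concat]

theorem nf_ne_nil {Λ : Set Pth} (h : Λ.Finite) (v : Pth) : nf Λ v ≠ [] :=
  W_ne_nil (keys_finite (cT_ok h v)) (k := ⟨[], false, 0⟩) (cT_ok h v).root _

theorem stepMove (h : ∀ s, (Λ s).Finite) (u n : Fin 4) :
    Tr (fun s => nf (Λ s) (v s)) (fun s => nf (Λ s)
      (if (v s).getLast? = some u then (v s).dropLast else v s ++ [n])) := by
  refine Tr.cases (fun s => (v s).getLast? = some u) (fun s => nf_ne_nil (h s) _)
    (fun s => nf_ne_nil (h s) _) ?_ ?_ ?_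
  · refine (Tr.bcast (fun s => keys_finite (cT_ok (h s) (v s)))
      (fun s => ltr (Λ s) (v s) (v s).length) (fun a => a.foc) (fun a => a.lab = some u)
      (fun s => ⟨v s, false, 0⟩) (fun s => mem_cT (Or.inr rfl)) (fun _ _ _ => Iff.rfl)
      (fun s => (v s).getLast? = some u) (fun _ => Iff.rfl)).congr (fun _ => rfl) fun s => ?_
    simp [nf, enc, W]
  · refine (stepUp (σ := {s // (v s).getLast? = some u}) (fun s => Λ s) (fun s => (v s).dropLast)
      (fun s => h s) (fun _ => u)).congr (fun s => ?_) fun s => ?_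
    · rw [List.dropLast_append_getLast? u s.2]
    · rw [if_pos s.2]
  · refine (stepDown (σ := {s // ¬ (v s).getLast? = some u}) (fun s => Λ s) (fun s => v s)
      (fun s => h s) n).congr (fun s => rfl) fun s => ?_
    rw [if_neg s.2]

theorem stepToggle (h : ∀ s, (Λ s).Finite) (Λ' : σ → Set Pth)
    (h1 : ∀ s, v s ∈ Λ' s ↔ v s ∉ Λ s) (h2 : ∀ s x, x ≠ v s → (x ∈ Λ' s ↔ x ∈ Λ s)) :
    Tr (fun s => nf (Λ s) (v s)) (fun s => nf (Λ' s) (v s)) := by
  have e : ∀ s, cT (Λ' s) (v s) = cT (Λ s) (v s) := by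
    intro s
    have : ∀ y, (y ∈ Λ' s ∨ y = v s) ↔ (y ∈ Λ s ∨ y = v s) := fun y => by
      by_cases hy : y = v s
      · simp [hy]
      · rw [h2 s y hy]
    simp only [cT, this]
  refine (Tr.pt (fun s => keys_finite (cT_ok (h s) (v s)))
    (fun s => ltr (Λ s) (v s) (v s).length) (fun s => ltr (Λ' s) (v s) (v s).length)
    (fun a => { a with lamp := sel a.foc (¬ a.lamp) a.lamp }) ?_).congr (fun _ => rfl)
    fun s => by simp only [nf, enc, e]
  intro s k _
  refine Ltr.ext rfl rfl rfl ?_ rfl rfl rfl rfl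
  simp only [ltr, eq_iff_iff]
  by_cases hk : k = ⟨v s, false, 0⟩
  · rw [sel_pos hk, hk]
    simp [h1]
  · rw [sel_neg hk]
    refine and_congr_right fun h3 => and_congr_right fun h4 => (h2 s _ fun h5 => hk ?_).symm
    exact Key.ext h5 h4 h3

end

theorem nf_eq_one {Λ : Set Pth} (h : Λ.Finite) {v : Pth} (e : nf Λ v = nf ∅ []) :
    Λ = ∅ ∧ v = [] := by
  have key : ∀ k ∈ keys (cT Λ v), ∃ k', k'.x = [] ∧
      ltr ∅ [] 0 k' = ltr Λ v v.length k := by
    intro k hk
    have : ltr Λ v v.length k ∈ nf ∅ [] := by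
      rw [← e]
      exact List.mem_map_of_mem ((mem_srt (keys_finite (cT_ok h v)) k).mpr hk)
    obtain ⟨k', h1, h2⟩ := List.mem_map.mp this
    refine ⟨k', ?_, h2⟩
    rcases lev_mem (cT_ok Set.finite_empty []) ((mem_srt (keys_finite
      (cT_ok Set.finite_empty [])) k').mp h1) with h3 | ⟨y, hy, p, a, b, -, h3⟩
    · exact h3
    · have : y = [] := by simpa using hy
      simp [this] at h3
  constructor
  · ext y
    refine ⟨fun hy => ?_, fun hy => hy.elim⟩
    obtain ⟨k', -, h2⟩ := key ⟨y, false, 0⟩ (mem_cT (Or.inl hy))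
    have := congrArg Ltr.lamp h2
    simp [ltr, hy] at this
  · obtain ⟨k', h1, h2⟩ := key ⟨v, false, 0⟩ (mem_cT (Or.inr rfl))
    have := congrArg Ltr.lab h2
    simp only [ltr, h1, List.getLast?_nil] at this
    exact List.getLast?_eq_none_iff.mp this.symm

def e4 (p : Fin 2 × Bool) : Fin 4 := ⟨2 * p.1.val + p.2.toNat, by
  have := p.1.2
  have := Bool.toNat_le p.2
  omega⟩

theorem e4_inj : Function.Injective e4 := by decide

def path (g : F2) : Pth := ((g⁻¹).toWord.map e4).reverse

theorem path_inj : Function.Injective path := by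
  intro g h e
  exact inv_injective (FreeGroup.toWord_injective
    (List.map_injective_iff.mpr e4_inj (List.reverse_injective e)))

theorem path_one : path 1 = [] := by simp [path]

theorem path_mul (g : F2) (x : Fin 2 × Bool) : path (g * (FreeGroup.mk [x])⁻¹) =
    if (path g).getLast? = some (e4 (x.1, !x.2)) then (path g).dropLast else path g ++ [e4 x] := by
  have : ((g * (FreeGroup.mk [x])⁻¹)⁻¹).toWord = FreeGroup.reduce (x :: (g⁻¹).toWord) := by
    rw [mul_inv_rev, inv_inv, ← FreeGroup.toWord_mk]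
    congr 1
    conv_lhs => rw [← FreeGroup.mk_toWord (x := g⁻¹), FreeGroup.mul_mk]
    rfl
  unfold path
  rw [this, FreeGroup.reduce.cons, FreeGroup.reduce_toWord]
  cases (g⁻¹).toWord with
  | nil => simp
  | cons y l =>
    have : (x.1 = y.1 ∧ x.2 = !y.2) ↔ e4 y = e4 (x.1, !x.2) := by
      rw [e4_inj.eq_iff]
      obtain ⟨a, b⟩ := x
      obtain ⟨c, d⟩ := y
      cases b <;> cases d <;> simp [eq_comm]
    by_cases h : x.1 = y.1 ∧ x.2 = !y.2
    · have h' := this.mp h
      simp [h, h']
    · have h' := mt this.mpr h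
      simp [h, h']

def lamps (w : Wreath) : Set Pth := path '' {g | Multiplicative.toAdd w.left g ≠ 0}

theorem lamps_finite (w : Wreath) : (lamps w).Finite :=
  (Finsupp.hasFiniteSupport _).image _

theorem path_mem_lamps (w : Wreath) (g : F2) :
    path g ∈ lamps w ↔ Multiplicative.toAdd w.left g ≠ 0 := path_inj.mem_set_image

noncomputable def encW (w : Wreath) : List Ltr := nf (lamps w) (path w.right)

def Ok (g : Wreath) : Prop := Tr encW fun w => encW (w * g)

theorem Ok.one : Ok 1 := (Tr.refl encW).congr (fun _ => rfl) fun _ => by simp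

theorem Ok.mul {g h : Wreath} (h1 : Ok g) (h2 : Ok h) : Ok (g * h) :=
  (Tr.trans h1 (Tr.comap h2 fun w => w * g)).congr (fun _ => rfl) fun _ => by simp [mul_assoc]

theorem Ok.gen (x : Fin 2 × Bool) : Ok (SemidirectProduct.inr (FreeGroup.mk [x])⁻¹) := by
  refine (stepMove lamps (fun w => path w.right) lamps_finite (e4 (x.1, !x.2)) (e4 x)).congr
    (fun _ => rfl) fun w => ?_
  rw [← path_mul]
  simp [encW, lamps]

theorem Ok.inr (h : F2) : Ok (SemidirectProduct.inr h) := by
  induction h using FreeGroup.induction_on with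
  | C1 => simpa using Ok.one
  | of x =>
    have : FreeGroup.of x = (FreeGroup.mk [(x, false)])⁻¹ := by
      rw [FreeGroup.inv_mk]
      rfl
    rw [this]
    exact Ok.gen _
  | inv_of x _ => exact Ok.gen (x, true)
  | mul x y h1 h2 => simpa using h1.mul h2

theorem shift_single (g h : F2) (c : ZMod 2) :
    shift g (Multiplicative.ofAdd (Finsupp.single h c)) =
      Multiplicative.ofAdd (Finsupp.single (g * h) c) := by
  simp [shift]

theorem Ok.toggle : Ok (SemidirectProduct.inl (Multiplicative.ofAdd (Finsupp.single 1 1))) := by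
  have e : ∀ (w : Wreath) (g : F2), Multiplicative.toAdd (w * (SemidirectProduct.inl
      (Multiplicative.ofAdd (Finsupp.single 1 1)) : Wreath)).left g =
      Multiplicative.toAdd w.left g + Finsupp.single w.right (1 : ZMod 2) g := by
    intro w g
    simp [shift_single]
  refine (stepToggle lamps (fun w => path w.right) lamps_finite
    (fun w => lamps (w * SemidirectProduct.inl (Multiplicative.ofAdd (Finsupp.single 1 1))))
    ?_ ?_).congr (fun _ => rfl) fun w => by simp [encW]
  · intro w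
    simp only [path_mem_lamps, e, Finsupp.single_eq_same]
    generalize Multiplicative.toAdd w.left w.right = c
    revert c
    decide
  · intro w x hx
    by_cases h : ∃ g, path g = x
    · obtain ⟨g, rfl⟩ := h
      have : g ≠ w.right := fun e => hx (by rw [e])
      simp only [path_mem_lamps, e, Finsupp.single_eq_of_ne this, add_zero]
    · exact ⟨fun ⟨g, _, e⟩ => absurd ⟨g, e⟩ h, fun ⟨g, _, e⟩ => absurd ⟨g, e⟩ h⟩

theorem Ok.inl (f : F2 →₀ ZMod 2) : Ok (SemidirectProduct.inl (Multiplicative.ofAdd f)) := by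
  induction f using Finsupp.induction_linear with
  | zero => simpa using Ok.one
  | add f g h1 h2 => simpa [ofAdd_add] using h1.mul h2
  | single a c =>
    have hc : c = 0 ∨ c = 1 := by revert c; decide
    rcases hc with rfl | rfl
    · simpa using Ok.one
    · have := shift_single a 1 1
      rw [mul_one] at this
      rw [← this, SemidirectProduct.inl_aut]
      exact ((Ok.inr a).mul Ok.toggle).mul (Ok.inr _)

theorem Ok.all (g : Wreath) : Ok g := by
  rw [← SemidirectProduct.inl_left_mul_inr_right g]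
  exact (Ok.inl (Multiplicative.toAdd g.left)).mul (Ok.inr _)

theorem encW_inj : Function.Injective encW := by
  intro g h e
  obtain ⟨f, -, hf⟩ := Ok.all h⁻¹
  have e1 : encW (g * h⁻¹) = encW 1 := by
    have a1 := hf g
    have a2 := hf h
    simp only [mul_inv_cancel] at a1 a2
    rw [← a1, e, a2]
  have e2 : lamps 1 = ∅ := by simp [lamps]
  unfold encW at e1
  rw [e2, SemidirectProduct.one_right, path_one] at e1
  obtain ⟨h1, h2⟩ := nf_eq_one (lamps_finite _) e1
  rw [← mul_inv_eq_one]
  refine SemidirectProduct.ext ?_ (path_inj (by rw [h2, SemidirectProduct.one_right, path_one]))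
  refine Multiplicative.toAdd.injective (Finsupp.ext fun x => ?_)
  by_contra hc
  have := (path_mem_lamps (g * h⁻¹) x).mpr (by simpa using hc)
  rw [h1] at this
  exact this

theorem wreath_linTime (S : Set Wreath) : CayleyLinTime Wreath S := by
  refine ⟨Ltr, inferInstance, Set.range encW, (Equiv.ofInjective encW encW_inj).symm,
    fun s _ => ?_⟩
  obtain ⟨f, rf, hf⟩ := Ok.all s
  refine ⟨f, rf.linTime, ?_⟩
  rintro ⟨_, w, rfl⟩
  refine ⟨⟨w * s, (hf w).symm⟩, ?_⟩
  rw [Equiv.symm_apply_eq, Equiv.ofInjective_symm_apply]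
  exact Subtype.ext (hf w)

end Pool.Agent.H542Z.PF
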